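import Pool.Agent.Lib.MP_2da099_lc.QT.Defs
import Pool.Agent.Lib.MP_2da099_lc.R2.P10
import Pool.Agent.Lib.MP_2da099_lc.C09
import Pool.Agent.Lib.MP_2da099_lc.C10
import Pool.Agent.Lib.MP_2da099_lc.C11
import Pool.Agent.Lib.MP_2da099_lc.R2.B11

/-!
# W12: the predicate QQ and machines

HINTS.  Copy `R2/P10.lean` (or `QL/Q01.lean`) and `R2/B11.lean`, `QL/Q13.lean` (machines) with the bound `C (n + 1) ^ 2 lg n ^ C`.
-/

set_option autoImplicit false

namespace Pool.Agent.WPQ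

open Pool.Agent.Lib.PolyTime Pool.Agent.WPM Pool.Agent.WPR Pool.Agent.WPU

theorem w12_lg_pos (n : ℕ) : 1 ≤ lg n := Nat.le_add_left 1 _

theorem w12_up {a : ℕ} {b K : ℕ} (n : ℕ) (hb : b ≤ K) :
    a * (n + 1) ^ 2 * lg n ^ b ≤ a * (n + 1) ^ 2 * lg n ^ K :=
  Nat.mul_le_mul_left _ (Nat.pow_le_pow_right (w12_lg_pos n) hb)

theorem w12_lin (κ n K : ℕ) : κ * (n + 1) ≤ κ * (n + 1) ^ 2 * lg n ^ K := by
  have h1 : 1 ≤ lg n ^ K := Nat.one_le_pow _ _ (w12_lg_pos n)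
  have h2 : n + 1 ≤ (n + 1) ^ 2 := by
    rw [sq]
    exact Nat.le_mul_of_pos_left _ (Nat.succ_pos n)
  calc κ * (n + 1) ≤ κ * (n + 1) ^ 2 := Nat.mul_le_mul_left _ h2
    _ ≤ κ * (n + 1) ^ 2 * lg n ^ K := Nat.le_mul_of_pos_right _ h1

theorem QQ.congr {ι : Type} [Enc ι] {Z Z' : List ι → Prop} (h : QQ Z) (e : ∀ w, Z w ↔ Z' w) :
    QQ Z' := by
  obtain ⟨f, T, C, h1, h2, h3⟩ := h
  exact ⟨f, T, C, h1, fun w => (h2 w).trans (e w), h3⟩

theorem QQ.and {ι : Type} [Enc ι] [Finite ι] {Z Z' : List ι → Prop} (h : QQ Z) (h' : QQ Z') :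
    QQ (fun w => Z w ∧ Z' w) := by
  obtain ⟨f, T, C, h1, h2, h3⟩ := h
  obtain ⟨f', T', C', h1', h2', h3'⟩ := h'
  obtain ⟨κ, hκ⟩ := size_list_fin ι
  have hp : CT (fun w => (f w, f' w)) (fun w => size w + T w + T' w) := CT.pair h1 h1'
  have hc : CT (fun x : Bool × Bool => x.1 && x.2) (fun _ => 0) := CT.fin _
  have := hc.comp hp
  refine ⟨fun w => f w && f' w, _, κ + C + C', this, fun w => ?_, fun w => ?_⟩
  · show (f w && f' w) = true ↔ _
    rw [Bool.and_eq_true, h2 w, h2' w]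
  · have a1 := (hκ w).trans (w12_lin κ w.length (κ + C + C'))
    have a2 := (h3 w).trans (w12_up w.length (show C ≤ κ + C + C' by omega))
    have a3 := (h3' w).trans (w12_up w.length (show C' ≤ κ + C + C' by omega))
    show size w + T w + T' w + 0 ≤
      (κ + C + C') * (w.length + 1) ^ 2 * lg w.length ^ (κ + C + C')
    have e : (κ + C + C') * (w.length + 1) ^ 2 * lg w.length ^ (κ + C + C') =
      κ * (w.length + 1) ^ 2 * lg w.length ^ (κ + C + C') +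
      C * (w.length + 1) ^ 2 * lg w.length ^ (κ + C + C') +
      C' * (w.length + 1) ^ 2 * lg w.length ^ (κ + C + C') := by ring
    omega

theorem w12_true {ι : Type} [Enc ι] [Finite ι] : QQ (fun _ : List ι => True) := by
  obtain ⟨κ, hκ⟩ := size_list_fin ι
  exact ⟨fun _ => true, _, κ, CT.const true, fun w => by simp, fun w =>
    (hκ w).trans (w12_lin κ _ κ)⟩

theorem qq_forall {ι : Type} [Enc ι] [Finite ι] (m : ℕ) (Z : Fin m → List ι → Prop)
    (h : ∀ i, QQ (Z i)) : QQ (fun w => ∀ i, Z i w) := by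
  induction m with
  | zero => exact w12_true.congr (fun w => ⟨fun _ i => i.elim0, fun _ => trivial⟩)
  | succ m ih =>
    have h1 := ih (fun i => Z i.succ) (fun i => h i.succ)
    exact ((h 0).and h1).congr (fun w => (Fin.forall_fin_succ (P := fun i => Z i w)).symm)

theorem w12_lg (n : ℕ) : lg n ≤ 2 * Nat.log 2 (n + 2) := by
  have h1 : 1 ≤ Nat.log 2 (n + 2) := Nat.log_pos (by norm_num) (by omega)
  have h2 : Nat.log 2 (n + 1) ≤ Nat.log 2 (n + 2) := Nat.log_mono_right (by omega)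
  show Nat.log 2 (n + 1) + 1 ≤ _
  omega

theorem w12_arith (κ C C' n : ℕ) :
    C' * ((κ * (n + 1) + C * (n + 1) ^ 2 * lg n ^ C) + n + 1) ≤
      (C' * (κ + C + 1) * 2 ^ C + C) * (n + 1) ^ 2 *
        Nat.log 2 (n + 2) ^ (C' * (κ + C + 1) * 2 ^ C + C) := by
  have hL : 1 ≤ Nat.log 2 (n + 2) := Nat.log_pos (by norm_num) (by omega)
  have a1 := w12_lin κ n C
  have a2 := w12_lin 1 n C
  rw [one_mul, one_mul] at a2
  have h3 : (κ * (n + 1) + C * (n + 1) ^ 2 * lg n ^ C) + n + 1 ≤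
      (κ + C + 1) * (n + 1) ^ 2 * lg n ^ C := by
    have e : (κ + C + 1) * (n + 1) ^ 2 * lg n ^ C =
        κ * (n + 1) ^ 2 * lg n ^ C + C * (n + 1) ^ 2 * lg n ^ C + (n + 1) ^ 2 * lg n ^ C := by ring
    omega
  have h4 : lg n ^ C ≤ 2 ^ C * Nat.log 2 (n + 2) ^ C := by
    rw [← mul_pow]
    exact Nat.pow_le_pow_left (w12_lg n) C
  set L := Nat.log 2 (n + 2)
  calc C' * ((κ * (n + 1) + C * (n + 1) ^ 2 * lg n ^ C) + n + 1)
      ≤ C' * ((κ + C + 1) * (n + 1) ^ 2 * lg n ^ C) := Nat.mul_le_mul_left _ h3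
    _ ≤ C' * ((κ + C + 1) * (n + 1) ^ 2 * (2 ^ C * L ^ C)) :=
        Nat.mul_le_mul_left _ (Nat.mul_le_mul_left _ h4)
    _ = C' * (κ + C + 1) * 2 ^ C * (n + 1) ^ 2 * L ^ C := by ring
    _ ≤ (C' * (κ + C + 1) * 2 ^ C + C) * (n + 1) ^ 2 * L ^ C :=
        Nat.mul_le_mul_right _ (Nat.mul_le_mul_right _ (Nat.le_add_right _ _))
    _ ≤ _ := Nat.mul_le_mul_left _ (Nat.pow_le_pow_right hL (Nat.le_add_left _ _))

open Classical in
theorem QQ.machine {r : ℕ} {Z : List (Letter r) → Prop} (h : QQ Z) :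
    ∃ (M : Turing.TM2ComputableInTime (fun w : List (Letter r) => w) (fun b : Bool => [b])
      (fun w => decide (Z w))) (C : ℕ), (∀ k, Finite (M.tm.Γ k)) ∧
      ∀ n : ℕ, M.time n ≤ C * (n + 1) ^ 2 * Nat.log 2 (n + 2) ^ C := by
  obtain ⟨f, T, C, hf, hfz, hT⟩ := h
  have hfe : f = fun w => decide (Z w) := by
    funext w
    rw [Bool.eq_iff_iff, hfz, decide_eq_true_iff]
  rw [← hfe]
  obtain ⟨κ, hκ⟩ := size_list_fin (Letter r)
  have hrev : CT (fun w : List (Letter r) => f w.reverse) (fun w => size w + T w.reverse) :=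
    hf.comp CT.reverse
  obtain ⟨M, C', hfin, hM⟩ := CT.machine f _ hrev
    (fun n => κ * (n + 1) + C * (n + 1) ^ 2 * lg n ^ C) (by
      intro w
      have e1 := hκ w
      have e2 := hT w.reverse
      rw [List.length_reverse] at e2
      exact Nat.add_le_add e1 e2)
  exact ⟨M, C' * (κ + C + 1) * 2 ^ C + C, hfin, fun n => (hM n).trans (w12_arith κ C C' n)⟩

end Pool.Agent.WPQ
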