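import Pool.Agent.Lib.MP_2da099_lc.QT.Defs

/-!
# W01: rows and values

HINTS.  `go_fst`: `M.step x i = (A i *ᵥ x.1, ..)`, induction on `u`.  `rbk_dual`: induction on `u`, generalizing `x`: for `i :: u`
the left side is `∑ j, rbk M (ptr M (A i *ᵥ x.1) u) R j * (M.step x i).2 j`, and for every `R'`:
`∑ j, R' j * (∑ a, x.1 a • (B i a *ᵥ x.2)) j = ∑ k, rst M i x.1 R' k * x.2 k` (exchange of sums, `Matrix.mulVec`, `dotProduct`,
`Matrix.transpose_apply`).  `val_rval`: induction on `s`, generalizing `U V x`; `s = 0`: `M.out c x = ∑ a, ∑ j, c a j * (x.1 a * x.2 j)`;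
`s + 1`: `b4` has four members, induction hypothesis for the state `foldl`, `go_fst`, `rbk_dual`; the sum of rows at `j`.
-/

set_option autoImplicit false

namespace Pool.Agent.WPQ

open Pool.Agent.Lib.PolyTime Pool.Agent.WPM Pool.Agent.WPR Pool.Agent.WPU

theorem go_fst {ι : Type} (M : BM ι) (x : (Fin M.N1 → ℤ) × (Fin M.N2 → ℤ)) (u : List ι) :
    (u.foldl M.step x).1 = pnd M x.1 u := by
  induction u generalizing x with
  | nil => rfl
  | cons i u ih =>
    rw [List.foldl_cons, ih]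
    rfl

theorem w01_step {ι : Type} (M : BM ι) (x : (Fin M.N1 → ℤ) × (Fin M.N2 → ℤ)) (i : ι)
    (R : Fin M.N2 → ℤ) :
    ∑ j, R j * (M.step x i).2 j = ∑ j, rst M i x.1 R j * x.2 j := by
  show R ⬝ᵥ (∑ a, x.1 a • (M.B i a).mulVec x.2) = (∑ a, x.1 a • (M.B i a).transpose.mulVec R) ⬝ᵥ x.2
  rw [dotProduct_sum, sum_dotProduct]
  refine Finset.sum_congr rfl fun a _ => ?_
  rw [dotProduct_smul, smul_dotProduct, Matrix.dotProduct_mulVec, Matrix.mulVec_transpose]

theorem rbk_dual {ι : Type} (M : BM ι) (x : (Fin M.N1 → ℤ) × (Fin M.N2 → ℤ)) (u : List ι)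
    (R : Fin M.N2 → ℤ) :
    ∑ j, R j * (u.foldl M.step x).2 j = ∑ j, rbk M (ptr M x.1 u) R j * x.2 j := by
  induction u generalizing x with
  | nil => rfl
  | cons i u ih =>
    rw [List.foldl_cons, ih]
    exact w01_step M x i _

theorem val_rval {r : ℕ} (M : BM (In r)) (c : Ol r → Ol r → Fin M.N1 → Fin M.N2 → ℤ) (s : ℕ)
    (U V : List (Ol r)) (x : (Fin M.N1 → ℤ) × (Fin M.N2 → ℤ)) :
    val M c s U V x = ∑ j, rval M c s U V x.1 j * x.2 j := by
  induction s generalizing U V x with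
  | zero =>
    show ∑ a, ∑ j, c (U.headD none) (V.headD none) a j * (x.1 a * x.2 j) =
      ∑ j, (∑ a, c (U.headD none) (V.headD none) a j * x.1 a) * x.2 j
    rw [Finset.sum_comm]
    refine Finset.sum_congr rfl fun j _ => ?_
    rw [Finset.sum_mul]
    refine Finset.sum_congr rfl fun a _ => ?_
    ring
  | succ s ih =>
    have key : ∀ b : Bool × Bool, val M c s (hf b.1 (2 ^ s) U) (hf b.2 (2 ^ s) V)
        ((pth b.1 b.2 (2 ^ s) U V).foldl M.step x) =
        ∑ j, rbk M (ptr M x.1 (pth b.1 b.2 (2 ^ s) U V))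
          (rval M c s (hf b.1 (2 ^ s) U) (hf b.2 (2 ^ s) V)
            (pnd M x.1 (pth b.1 b.2 (2 ^ s) U V))) j * x.2 j := by
      intro b
      rw [ih, go_fst, rbk_dual]
    simp only [val, rval, b4, List.map_cons, List.map_nil, List.sum_cons, List.sum_nil, key,
      Pi.add_apply, add_zero, add_mul, Finset.sum_add_distrib]

end Pool.Agent.WPQ
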