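import Pool.Agent.Lib.MP_2da099_lc.QT.Defs

/-!
# W02: the value is a double sum over positions

HINTS.  Induction on `s`, generalizing `U V u0`.  `s = 0`: `U = [o]`, `V = [o']`.  `s + 1`: `U = U.take (2 ^ s) ++ U.drop (2 ^ s)`, both of
length `2 ^ s`; `posO_append`: the positions of `U` are those of the first half and those of the second half from
`v + vpos (first half)`.  The path `u = pth b b' (2 ^ s) U V` has the length `2 ^ s`, `(pth ..).map Prod.fst` is `U.take (2 ^ s)` if `b`,
rests otherwise (`List.map_fst_zip`), `vpos` of rests is `0` (`mvo none = 0`), `foldl M.step (M.run u0) u = M.run (u0 ++ u)`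
(`List.foldl_append`), `vpos` of an append is the sum (`List.sum_append`).  `(u0 ++ u).length + 2 ^ s - 1 = u0.length + 2 ^ (s + 1) - 1`.
The double sum over the two appended lists splits into four double sums (`List.map_append`, `List.sum_append`,
`List.sum_map_add`).
-/

set_option autoImplicit false

namespace Pool.Agent.WPQ

open Pool.Agent.Lib.PolyTime Pool.Agent.WPM Pool.Agent.WPR Pool.Agent.WPU

theorem w02_vpos_append {r : ℕ} (U V : List (Ol r)) : vpos (U ++ V) = vpos U + vpos V := by
  unfold vpos
  rw [List.map_append, List.sum_append]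

theorem w02_vpos_rest {r : ℕ} (h : ℕ) : vpos (List.replicate h (none : Ol r)) = 0 := by
  induction h with
  | zero => rfl
  | succ h ih =>
    rw [List.replicate_succ]
    show mvo none + vpos (List.replicate h (none : Ol r)) = 0
    rw [ih]
    rfl

theorem posO_append {r : ℕ} (v : Fin r → ℤ) (U V : List (Ol r)) :
    posO v (U ++ V) = posO v U ++ posO (v + vpos U) V := by
  induction U generalizing v with
  | nil =>
    show posO v V = posO (v + vpos []) V
    have : v + vpos ([] : List (Ol r)) = v := by
      unfold vpos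
      simp
    rw [this]
  | cons o U ih =>
    show (v, o) :: posO (v + mvo o) (U ++ V) = (v, o) :: (posO (v + mvo o) U ++ posO (v + vpos (o :: U)) V)
    rw [ih]
    have : v + mvo o + vpos U = v + vpos (o :: U) := by
      show v + mvo o + vpos U = v + (mvo o + vpos U)
      rw [add_assoc]
    rw [this]

theorem pth_fst {r : ℕ} (b b' : Bool) (h : ℕ) (U V : List (Ol r)) (hU : h ≤ U.length)
    (hV : h ≤ V.length) : (pth b b' h U V).map Prod.fst = (if b then U.take h else List.replicate h none) := by
  unfold pth
  refine List.map_fst_zip ?_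
  cases b <;> cases b' <;> simp <;> omega

theorem pth_snd {r : ℕ} (b b' : Bool) (h : ℕ) (U V : List (Ol r)) (hU : h ≤ U.length)
    (hV : h ≤ V.length) : (pth b b' h U V).map Prod.snd = (if b' then V.take h else List.replicate h none) := by
  unfold pth
  refine List.map_snd_zip ?_
  cases b <;> cases b' <;> simp <;> omega

theorem w02_len {r : ℕ} (b b' : Bool) (h : ℕ) (U V : List (Ol r)) (hU : h ≤ U.length)
    (hV : h ≤ V.length) : (pth b b' h U V).length = h := by
  have h1 := congrArg List.length (pth_fst b b' h U V hU hV)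
  rw [List.length_map] at h1
  rw [h1]
  cases b <;> simp [hU]

theorem w02_four {α : Type} (X1 X2 Y1 Y2 : List α) (H : α → α → ℤ) :
    ((X1 ++ X2).map (fun x => ((Y1 ++ Y2).map (fun y => H x y)).sum)).sum =
      (X1.map (fun x => (Y1.map (fun y => H x y)).sum)).sum +
      ((X1.map (fun x => (Y2.map (fun y => H x y)).sum)).sum +
      ((X2.map (fun x => (Y1.map (fun y => H x y)).sum)).sum +
      ((X2.map (fun x => (Y2.map (fun y => H x y)).sum)).sum + 0))) := by
  have h1 : ∀ x, ((Y1 ++ Y2).map (fun y => H x y)).sum =
      (Y1.map (fun y => H x y)).sum + (Y2.map (fun y => H x y)).sum := fun x => by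
    rw [List.map_append, List.sum_append]
  simp only [h1]
  rw [List.map_append, List.sum_append, List.sum_map_add, List.sum_map_add]
  ring

theorem val_sum {r : ℕ} (M : BM (In r)) (c : Ol r → Ol r → Fin M.N1 → Fin M.N2 → ℤ)
    (G : ℕ → (Fin r → ℤ) → (Fin r → ℤ) → Ol r → Ol r → ℤ)
    (hG : ∀ u l l', M.out (c l l') (M.run u) =
      G u.length (vpos (u.map Prod.fst)) (vpos (u.map Prod.snd)) l l') (s : ℕ)
    (U V : List (Ol r)) (hU : U.length = 2 ^ s) (hV : V.length = 2 ^ s) (u0 : List (In r)) :
    val M c s U V (M.run u0) = ((posO (vpos (u0.map Prod.fst)) U).map (fun x =>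
      ((posO (vpos (u0.map Prod.snd)) V).map
        (fun y => G (u0.length + 2 ^ s - 1) x.1 y.1 x.2 y.2)).sum)).sum := by
  induction s generalizing U V u0 with
  | zero =>
    rw [pow_zero] at hU hV
    obtain ⟨o, rfl⟩ := List.length_eq_one_iff.1 hU
    obtain ⟨o', rfl⟩ := List.length_eq_one_iff.1 hV
    show M.out (c o o') (M.run u0) = _
    rw [hG]
    simp [posO]
  | succ s ih =>
    have hU' : 2 ^ s ≤ U.length := by rw [hU, pow_succ]; omega
    have hV' : 2 ^ s ≤ V.length := by rw [hV, pow_succ]; omega
    have hlen : ∀ (b : Bool) (W : List (Ol r)), W.length = 2 ^ (s + 1) → (hf b (2 ^ s) W).length = 2 ^ s := by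
      intro b W hW
      rw [pow_succ] at hW
      cases b
      · show (W.take (2 ^ s)).length = 2 ^ s
        rw [List.length_take]
        omega
      · show (W.drop (2 ^ s)).length = 2 ^ s
        rw [List.length_drop]
        omega
    have hstep : ∀ b b' : Bool, val M c s (hf b (2 ^ s) U) (hf b' (2 ^ s) V)
        ((pth b b' (2 ^ s) U V).foldl M.step (M.run u0)) =
        ((posO (vpos (u0.map Prod.fst) + (if b then vpos (U.take (2 ^ s)) else 0)) (hf b (2 ^ s) U)).map (fun x =>
          ((posO (vpos (u0.map Prod.snd) + (if b' then vpos (V.take (2 ^ s)) else 0)) (hf b' (2 ^ s) V)).map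
            (fun y => G (u0.length + 2 ^ (s + 1) - 1) x.1 y.1 x.2 y.2)).sum)).sum := by
      intro b b'
      have e1 : (pth b b' (2 ^ s) U V).foldl M.step (M.run u0) = M.run (u0 ++ pth b b' (2 ^ s) U V) := by
        unfold BM.run
        rw [List.foldl_append]
      have e2 : vpos ((u0 ++ pth b b' (2 ^ s) U V).map Prod.fst) =
          vpos (u0.map Prod.fst) + (if b then vpos (U.take (2 ^ s)) else 0) := by
        rw [List.map_append, w02_vpos_append, pth_fst b b' _ U V hU' hV']
        cases b
        · rw [if_neg (by simp), if_neg (by simp), w02_vpos_rest]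
        · rw [if_pos rfl, if_pos rfl]
      have e3 : vpos ((u0 ++ pth b b' (2 ^ s) U V).map Prod.snd) =
          vpos (u0.map Prod.snd) + (if b' then vpos (V.take (2 ^ s)) else 0) := by
        rw [List.map_append, w02_vpos_append, pth_snd b b' _ U V hU' hV']
        cases b'
        · rw [if_neg (by simp), if_neg (by simp), w02_vpos_rest]
        · rw [if_pos rfl, if_pos rfl]
      have e4 : (u0 ++ pth b b' (2 ^ s) U V).length + 2 ^ s - 1 = u0.length + 2 ^ (s + 1) - 1 := by
        rw [List.length_append, w02_len b b' _ U V hU' hV', pow_succ]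
        omega
      rw [e1, ih _ _ (hlen b U hU) (hlen b' V hV), e2, e3, e4]
    have pU : posO (vpos (u0.map Prod.fst)) U =
        posO (vpos (u0.map Prod.fst) + (if false = true then vpos (U.take (2 ^ s)) else 0)) (hf false (2 ^ s) U) ++
        posO (vpos (u0.map Prod.fst) + (if true = true then vpos (U.take (2 ^ s)) else 0)) (hf true (2 ^ s) U) := by
      rw [if_neg (by simp), if_pos rfl, add_zero]
      show _ = posO _ (U.take (2 ^ s)) ++ posO _ (U.drop (2 ^ s))
      rw [← posO_append, List.take_append_drop]
    have pV : posO (vpos (u0.map Prod.snd)) V =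
        posO (vpos (u0.map Prod.snd) + (if false = true then vpos (V.take (2 ^ s)) else 0)) (hf false (2 ^ s) V) ++
        posO (vpos (u0.map Prod.snd) + (if true = true then vpos (V.take (2 ^ s)) else 0)) (hf true (2 ^ s) V) := by
      rw [if_neg (by simp), if_pos rfl, add_zero]
      show _ = posO _ (V.take (2 ^ s)) ++ posO _ (V.drop (2 ^ s))
      rw [← posO_append, List.take_append_drop]
    rw [pU, pV, w02_four]
    show (val M c s (hf false (2 ^ s) U) (hf false (2 ^ s) V) ((pth false false (2 ^ s) U V).foldl M.step (M.run u0))) +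
      ((val M c s (hf false (2 ^ s) U) (hf true (2 ^ s) V) ((pth false true (2 ^ s) U V).foldl M.step (M.run u0))) +
      ((val M c s (hf true (2 ^ s) U) (hf false (2 ^ s) V) ((pth true false (2 ^ s) U V).foldl M.step (M.run u0))) +
      ((val M c s (hf true (2 ^ s) U) (hf true (2 ^ s) V) ((pth true true (2 ^ s) U V).foldl M.step (M.run u0))) + 0))) = _
    rw [hstep, hstep, hstep, hstep]

end Pool.Agent.WPQ
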