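import Pool.Agent.Lib.MP_2da099_lc.QT.Defs
import Pool.Agent.Lib.MP_2da099_lc.QT.W02

/-!
# W03a: the positions of the padded word

HINTS.  `posO v (w.map some) = (posl v w).map (fun x => (x.1, some x.2))` by induction on `w`, for all `v` (`posl`: see
`C09`/`Defs`, `mvo (some l) = sz (sgl l)`); all members of `posO v (List.replicate k none)` have the second component `none`, so
their sum is `0`; `posO_append`.  `pad_length`: `w.length ≤ 2 ^ lg w.length` (`Nat.lt_pow_succ_log_self`).
-/

set_option autoImplicit false

namespace Pool.Agent.WPQ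

open Pool.Agent.Lib.PolyTime Pool.Agent.WPM Pool.Agent.WPR Pool.Agent.WPU

theorem pad_length {r : ℕ} (w : List (Letter r)) : (pad w).length = 2 ^ lg w.length := by
  have h : w.length + 1 < 2 ^ (Nat.log 2 (w.length + 1) + 1) :=
    Nat.lt_pow_succ_log_self Nat.one_lt_two _
  have h2 : lg w.length = Nat.log 2 (w.length + 1) + 1 := rfl
  unfold pad
  rw [List.length_append, List.length_map, List.length_replicate, h2]
  omega

private theorem w03a_some {r : ℕ} (w : List (Letter r)) : ∀ v : Fin r → ℤ,
    posO v (w.map some) = (posl v w).map (fun x => (x.1, some x.2)) := by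
  induction w with
  | nil => intro v; rfl
  | cons l w ih =>
    intro v
    have h := ih (v + sz (sgl l))
    show (v, some l) :: posO (v + mvo (some l)) (w.map some) =
      (v, some l) :: (posl (v + sz (sgl l)) w).map (fun x => (x.1, some x.2))
    rw [← h]
    rfl

private theorem w03a_none {r : ℕ} {E : Type} [AddCommMonoid E] (F : (Fin r → ℤ) × Ol r → E)
    (hF : ∀ v, F (v, none) = 0) (k : ℕ) : ∀ v : Fin r → ℤ,
    ((posO v (List.replicate k (none : Ol r))).map F).sum = 0 := by
  induction k with
  | zero => intro v; rfl
  | succ k ih =>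
    intro v
    rw [List.replicate_succ]
    show (F (v, none) :: (posO (v + mvo none) (List.replicate k none)).map F).sum = 0
    rw [List.sum_cons, hF, ih, add_zero]

theorem posO_pad {r : ℕ} {E : Type} [AddCommMonoid E] (F : (Fin r → ℤ) × Ol r → E)
    (hF : ∀ v, F (v, none) = 0) (w : List (Letter r)) :
    ((posO 0 (pad w)).map F).sum = ((posl 0 w).map (fun x => F (x.1, some x.2))).sum := by
  unfold pad
  rw [posO_append, List.map_append, List.sum_append, w03a_none F hF, add_zero, w03a_some,
    List.map_map]
  rfl

end Pool.Agent.WPQ
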