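import Pool.Agent.Lib.MP_2da099_lc.UE.Defs

/-!
# Word problems of metabelian groups in time n^2 (log n)^C: definitions
-/

set_option autoImplicit false

namespace Pool.Agent.WPQ

open Pool.Agent.Lib.PolyTime Pool.Agent.WPM Pool.Agent.WPR Pool.Agent.WPU

/-! ### Time -/

/-- The predicate `Z` on lists is decided in time `O(n ^ 2 (log n) ^ C)`. -/
def QQ {ι : Type} [Enc ι] (Z : List ι → Prop) : Prop :=
  ∃ (f : List ι → Bool) (T : List ι → ℕ) (C : ℕ), CT f T ∧ (∀ w, f w = true ↔ Z w) ∧
    ∀ w, T w ≤ C * (w.length + 1) ^ 2 * lg w.length ^ C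

/-! ### Quadtrees -/

/-- Letters or rests. -/
abbrev Ol (r : ℕ) : Type := Option (Letter r)

/-- Instructions. -/
abbrev In (r : ℕ) : Type := Ol r × Ol r

/-- The four choices. -/
def b4 : List (Bool × Bool) := [(false, false), (false, true), (true, false), (true, true)]

/-- The first part (the first `h` items) or the rest of a list. -/
def hf {α : Type} (b : Bool) (h : ℕ) (U : List α) : List α := if b then U.drop h else U.take h

/-- The path along the first `h` letters, or resting, in both arguments. -/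
def pth {r : ℕ} (b b' : Bool) (h : ℕ) (U V : List (Ol r)) : List (In r) :=
  (if b then U.take h else List.replicate h none).zip
    (if b' then V.take h else List.replicate h none)

/-- The sum of the outputs over the pairs of positions of `U`, `V` (lists of length `2 ^ s`), each pair is
reached from the state `x` by `2 ^ s - 1` instructions. -/
def val {r : ℕ} (M : BM (In r)) (c : Ol r → Ol r → Fin M.N1 → Fin M.N2 → ℤ) :
    ℕ → List (Ol r) → List (Ol r) → (Fin M.N1 → ℤ) × (Fin M.N2 → ℤ) → ℤ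
  | 0, U, V, x => M.out (c (U.headD none) (V.headD none)) x
  | s + 1, U, V, x => (b4.map (fun b => val M c s (hf b.1 (2 ^ s) U) (hf b.2 (2 ^ s) V)
      ((pth b.1 b.2 (2 ^ s) U V).foldl M.step x))).sum

/-- The positions before the letters. -/
def posO {r : ℕ} : (Fin r → ℤ) → List (Ol r) → List ((Fin r → ℤ) × Ol r)
  | _, [] => []
  | v, o :: U => (v, o) :: posO (v + mvo o) U

/-- The word, padded with rests to the length `2 ^ lg n`. -/
def pad {r : ℕ} (w : List (Letter r)) : List (Ol r) :=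
  w.map some ++ List.replicate (2 ^ lg w.length - w.length) none

/-! ### Rows -/

/-- The instructions of a path with the parameters before them. -/
def ptr {ι : Type} (M : BM ι) : (Fin M.N1 → ℤ) → List ι → List (ι × (Fin M.N1 → ℤ))
  | _, [] => []
  | p, i :: u => (i, p) :: ptr M ((M.A i).mulVec p) u

/-- The parameters after a path. -/
def pnd {ι : Type} (M : BM ι) (p : Fin M.N1 → ℤ) (u : List ι) : Fin M.N1 → ℤ :=
  u.foldl (fun p i => (M.A i).mulVec p) p

/-- The transposed step. -/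
def rst {ι : Type} (M : BM ι) (i : ι) (p : Fin M.N1 → ℤ) (R : Fin M.N2 → ℤ) : Fin M.N2 → ℤ :=
  ∑ a, p a • (M.B i a).transpose.mulVec R

/-- The transposed run. -/
def rbk {ι : Type} (M : BM ι) (tr : List (ι × (Fin M.N1 → ℤ))) (R : Fin M.N2 → ℤ) :
    Fin M.N2 → ℤ := tr.foldr (fun x R => rst M x.1 x.2 R) R

/-- The row of an output. -/
def brow {N1 N2 : ℕ} (c : Fin N1 → Fin N2 → ℤ) (p : Fin N1 → ℤ) : Fin N2 → ℤ :=
  fun j => ∑ a, c a j * p a

/-- The row of `val`. -/
def rval {r : ℕ} (M : BM (In r)) (c : Ol r → Ol r → Fin M.N1 → Fin M.N2 → ℤ) :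
    ℕ → List (Ol r) → List (Ol r) → (Fin M.N1 → ℤ) → (Fin M.N2 → ℤ)
  | 0, U, V, p => brow (c (U.headD none) (V.headD none)) p
  | s + 1, U, V, p => (b4.map (fun b => rbk M (ptr M p (pth b.1 b.2 (2 ^ s) U V))
      (rval M c s (hf b.1 (2 ^ s) U) (hf b.2 (2 ^ s) V)
        (pnd M p (pth b.1 b.2 (2 ^ s) U V))))).sum

/-! ### Jobs -/

/-- Traces: the instructions of a path with the parameters. -/
abbrev Tr {r : ℕ} (M : BM (In r)) : Type := List (In r × (Fin M.N1 → ℤ))

/-- Jobs: parameters and two words. -/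
abbrev Jb {r : ℕ} (M : BM (In r)) : Type := (Fin M.N1 → ℤ) × (List (Ol r) × List (Ol r))

/-- The encoded traces. -/
abbrev ETr (r : ℕ) : Type := List (In r × List (ZB 2))

/-- The encoded jobs. -/
abbrev EJ (r : ℕ) : Type := List (ZB 2) × (List (Ol r) × List (Ol r))

/-- The encoding of a trace. -/
def eT {r : ℕ} (M : BM (In r)) (t : Tr M) : ETr r := t.map (fun x => (x.1, zl x.2))

/-- The encoding of a job. -/
def eJ {r : ℕ} (M : BM (In r)) (j : Jb M) : EJ r := (zl j.1, j.2)

/-- The four children of a job, with the traces of the paths to them. -/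
def splitJ {r : ℕ} (M : BM (In r)) (h : ℕ) (j : Jb M) : List (Tr M × Jb M) :=
  b4.map (fun b => (ptr M j.1 (pth b.1 b.2 h j.2.1 j.2.2),
    (pnd M j.1 (pth b.1 b.2 h j.2.1 j.2.2), (hf b.1 h j.2.1, hf b.2 h j.2.2))))

/-- The valid jobs of the scale `s`. -/
def Vj {r : ℕ} (M : BM (In r)) (N s : ℕ) (j : Jb M) : Prop :=
  ∃ u : List (In r), u.length + 2 ^ s ≤ N ∧ j.1 = (M.run u).1 ∧
    j.2.1.length = 2 ^ s ∧ j.2.2.length = 2 ^ s

/-- The valid traces of the scale `s`. -/
def Vt {r : ℕ} (M : BM (In r)) (N s : ℕ) (t : Tr M) : Prop :=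
  ∃ u u' : List (In r), u.length + u'.length ≤ N ∧ u'.length = 2 ^ s ∧
    t = ptr M (M.run u).1 u'

/-- The half lengths. -/
def hs : ℕ → List ℕ
  | 0 => []
  | s + 1 => 2 ^ s :: hs s

/-- One level down. -/
def dstep {r : ℕ} (M : BM (In r)) (x : List (Jb M) × List (List (Tr M))) (h : ℕ) :
    List (Jb M) × List (List (Tr M)) :=
  ((x.1.flatMap (splitJ M h)).map Prod.snd, (x.1.flatMap (splitJ M h)).map Prod.fst :: x.2)

/-- All levels down. -/
def dn {r : ℕ} (M : BM (In r)) (s : ℕ) (J : List (Jb M)) :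
    List (Jb M) × List (List (Tr M)) := (hs s).foldl (dstep M) (J, [])

/-- The sums of groups of four items. -/
def sum4 {α : Type} [Add α] : List α → List α
  | a :: b :: c :: d :: l => (a + (b + (c + d))) :: sum4 l
  | _ => []

/-- One level up. -/
def ustep {r : ℕ} (M : BM (In r)) (X : List (Fin M.N2 → ℤ)) (t : List (Tr M)) :
    List (Fin M.N2 → ℤ) := sum4 (List.zipWith (fun t R => rbk M t R) t X)

/-- All levels up. -/
def up {r : ℕ} (M : BM (In r)) (ts : List (List (Tr M))) (X : List (Fin M.N2 → ℤ)) :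
    List (Fin M.N2 → ℤ) := ts.foldl (ustep M) X

/-- The rows of the jobs of scale `0`. -/
def bas {r : ℕ} (M : BM (In r)) (c : Ol r → Ol r → Fin M.N1 → Fin M.N2 → ℤ) (j : Jb M) :
    Fin M.N2 → ℤ := brow (c (j.2.1.headD none) (j.2.2.headD none)) j.1

/-- The row of a job. -/
def rj {r : ℕ} (M : BM (In r)) (c : Ol r → Ol r → Fin M.N1 → Fin M.N2 → ℤ) (s : ℕ) (j : Jb M) :
    Fin M.N2 → ℤ := rval M c s j.2.1 j.2.2 j.1

end Pool.Agent.WPQ
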