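import Pool.Agent.Lib.MP_2da099_lc.UE.Defs
import Pool.Agent.Lib.MP_2da099_lc.QT.Defs
import Mathlib.Algebra.MvPolynomial.NoZeroDivisors

/-!
# W03b: the level does not matter

HINTS.  For `x ∈ posl 0 w`: `nrm x.1 ≤ w.length` (see `UE.A8` or `UE.T3`; in fact `< w.length`).  By `H.stay`:
`H.Psi (k + m) c = g ^ m • H.Psi k c` for `nrm c ≤ k`, so with `k = 2 n`, `m = 2 (L - n)` the left sum is
`g ^ (2 (L - n)) • hsum H Th w` (`Matrix.mulVec_smul`, sums).  If `g ≠ 0` it vanishes iff `hsum` does (`SP t` is a domain, vectors of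
polynomials).  If `g = 0` and `w ≠ []`: `Psi (2 L) c = g • Psi (2 L - 1) c = 0` for `nrm c ≤ 2 L - 1` (`nrm c ≤ n ≤ 2 n - 1`), so both sums
are `0`; `w = []`: both sums are empty.
-/

set_option autoImplicit false

namespace Pool.Agent.WPQ

open Pool.Agent.Lib.PolyTime Pool.Agent.WPM Pool.Agent.WPR Pool.Agent.WPU

private theorem w03b_nrm_add {r : ℕ} (a b : Fin r → ℤ) : nrm (a + b) ≤ nrm a + nrm b := by
  unfold nrm
  rw [← Finset.sum_add_distrib]
  refine Finset.sum_le_sum fun i _ => ?_
  rw [Pi.add_apply]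
  exact Int.natAbs_add_le _ _

private theorem w03b_nrm_sz {r : ℕ} (l : Letter r) : nrm (sz (sgl l)) ≤ 1 := by
  unfold nrm
  rw [Finset.sum_eq_single l.1]
  · simp only [sz, sgl]
    rcases l with ⟨l1, l2⟩
    cases l2 <;> simp
  · intro i _ hi
    simp [sz, sgl, hi]
  · intro h
    exact absurd (Finset.mem_univ _) h

private theorem w03b_posl {r : ℕ} (w : List (Letter r)) : ∀ (v : Fin r → ℤ), ∀ x ∈ posl v w,
    nrm x.1 + 1 ≤ nrm v + w.length := by
  induction w with
  | nil => intro v x hx; simp [posl] at hx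
  | cons l w ih =>
    intro v x hx
    rw [posl, List.mem_cons] at hx
    rcases hx with rfl | hx
    · simp
    · have h1 := ih _ x hx
      have h2 := w03b_nrm_add v (sz (sgl l))
      have h3 := w03b_nrm_sz l
      rw [List.length_cons]
      omega

private theorem w03b_stay {r : ℕ} (H : Hol r) (k m : ℕ) (c : Fin r → ℤ) (h : nrm c ≤ k) :
    H.Psi (k + m) c = H.g ^ m • H.Psi k c := by
  induction m with
  | zero => simp
  | succ m ih =>
    rw [← add_assoc, H.stay (k + m) c (by omega), ih, smul_smul, pow_succ']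

private theorem w03b_sum {r K : ℕ} (H : Hol r)
    (Th : Letter r → (Fin r → Fin K) → Matrix (Fin H.d) (Fin H.d) (SP H.t))
    (l : List ((Fin r → ℤ) × Letter r)) (k m : ℕ) (hl : ∀ x ∈ l, nrm x.1 ≤ k) :
    (l.map (fun x => (thv (Th x.2) x.1).mulVec (H.Psi (k + m) x.1))).sum =
      H.g ^ m • (l.map (fun x => (thv (Th x.2) x.1).mulVec (H.Psi k x.1))).sum := by
  induction l with
  | nil => simp
  | cons x l ih =>
    rw [List.map_cons, List.sum_cons, List.map_cons, List.sum_cons, smul_add,
      ih (fun y hy => hl y (List.mem_cons_of_mem _ hy)),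
      w03b_stay H k m x.1 (hl x List.mem_cons_self), Matrix.mulVec_smul]

theorem hsum_level {r K : ℕ} (H : Hol r)
    (Th : Letter r → (Fin r → Fin K) → Matrix (Fin H.d) (Fin H.d) (SP H.t)) (w : List (Letter r))
    (L : ℕ) (hL : w.length ≤ L) :
    ((posl 0 w).map (fun x => (thv (Th x.2) x.1).mulVec (H.Psi (2 * L) x.1))).sum = 0 ↔
      hsum H Th w = 0 := by
  have h0 : nrm (0 : Fin r → ℤ) = 0 := by simp [nrm]
  have hw : ∀ x ∈ posl 0 w, nrm x.1 + 1 ≤ w.length := by
    intro x hx
    have := w03b_posl w 0 x hx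
    omega
  rcases Nat.eq_zero_or_pos w.length with hn | hn
  · have hw0 : w = [] := List.length_eq_zero_iff.1 hn
    subst hw0
    simp [hsum, posl]
  obtain ⟨m, hm⟩ : ∃ m, 2 * L = (2 * w.length - 1) + (m + 1) := ⟨2 * L - 2 * w.length, by omega⟩
  have hm' : 2 * w.length = (2 * w.length - 1) + (0 + 1) := by omega
  have hk : ∀ x ∈ posl 0 w, nrm x.1 ≤ 2 * w.length - 1 := by
    intro x hx
    have := hw x hx
    omega
  unfold hsum
  have e1 := w03b_sum H Th (posl 0 w) (2 * w.length - 1) (m + 1) hk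
  have e2 := w03b_sum H Th (posl 0 w) (2 * w.length - 1) (0 + 1) hk
  rw [← hm] at e1
  rw [← hm'] at e2
  rw [e1, e2]
  generalize ((posl 0 w).map (fun x => (thv (Th x.2) x.1).mulVec
    (H.Psi (2 * w.length - 1) x.1))).sum = s
  by_cases hg : H.g = 0
  · simp [hg]
  · constructor
    · intro h
      have hs : s = 0 := by
        funext i
        have h1 := congrFun h i
        rw [Pi.smul_apply, smul_eq_mul, Pi.zero_apply, mul_eq_zero] at h1
        rcases h1 with h1 | h1
        · exact absurd (pow_eq_zero_iff (by omega) |>.1 h1) hg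
        · exact h1
      rw [hs, smul_zero]
    · intro h
      have hs : s = 0 := by
        funext i
        have h1 := congrFun h i
        rw [Pi.smul_apply, smul_eq_mul, Pi.zero_apply, mul_eq_zero] at h1
        rcases h1 with h1 | h1
        · exact absurd (pow_eq_zero_iff (by omega) |>.1 h1) hg
        · exact h1
      rw [hs, smul_zero]

end Pool.Agent.WPQ
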