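import Pool.Agent.Lib.MP_2da099_lc.UE.T5a
import Pool.Agent.Lib.MP_2da099_lc.UE.T3
import Pool.Agent.Lib.MP_2da099_lc.UE.L3
import Pool.Agent.Lib.MP_2da099_lc.UE.R4
import Pool.Agent.Lib.MP_2da099_lc.QT.W01
import Pool.Agent.Lib.MP_2da099_lc.QT.W02
import Pool.Agent.Lib.MP_2da099_lc.QT.W03a
import Pool.Agent.Lib.MP_2da099_lc.QT.W03b

/-!
# W03: words are tested by values of quadtrees

HINTS.  As `UE.T5b`: `D` and `m` from `exists_rec H`, `K' = max K 2`, `D1 ≥ m` and `≥` the degrees of all `(Th l γ)ᵀ * Th l' γ'`, the machine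
`M` of `exists_machine` for `K'`, the outputs `c β` of `exists_out`, numbered by `β : Fin H.t → Fin D` (`Fintype.equivFin`).  Extend
`c β` by `0` to rests: `c β (some l) (some l') = ..`, otherwise `0` (then `M.out 0 x = 0`).
`G L v w l l' = Lf D β (∑ κ, F v l κ * F w l' κ)` for letters with `F v l = (thv (Th l) v).mulVec (H.Psi (2 * L) v)`, `0` if one of
them is `none`.  `val_sum` with `u0 = []` (`M.run [] = (M.p0, M.m0)`, `vpos [] = 0`), `U = V = pad w`, `s = lg w.length`,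
`L = 0 + 2 ^ s - 1 ≥ w.length` (`2 ^ lg n > n + 1` or `≥ n + 1`).  `posO_pad` twice, then `lf_square` for the list `posl 0 w` and
`F x = (thv (Th x.2) x.1).mulVec (H.Psi (2 * L) x.1)`; all `β` vanish iff the sum is `0` (`Lf_pos`; if it is `0` then all squares are
`0`, `map_zero`); `hsum_level`.
-/

set_option autoImplicit false

namespace Pool.Agent.WPQ

open Pool.Agent.Lib.PolyTime Pool.Agent.WPM Pool.Agent.WPR Pool.Agent.WPU

private theorem w03_fin {ι : Type} [Finite ι] (F : ι → ℕ) : ∃ D0 : ℕ, ∀ i, F i ≤ D0 := by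
  classical
  let _ := Fintype.ofFinite ι
  exact ⟨Finset.univ.sup F, fun i => Finset.le_sup (Finset.mem_univ i)⟩

private theorem w03_bound {r K : ℕ} (H : Hol r)
    (Th : Letter r → (Fin r → Fin K) → Matrix (Fin H.d) (Fin H.d) (SP H.t)) :
    ∃ D0 : ℕ, ∀ l l' γ γ' κ κ', (((Th l γ).transpose * Th l' γ') κ κ').totalDegree ≤ D0 := by
  obtain ⟨D0, h⟩ := w03_fin (fun x : Letter r × Letter r × (Fin r → Fin K) × (Fin r → Fin K) ×
    Fin H.d × Fin H.d => (((Th x.1 x.2.2.1).transpose * Th x.2.1 x.2.2.2.1) x.2.2.2.2.1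
      x.2.2.2.2.2).totalDegree)
  exact ⟨D0, fun l l' γ γ' κ κ' => h (l, l', γ, γ', κ, κ')⟩

/-- the vector of a letter or a rest -/
private noncomputable def w03_F {r K : ℕ} (H : Hol r)
    (Th : Letter r → (Fin r → Fin K) → Matrix (Fin H.d) (Fin H.d) (SP H.t)) (L : ℕ)
    (v : Fin r → ℤ) : Ol r → Fin H.d → SP H.t
  | some l => (thv (Th l) v).mulVec (H.Psi (2 * L) v)
  | none => 0

/-- the outputs, extended by zero -/
private def w03_c {r N1 N2 : ℕ} (c : Letter r → Letter r → Fin N1 → Fin N2 → ℤ) :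
    Ol r → Ol r → Fin N1 → Fin N2 → ℤ
  | some l, some l' => c l l'
  | some _, none => 0
  | none, _ => 0

private theorem w03_sq {r K : ℕ} (H : Hol r)
    (Th : Letter r → (Fin r → Fin K) → Matrix (Fin H.d) (Fin H.d) (SP H.t)) (D : ℕ)
    (β : Fin H.t → Fin D) (w : List (Letter r)) (L : ℕ) :
    ((posO 0 (pad w)).map (fun x => ((posO 0 (pad w)).map (fun y =>
      Lf D β (∑ κ, w03_F H Th L x.1 x.2 κ * w03_F H Th L y.1 y.2 κ))).sum)).sum =
      ∑ κ, Lf D β (((posl 0 w).map (fun x =>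
        (thv (Th x.2) x.1).mulVec (H.Psi (2 * L) x.1))).sum κ *
        ((posl 0 w).map (fun x => (thv (Th x.2) x.1).mulVec (H.Psi (2 * L) x.1))).sum κ) := by
  rw [lf_square]
  have h2 : ∀ x : (Fin r → ℤ) × Ol r, ((posO 0 (pad w)).map (fun y =>
      Lf D β (∑ κ, w03_F H Th L x.1 x.2 κ * w03_F H Th L y.1 y.2 κ))).sum =
      ((posl 0 w).map (fun y => Lf D β (∑ κ, w03_F H Th L x.1 x.2 κ *
        w03_F H Th L y.1 (some y.2) κ))).sum := by
    intro x
    exact posO_pad (fun y => Lf D β (∑ κ, w03_F H Th L x.1 x.2 κ *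
        w03_F H Th L y.1 y.2 κ)) (fun v => by simp [w03_F]) w
  have h3 : (posO 0 (pad w)).map (fun x => ((posO 0 (pad w)).map (fun y =>
      Lf D β (∑ κ, w03_F H Th L x.1 x.2 κ * w03_F H Th L y.1 y.2 κ))).sum) =
      (posO 0 (pad w)).map (fun x => ((posl 0 w).map (fun y =>
      Lf D β (∑ κ, w03_F H Th L x.1 x.2 κ * w03_F H Th L y.1 (some y.2) κ))).sum) :=
    List.map_congr_left (fun x _ => h2 x)
  rw [h3]
  have h4 := posO_pad (fun x => ((posl 0 w).map (fun y =>
      Lf D β (∑ κ, w03_F H Th L x.1 x.2 κ * w03_F H Th L y.1 (some y.2) κ))).sum)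
    (fun v => by simp [w03_F]) w
  rw [h4]
  rfl

private theorem w03_val {r K : ℕ} (H : Hol r)
    (Th : Letter r → (Fin r → Fin K) → Matrix (Fin H.d) (Fin H.d) (SP H.t)) (D : ℕ)
    (β : Fin H.t → Fin D) (M : BM (In r))
    (c : Letter r → Letter r → Fin M.N1 → Fin M.N2 → ℤ)
    (hc : ∀ u l l', M.out (c l l') (M.run u) =
        Lf D β (∑ κ, (thv (Th l) (vpos (u.map Prod.fst))).mulVec
          (H.Psi (2 * u.length) (vpos (u.map Prod.fst))) κ *
          (thv (Th l') (vpos (u.map Prod.snd))).mulVec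
            (H.Psi (2 * u.length) (vpos (u.map Prod.snd))) κ)) (w : List (Letter r)) (L : ℕ)
    (hL : ([] : List (In r)).length + 2 ^ lg w.length - 1 = L) :
    val M (w03_c c) (lg w.length) (pad w) (pad w) (M.p0, M.m0) =
      ∑ κ, Lf D β (((posl 0 w).map (fun x =>
        (thv (Th x.2) x.1).mulVec (H.Psi (2 * L) x.1))).sum κ *
        ((posl 0 w).map (fun x => (thv (Th x.2) x.1).mulVec (H.Psi (2 * L) x.1))).sum κ) := by
  have hG : ∀ u o o', M.out (w03_c c o o') (M.run u) =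
      (fun (L : ℕ) (v v' : Fin r → ℤ) (o o' : Ol r) =>
        Lf D β (∑ κ, w03_F H Th L v o κ * w03_F H Th L v' o' κ)) u.length
        (vpos (u.map Prod.fst)) (vpos (u.map Prod.snd)) o o' := by
    intro u o o'
    rcases o with _ | l
    · simp [w03_c, w03_F, BM.out]
    · rcases o' with _ | l'
      · simp [w03_c, w03_F, BM.out]
      · exact hc u l l'
  have h1 := val_sum M (w03_c c) (fun (L : ℕ) (v v' : Fin r → ℤ) (o o' : Ol r) =>
        Lf D β (∑ κ, w03_F H Th L v o κ * w03_F H Th L v' o' κ)) hG (lg w.length) (pad w) (pad w)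
        (pad_length w) (pad_length w) []
  have hv : vpos (([] : List (In r)).map Prod.fst) = 0 := by simp [vpos]
  have hv' : vpos (([] : List (In r)).map Prod.snd) = 0 := by simp [vpos]
  rw [hv, hv', hL] at h1
  exact h1.trans (w03_sq H Th D β w L)

private theorem w03_len (n : ℕ) : n ≤ 2 ^ lg n - 1 := by
  have h := Nat.lt_pow_succ_log_self (b := 2) (by norm_num) (n + 1)
  unfold lg
  have h2 : n + 1 < 2 ^ (Nat.log 2 (n + 1) + 1) := h
  omega

theorem exists_BMQ {r K : ℕ} (H : Hol r)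
    (Th : Letter r → (Fin r → Fin K) → Matrix (Fin H.d) (Fin H.d) (SP H.t)) :
    ∃ (M : BM (In r)) (J : ℕ) (c : Fin J → Ol r → Ol r → Fin M.N1 → Fin M.N2 → ℤ), M.Tame ∧
      ∀ w : List (Letter r), hsum H Th w = 0 ↔
        ∀ j, val M (c j) (lg w.length) (pad w) (pad w) (M.p0, M.m0) = 0 := by
  classical
  obtain ⟨D, hD, m, hm⟩ := exists_rec H
  obtain ⟨D0, hD0⟩ := w03_bound H Th
  obtain ⟨M, e, hT, he, hq⟩ := exists_machine H (max K 2) (le_max_right _ _) D (max m D0)
    (fun β o o' q h => hm (max m D0) (le_max_left _ _) β o o' q h)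
  have hout := fun β : Fin H.t → Fin D => exists_out (le_max_left K 2) H D (max m D0) M e he β
    (hq β) Th (fun l l' γ γ' κ κ' => (hD0 l l' γ γ' κ κ').trans (le_max_right _ _))
  choose c hc using hout
  refine ⟨M, Fintype.card (Fin H.t → Fin D),
    fun j => w03_c (c ((Fintype.equivFin _).symm j)), hT, fun w => ?_⟩
  obtain ⟨L, hL⟩ : ∃ L, ([] : List (In r)).length + 2 ^ lg w.length - 1 = L := ⟨_, rfl⟩
  have hwL : w.length ≤ L := by
    rw [← hL, List.length_nil, zero_add]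
    exact w03_len w.length
  rw [← hsum_level H Th w L hwL]
  constructor
  · intro h j
    rw [w03_val H Th D _ M _ (hc _) w L hL, h]
    simp
  · intro h
    have h1 : ∀ β : Fin H.t → Fin D, ∑ κ, Lf D β (((posl 0 w).map (fun x =>
        (thv (Th x.2) x.1).mulVec (H.Psi (2 * L) x.1))).sum κ *
        ((posl 0 w).map (fun x =>
        (thv (Th x.2) x.1).mulVec (H.Psi (2 * L) x.1))).sum κ) = 0 := by
      intro β
      rw [← w03_val H Th D β M (c β) (hc β) w L hL]
      have h2 := h (Fintype.equivFin _ β)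
      simp only [Equiv.symm_apply_apply] at h2
      exact h2
    funext κ
    exact Lf_pos D hD _ h1 κ

end Pool.Agent.WPQ
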