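import Pool.Agent.Lib.MP_2da099_lc.QT.Defs
import Pool.Agent.Lib.MP_2da099_lc.UE.Q3a

/-!
# W04a: bounds of the parameters

HINTS.  `size_par`: `run_bound`, `size_run` of `UE.Q3a` (`lg_mono`).  `size_zl`: `size_zblist_le 2` (`R2.N01`), the list has the length
`n`.  `run_go`: `BM.run`, `List.foldl_append`, the first component of `M.step` depends only on the parameters.
`size_eT`: the trace has `2 ^ s` items `(i, zl p)`, `p = (M.run (u ++ prefix)).1` for a prefix of `u'` shorter than `N`: every member of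
`ptr M (M.run u).1 u'` is `(i, (M.run v).1)` with `v.length ≤ N` (induction on `u'`, generalizing `u`); `size_list_le_of`, `size_prod`,
`size_fin`.  `size_eJ`: `size_list_fin`, `size_par`.  `lg N ≥ 1`.
-/

set_option autoImplicit false

namespace Pool.Agent.WPQ

open Pool.Agent.Lib.PolyTime Pool.Agent.WPM Pool.Agent.WPR Pool.Agent.WPU

theorem one_le_lg (n : ℕ) : 1 ≤ lg n := Nat.succ_le_succ (Nat.zero_le _)

private theorem w04a_pnd {ι : Type} (M : BM ι) (u' : List ι) :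
    ∀ x : (Fin M.N1 → ℤ) × (Fin M.N2 → ℤ), pnd M x.1 u' = (u'.foldl M.step x).1 := by
  induction u' with
  | nil => intro x; rfl
  | cons i u' ih =>
    intro x
    have h := ih (M.step x i)
    rw [List.foldl_cons, ← h]
    rfl

theorem run_go {ι : Type} (M : BM ι) (u u' : List ι) : pnd M (M.run u).1 u' = (M.run (u ++ u')).1 := by
  rw [w04a_pnd M u' (M.run u)]
  unfold BM.run
  rw [List.foldl_append]

theorem size_par {r : ℕ} (M : BM (In r)) (hM : M.Tame) : ∃ C : ℕ, ∀ (N : ℕ) (u : List (In r)),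
    u.length ≤ N → size (zl (M.run u).1) ≤ C * lg N ∧
      ∀ a, ((M.run u).1 a).natAbs ≤ 2 ^ (C * lg N) := by
  obtain ⟨C, hC⟩ := run_bound M hM
  obtain ⟨D, hD⟩ := size_run M hM
  refine ⟨C + D, fun N u hu => ⟨(hD u).1.trans ?_, fun a => ((hC u).1 a).trans ?_⟩⟩
  · exact Nat.mul_le_mul (Nat.le_add_left _ _) (lg_mono hu)
  · exact Nat.pow_le_pow_right Nat.two_pos (Nat.mul_le_mul (Nat.le_add_right _ _) (lg_mono hu))

theorem size_zl (n : ℕ) : ∃ C : ℕ, ∀ (R : Fin n → ℤ) (k : ℕ), (∀ j, (R j).natAbs ≤ 2 ^ k) →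
    size (zl R) ≤ C * (k + 1) := by
  obtain ⟨D, hD⟩ := size_zblist_le 2
  have hl : ∀ {N : ℕ} (x : Fin N → ℤ), (zl x).length = N := fun x => by simp [zl]
  refine ⟨D * (n + 1), fun R k hR => ?_⟩
  have h1 := hD (zl R) k (by
    intro x hx
    obtain ⟨a, rfl⟩ := (z01_mem R x).1 hx
    exact hR a)
  rw [hl] at h1
  exact h1

theorem mem_ptr {r : ℕ} (M : BM (In r)) (N : ℕ) (u u' : List (In r))
    (h : u.length + u'.length ≤ N) (x : In r × (Fin M.N1 → ℤ))
    (hx : x ∈ ptr M (M.run u).1 u') : ∃ v : List (In r), v.length ≤ N ∧ x.2 = (M.run v).1 := by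
  induction u' generalizing u with
  | nil => exact absurd hx (List.not_mem_nil)
  | cons i u' ih =>
    rw [ptr, List.mem_cons] at hx
    rcases hx with rfl | hx
    · exact ⟨u, by omega, rfl⟩
    · have e : (M.A i).mulVec (M.run u).1 = (M.run (u ++ [i])).1 := by
        rw [run_append]; rfl
      rw [e] at hx
      refine ih (u ++ [i]) ?_ hx
      simp only [List.length_append, List.length_cons, List.length_nil] at h ⊢
      omega

private theorem w04a_len {ι : Type} (M : BM ι) (u : List ι) :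
    ∀ p, (ptr M p u).length = u.length := by
  induction u with
  | nil => intro p; rfl
  | cons i u ih => intro p; rw [ptr, List.length_cons, List.length_cons, ih]

theorem size_eT {r : ℕ} (M : BM (In r)) (hM : M.Tame) : ∃ C : ℕ, ∀ (N s : ℕ) (t : Tr M),
    Vt M N s t → size (eT M t) ≤ C * 2 ^ s * lg N := by
  obtain ⟨C, hC⟩ := size_par M hM
  obtain ⟨κ, hκ⟩ := size_fin (In r)
  refine ⟨2 * (κ + C + 2), fun N s t ht => ?_⟩
  obtain ⟨u, u', hu, hu', rfl⟩ := ht
  have hN := one_le_lg N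
  have h1 : ∀ y ∈ eT M (ptr M (M.run u).1 u'), size y ≤ (κ + C + 1) * lg N := by
    intro y hy
    obtain ⟨x, hx, rfl⟩ := List.mem_map.1 hy
    obtain ⟨v, hv, hv'⟩ := mem_ptr M N u u' hu x hx
    rw [size_prod]
    have h2 := (hC N v hv).1
    have h3 := hκ x.1
    rw [← hv'] at h2
    have h4 : κ ≤ κ * lg N := Nat.le_mul_of_pos_right _ hN
    have e : (κ + C + 1) * lg N = κ * lg N + C * lg N + lg N := by ring
    rw [e]
    exact Nat.add_le_add (Nat.add_le_add (h3.trans h4) h2) hN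
  have h2 := size_list_le_of _ _ h1
  have h3 : (eT M (ptr M (M.run u).1 u')).length = 2 ^ s := by
    rw [eT, List.length_map, w04a_len, hu']
  rw [h3] at h2
  refine h2.trans ?_
  have h4 : 1 ≤ 2 ^ s := Nat.one_le_two_pow
  have h5 : (κ + C + 1) * lg N + 1 ≤ (κ + C + 2) * lg N := by
    have e : (κ + C + 2) * lg N = (κ + C + 1) * lg N + lg N := by ring
    rw [e]; exact Nat.add_le_add_left hN _
  have h6 : 2 ^ s + 1 ≤ 2 * 2 ^ s := by omega
  refine (Nat.mul_le_mul h5 h6).trans (le_of_eq ?_)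
  ring

theorem size_eJ {r : ℕ} (M : BM (In r)) (hM : M.Tame) : ∃ C : ℕ, ∀ (N s : ℕ) (j : Jb M),
    Vj M N s j → size (eJ M j) ≤ C * 2 ^ s * lg N := by
  obtain ⟨C, hC⟩ := size_par M hM
  obtain ⟨κ, hκ⟩ := size_list_fin (Ol r)
  refine ⟨C + 4 * κ + 2, fun N s j hj => ?_⟩
  obtain ⟨u, hu, h1, h2, h3⟩ := hj
  have hN := one_le_lg N
  have hs : 1 ≤ 2 ^ s := Nat.one_le_two_pow
  have h4 := (hC N u (by omega)).1
  have h5 := hκ j.2.1
  have h6 := hκ j.2.2
  rw [h2] at h5
  rw [h3] at h6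
  rw [← h1] at h4
  have e : size (eJ M j) = size (zl j.1) + (size j.2.1 + size j.2.2 + 1) + 1 := by
    unfold eJ
    rw [size_prod, size_prod]
  rw [e]
  have h7 : κ * (2 ^ s + 1) ≤ 2 * κ * (2 ^ s * lg N) := by
    have a1 : 2 ^ s + 1 ≤ 2 * (2 ^ s * lg N) := by
      have a2 : 2 ^ s ≤ 2 ^ s * lg N := Nat.le_mul_of_pos_right _ hN
      omega
    refine (Nat.mul_le_mul_left κ a1).trans (le_of_eq ?_)
    ring
  have h8 : C * lg N ≤ C * (2 ^ s * lg N) :=
    Nat.mul_le_mul_left _ (Nat.le_mul_of_pos_left _ hs)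
  have h9 : 1 ≤ 2 ^ s * lg N := Nat.mul_pos hs hN
  have e2 : (C + 4 * κ + 2) * 2 ^ s * lg N =
      C * (2 ^ s * lg N) + (2 * κ * (2 ^ s * lg N) + 2 * κ * (2 ^ s * lg N)) +
        2 * (2 ^ s * lg N) := by ring
  rw [e2]
  set X := 2 ^ s * lg N
  omega

end Pool.Agent.WPQ
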