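import Pool.Agent.Lib.MP_2da099_lc.QT.Defs
import Pool.Agent.Lib.MP_2da099_lc.QT.W04a

/-!
# W08a: the children of a valid job are valid

HINTS.  `j.1 = (M.run u).1`, `u.length + 2 ^ (s + 1) ≤ N`, both words have the length `2 ^ (s + 1)`; the path `pth b b' (2 ^ s) ..` has the
length `2 ^ s` (zip of two lists of length `2 ^ s`), so `pnd M j.1 (pth ..) = (M.run (u ++ pth ..)).1` (`run_go`), the halves have the
length `2 ^ s`.  `b4` has four members.
-/

set_option autoImplicit false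

namespace Pool.Agent.WPQ

open Pool.Agent.Lib.PolyTime Pool.Agent.WPM Pool.Agent.WPR Pool.Agent.WPU

theorem length_pth {r : ℕ} (b b' : Bool) (h : ℕ) (U V : List (Ol r)) (hU : h ≤ U.length)
    (hV : h ≤ V.length) : (pth b b' h U V).length = h := by
  unfold pth
  cases b <;> cases b' <;> simp [hU, hV]

theorem split_length {r : ℕ} (M : BM (In r)) (h : ℕ) (j : Jb M) : (splitJ M h j).length = 4 := rfl

private theorem w08a_fold {ι : Type} (M : BM ι) (l : List ι) :
    ∀ x : (Fin M.N1 → ℤ) × (Fin M.N2 → ℤ), (l.foldl M.step x).1 = pnd M x.1 l := by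
  induction l with
  | nil => intro x; rfl
  | cons i l ih =>
    intro x
    rw [List.foldl_cons, ih]
    rfl

private theorem w08a_run {ι : Type} (M : BM ι) (u l : List ι) :
    pnd M (M.run u).1 l = (M.run (u ++ l)).1 := by
  unfold BM.run
  rw [List.foldl_append, w08a_fold M l]

private theorem w08a_hf {α : Type} (b : Bool) (s : ℕ) (U : List α) (hU : U.length = 2 ^ (s + 1)) :
    (hf b (2 ^ s) U).length = 2 ^ s := by
  have h1 : 2 ^ (s + 1) = 2 ^ s + 2 ^ s := by rw [pow_succ, mul_two]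
  unfold hf
  cases b
  · rw [if_neg (by simp), List.length_take, hU]
    omega
  · rw [if_pos rfl, List.length_drop, hU]
    omega

theorem split_valid {r : ℕ} (M : BM (In r)) (N s : ℕ) (j : Jb M) (hj : Vj M N (s + 1) j) :
    ∀ x ∈ splitJ M (2 ^ s) j, Vt M N s x.1 ∧ Vj M N s x.2 := by
  obtain ⟨u, hu, hj1, hU, hV⟩ := hj
  have h1 : 2 ^ (s + 1) = 2 ^ s + 2 ^ s := by rw [pow_succ, mul_two]
  intro x hx
  obtain ⟨b, -, rfl⟩ := List.mem_map.1 hx
  have hl : (pth b.1 b.2 (2 ^ s) j.2.1 j.2.2).length = 2 ^ s :=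
    length_pth _ _ _ _ _ (by omega) (by omega)
  refine ⟨⟨u, pth b.1 b.2 (2 ^ s) j.2.1 j.2.2, by omega, hl, by rw [hj1]⟩,
    ⟨u ++ pth b.1 b.2 (2 ^ s) j.2.1 j.2.2, ?_, ?_, w08a_hf _ _ _ hU, w08a_hf _ _ _ hV⟩⟩
  · rw [List.length_append, hl]
    omega
  · show pnd M j.1 _ = _
    rw [hj1, w08a_run]

end Pool.Agent.WPQ
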