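import Pool.Agent.Lib.MP_2da099_lc.QT.Defs
import Pool.Agent.Lib.MP_2da099_lc.QT.W08a

/-!
# W09a: down and up

HINTS.  `dstep_fold`: a fold of `dstep` with a start stack `st` is the fold with the empty stack followed by `++ st` in the second
component (induction on the list of half lengths).  `dn_succ`: `hs (s + 1) = 2 ^ s :: hs s`, `dstep_fold`.  `dn_valid`: induction on `s` with
`dn_succ`; `split_valid`, `split_length`, `List.length_flatMap`.  `up_dn`: induction on `s`, generalizing `J`:
`up M (ts ++ [t]) X = ustep M (up M ts X) t`; by induction `up M (dn M s J').2 ((dn M s J').1.map (bas M c)) = J'.map (rj M c s)` for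
`J' = (J.flatMap (splitJ M (2 ^ s))).map Prod.snd`; `ustep M (J'.map (rj M c s)) ((J.flatMap ..).map Prod.fst)` is `sum4` of the list of
all `rbk M x.1 (rj M c s x.2)`, `x ∈ J.flatMap (splitJ ..)`, in groups of four (induction on `J`), and the sum of the group of `j` is
`rj M c (s + 1) j` by the definition of `rval` (the sum of a list of four is `a + (b + (c + (d + 0)))`).
-/

set_option autoImplicit false

namespace Pool.Agent.WPQ

open Pool.Agent.Lib.PolyTime Pool.Agent.WPM Pool.Agent.WPR Pool.Agent.WPU

theorem dstep_fold {r : ℕ} (M : BM (In r)) (l : List ℕ) (J : List (Jb M))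
    (st : List (List (Tr M))) : l.foldl (dstep M) (J, st) =
      ((l.foldl (dstep M) (J, [])).1, (l.foldl (dstep M) (J, [])).2 ++ st) := by
  induction l generalizing J st with
  | nil => rfl
  | cons h l ih =>
    rw [List.foldl_cons, List.foldl_cons]
    have e1 : dstep M (J, st) h = ((J.flatMap (splitJ M h)).map Prod.snd,
        (J.flatMap (splitJ M h)).map Prod.fst :: st) := rfl
    have e2 : dstep M (J, []) h = ((J.flatMap (splitJ M h)).map Prod.snd,
        [(J.flatMap (splitJ M h)).map Prod.fst]) := rfl
    rw [e1, e2, ih ((J.flatMap (splitJ M h)).map Prod.snd)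
      ((J.flatMap (splitJ M h)).map Prod.fst :: st),
      ih ((J.flatMap (splitJ M h)).map Prod.snd) [(J.flatMap (splitJ M h)).map Prod.fst]]
    simp only [List.append_assoc, List.singleton_append]

theorem dn_succ {r : ℕ} (M : BM (In r)) (s : ℕ) (J : List (Jb M)) :
    dn M (s + 1) J = ((dn M s ((J.flatMap (splitJ M (2 ^ s))).map Prod.snd)).1,
      (dn M s ((J.flatMap (splitJ M (2 ^ s))).map Prod.snd)).2 ++
        [(J.flatMap (splitJ M (2 ^ s))).map Prod.fst]) := by
  change (hs s).foldl (dstep M) (dstep M (J, []) (2 ^ s)) = _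
  have e2 : dstep M (J, []) (2 ^ s) = ((J.flatMap (splitJ M (2 ^ s))).map Prod.snd,
      [(J.flatMap (splitJ M (2 ^ s))).map Prod.fst]) := rfl
  rw [e2, dstep_fold]
  rfl

private theorem w09a_len {r : ℕ} (M : BM (In r)) (h : ℕ) (J : List (Jb M)) :
    (J.flatMap (splitJ M h)).length = J.length * 4 := by
  induction J with
  | nil => rfl
  | cons j J ih =>
    rw [List.flatMap_cons, List.length_append, ih, split_length, List.length_cons]
    omega

theorem dn_valid {r : ℕ} (M : BM (In r)) (N s : ℕ) (J : List (Jb M)) (hJ : ∀ j ∈ J, Vj M N s j) :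
    (∀ j ∈ (dn M s J).1, Vj M N 0 j) ∧ (dn M s J).1.length = J.length * 4 ^ s ∧
    (dn M s J).2.length = s ∧
    ∀ (i : ℕ) (ts : List (Tr M)), (dn M s J).2[i]? = some ts →
      i < s ∧ ts.length = J.length * 4 ^ (s - i) ∧ ∀ t ∈ ts, Vt M N i t := by
  induction s generalizing J with
  | zero =>
    refine ⟨hJ, ?_, rfl, ?_⟩
    · rw [pow_zero, mul_one]
      rfl
    · intro i ts h
      have h' : ([] : List (List (Tr M)))[i]? = some ts := h
      simp at h'
  | succ s ih =>
    have hv : ∀ x ∈ J.flatMap (splitJ M (2 ^ s)), Vt M N s x.1 ∧ Vj M N s x.2 := by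
      intro x hx
      obtain ⟨j, hj, hxj⟩ := List.mem_flatMap.1 hx
      exact split_valid M N s j (hJ j hj) x hxj
    have hJ' : ∀ j ∈ (J.flatMap (splitJ M (2 ^ s))).map Prod.snd, Vj M N s j := by
      intro j hj
      obtain ⟨x, hx, rfl⟩ := List.mem_map.1 hj
      exact (hv x hx).2
    obtain ⟨h1, h2, h3, h4⟩ := ih _ hJ'
    rw [List.length_map, w09a_len] at h2
    rw [dn_succ]
    refine ⟨h1, ?_, ?_, ?_⟩
    · change (dn M s _).1.length = _
      rw [h2, pow_succ]
      ring
    · rw [List.length_append, h3, List.length_singleton]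
    · intro i ts hts
      change ((dn M s ((J.flatMap (splitJ M (2 ^ s))).map Prod.snd)).2 ++
        [(J.flatMap (splitJ M (2 ^ s))).map Prod.fst])[i]? = some ts at hts
      by_cases hi : i < s
      · rw [List.getElem?_append_left (by rw [h3]; exact hi)] at hts
        obtain ⟨-, h5, h6⟩ := h4 i ts hts
        refine ⟨by omega, ?_, h6⟩
        rw [h5, List.length_map, w09a_len]
        have e : s + 1 - i = (s - i) + 1 := by omega
        rw [e, pow_succ]
        ring
      · rw [List.getElem?_append_right (by rw [h3]; omega), h3] at hts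
        have hi2 : i = s := by
          by_contra hne
          have : i - s ≠ 0 := by omega
          obtain ⟨k, hk⟩ := Nat.exists_eq_succ_of_ne_zero this
          rw [hk] at hts
          simp at hts
        subst hi2
        rw [Nat.sub_self] at hts
        have hts' : (J.flatMap (splitJ M (2 ^ i))).map Prod.fst = ts := by
          simpa using hts
        refine ⟨by omega, ?_, ?_⟩
        · rw [← hts', List.length_map, w09a_len]
          have e : i + 1 - i = 1 := by omega
          rw [e, pow_one]
        · intro t ht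
          rw [← hts'] at ht
          obtain ⟨x, hx, rfl⟩ := List.mem_map.1 ht
          exact (hv x hx).1

private theorem w09a_zip {α β γ : Type} (F : α → β → γ) {δ : Type} (f : δ → α) (g : δ → β)
    (L : List δ) : List.zipWith F (L.map f) (L.map g) = L.map (fun x => F (f x) (g x)) := by
  induction L with
  | nil => rfl
  | cons a L ih => rw [List.map_cons, List.map_cons, List.zipWith_cons_cons, ih, List.map_cons]

private theorem w09a_sum {r : ℕ} (M : BM (In r)) (c : Ol r → Ol r → Fin M.N1 → Fin M.N2 → ℤ)
    (s : ℕ) (J : List (Jb M)) :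
    sum4 ((J.flatMap (splitJ M (2 ^ s))).map (fun x => rbk M x.1 (rj M c s x.2))) =
      J.map (rj M c (s + 1)) := by
  induction J with
  | nil => rfl
  | cons j J ih =>
    rw [List.flatMap_cons, List.map_append, List.map_cons, ← ih]
    have e : (splitJ M (2 ^ s) j).map (fun x => rbk M x.1 (rj M c s x.2)) =
        b4.map (fun b => rbk M (ptr M j.1 (pth b.1 b.2 (2 ^ s) j.2.1 j.2.2))
          (rval M c s (hf b.1 (2 ^ s) j.2.1) (hf b.2 (2 ^ s) j.2.2)
            (pnd M j.1 (pth b.1 b.2 (2 ^ s) j.2.1 j.2.2)))) := rfl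
    rw [e]
    have e2 : rj M c (s + 1) j =
        (b4.map (fun b => rbk M (ptr M j.1 (pth b.1 b.2 (2 ^ s) j.2.1 j.2.2))
          (rval M c s (hf b.1 (2 ^ s) j.2.1) (hf b.2 (2 ^ s) j.2.2)
            (pnd M j.1 (pth b.1 b.2 (2 ^ s) j.2.1 j.2.2))))).sum := rfl
    rw [e2]
    simp only [b4, List.map_cons, List.map_nil, List.cons_append, List.nil_append, sum4,
      List.sum_cons, List.sum_nil, add_zero]

theorem up_dn {r : ℕ} (M : BM (In r)) (c : Ol r → Ol r → Fin M.N1 → Fin M.N2 → ℤ) (s : ℕ)
    (J : List (Jb M)) :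
    up M (dn M s J).2 ((dn M s J).1.map (bas M c)) = J.map (rj M c s) := by
  induction s generalizing J with
  | zero => rfl
  | succ s ih =>
    rw [dn_succ]
    change ((dn M s ((J.flatMap (splitJ M (2 ^ s))).map Prod.snd)).2 ++
      [(J.flatMap (splitJ M (2 ^ s))).map Prod.fst]).foldl (ustep M)
        ((dn M s ((J.flatMap (splitJ M (2 ^ s))).map Prod.snd)).1.map (bas M c)) = _
    rw [List.foldl_append]
    have h1 := ih ((J.flatMap (splitJ M (2 ^ s))).map Prod.snd)
    unfold up at h1
    rw [h1]
    change ustep M (((J.flatMap (splitJ M (2 ^ s))).map Prod.snd).map (rj M c s))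
      ((J.flatMap (splitJ M (2 ^ s))).map Prod.fst) = _
    unfold ustep
    rw [List.map_map, w09a_zip]
    exact w09a_sum M c s J

end Pool.Agent.WPQ
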