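import Pool.Agent.Lib.MP_2da099_lc.QT.Defs
import Pool.Agent.Lib.MP_2da099_lc.UE.Q2
import Pool.Agent.Lib.MP_2da099_lc.R2.P08
import Pool.Agent.Lib.MP_2da099_lc.R2.N05
import Pool.Agent.Lib.MP_2da099_lc.R2.Z01

/-!
# W05: the transposed step

HINTS.  `ct_erst`: `ct_bstep` of `UE.Q2` for the machine `M` with the matrices `B` replaced by their transposes: the second
component of its step is `rst M i p R`; `CT.snd`, `ct_fincase` over `In r` (the functions `f i` chosen with `Classical.choice`), rearrangement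
of `((i, p), R)` to `(i, (p, R))` (`CT.assocR`).  `ct_epar`: `ct_linMap 2 (z01_rows (M.A i))`, `z01_linMap` (`zl` is `z01_l` by `rfl`),
`ct_fincase`.  `ct_ebas`: for fixed letters the row `brow (c l l') p` is `linMap` of the rows `(c l l' a j)_a`, `j < N2` (as `z01_linMap`, for a
rectangular matrix), `ct_fincase`.
-/

set_option autoImplicit false

namespace Pool.Agent.WPQ

open Pool.Agent.Lib.PolyTime Pool.Agent.WPM Pool.Agent.WPR Pool.Agent.WPU

/-- the machine with the transposed matrices -/
private def w05_M {ι : Type} (M : BM ι) : BM ι where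
  N1 := M.N1
  N2 := M.N2
  A := M.A
  B := fun i a => (M.B i a).transpose
  p0 := M.p0
  m0 := M.m0

theorem ct_erst {r : ℕ} (M : BM (In r)) : ∃ f : (In r × List (ZB 2)) × List (ZB 2) → List (ZB 2),
    CT f (fun x => (size x.1.2 + 1) * (size x.1.2 + size x.2 + 1)) ∧
      ∀ i p R, f ((i, zl p), zl R) = zl (rst M i p R) := by
  choose f hf hv using fun i : In r => ct_bstep (w05_M M) i
  have h1 : CT (fun x : In r × (List (ZB 2) × List (ZB 2)) => f x.1 x.2) _ :=
    ct_fincase (T := fun _ x => (size x.1 + 1) * (size x.1 + size x.2 + 1)) hf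
  have h2 : CT (fun x : (In r × List (ZB 2)) × List (ZB 2) => (x.1.1, (x.1.2, x.2))) _ := CT.assocR
  have h3 := h1.comp h2
  obtain ⟨κ, hκ⟩ := size_fin (In r)
  obtain ⟨C, hC⟩ := h1.size_le
  have h4 := (CT.snd (α := List (ZB 2)) (β := List (ZB 2))).comp h3
  refine ⟨_, h4.mono (C + 2 * κ + 4) (fun x => ?_), ?_⟩
  · obtain ⟨⟨i, p⟩, R⟩ := x
    have e1 := hκ i
    have e2 := hC (i, (p, R))
    have e3 : size (f i (p, R)).1 ≤ size (f i (p, R)) := by
      rw [size_prod (f i (p, R))]
      omega
    show size i + (size p + 1) * (size p + size R + 1) + size (f i (p, R)).1 ≤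
      (C + 2 * κ + 4) * ((size p + 1) * (size p + size R + 1) + 1)
    have e4 : size (i, (p, R)) ≤ size i + size p + size R + 4 := by
      have g1 := size_prod (i, (p, R))
      have g2 := size_prod (p, R)
      simp only at g1 g2
      omega
    have e2' : size (f i (p, R)) ≤ size (i, (p, R)) +
      C * ((size p + 1) * (size p + size R + 1) + 1) := e2
    have e5 : (size p + 1) * (size p + size R + 1) =
      size p * size p + size p * size R + 2 * size p + size R + 1 := by ring
    set X := (size p + 1) * (size p + size R + 1) with hX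
    have e6 : size p + size R + 1 ≤ X := by rw [e5]; omega
    have e7 : (C + 2 * κ + 4) * (X + 1) = C * (X + 1) + 2 * κ * X + 2 * κ + 4 * X + 4 := by ring
    have e8 : 0 ≤ 2 * κ * X := Nat.zero_le _
    rw [e7]
    omega
  · intro i p R
    have e : f i (zl p, zl R) = (zl ((w05_M M).step (p, R) i).1, zl ((w05_M M).step (p, R) i).2) :=
      hv i p R
    show (f i (zl p, zl R)).2 = _
    exact (congrArg Prod.snd e).trans rfl

theorem ct_epar {r : ℕ} (M : BM (In r)) : ∃ f : In r × List (ZB 2) → List (ZB 2),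
    CT f (fun x => size x.2) ∧ ∀ (i : In r) (p : Fin M.N1 → ℤ), f (i, zl p) = zl ((M.A i).mulVec p) := by
  refine ⟨_, ct_fincase (f := fun (i : In r) (p : List (ZB 2)) => linMap (z01_rows (M.A i)) p)
    (T := fun _ p => size p) (fun i => ct_linMap 2 (z01_rows (M.A i))), ?_⟩
  intro i p
  exact z01_linMap (M.A i) p

/-- the rows of a rectangular matrix -/
private def w05_rows {N1 N2 : ℕ} (c : Fin N1 → Fin N2 → ℤ) : List (List ℤ) :=
  List.ofFn (fun j => List.ofFn (fun a => c a j))

private theorem w05_linMap {N1 N2 : ℕ} (c : Fin N1 → Fin N2 → ℤ) (p : Fin N1 → ℤ) :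
    linMap (w05_rows c) (zl p) = zl (brow c p) := by
  unfold linMap w05_rows zl
  rw [List.map_ofFn]
  congr 1
  funext j
  simp only [Function.comp]
  rw [z01_zipWith, List.sum_ofFn]
  rfl

theorem ct_ebas {r N1 N2 : ℕ} (c : Ol r → Ol r → Fin N1 → Fin N2 → ℤ) :
    ∃ f : In r × List (ZB 2) → List (ZB 2), CT f (fun x => size x.2) ∧
      ∀ (l l' : Ol r) (p : Fin N1 → ℤ), f ((l, l'), zl p) = zl (brow (c l l') p) := by
  refine ⟨_, ct_fincase (f := fun (i : In r) (p : List (ZB 2)) => linMap (w05_rows (c i.1 i.2)) p)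
    (T := fun _ p => size p) (fun i => ct_linMap 2 (w05_rows (c i.1 i.2))), ?_⟩
  intro l l' p
  exact w05_linMap (c l l') p

end Pool.Agent.WPQ
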