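import Pool.Agent.Lib.MP_2da099_lc.QT.Defs
import Pool.Agent.Lib.MP_2da099_lc.QT.W04a
import Pool.Agent.Lib.MP_2da099_lc.QT.W05
import Pool.Agent.Lib.MP_2da099_lc.R2.P06
import Pool.Agent.Lib.MP_2da099_lc.R2.N03

/-!
# W06: traces

HINTS.  `ct_scan` (`R2.P06`) for `f0 (p, i) = (A i p, (i, p))` (`ct_epar`, pairs): `scan f0 (zl p) u = (zl (pnd M p u), eT M (ptr M p u))`
(induction on `u`; the time function of `f0` is at most `C (size p + 1)`, the letters have bounded size).  Time: induction on
`u'`, generalizing `u`: all parameters on the way are `(M.run v).1` with `v.length ≤ N`, of size at most `C lg N` (`size_par`), so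
`scanCost` is at most `C' (u'.length + 1) lg N`.  The size of the input list is at most `C (u'.length + 1)` (`size_list_fin`).
-/

set_option autoImplicit false

namespace Pool.Agent.WPQ

open Pool.Agent.Lib.PolyTime Pool.Agent.WPM Pool.Agent.WPR Pool.Agent.WPU

/-- The step of the scan. -/
def W06_f {r : ℕ} (fe : In r × List (ZB 2) → List (ZB 2)) (x : List (ZB 2) × In r) :
    List (ZB 2) × (In r × List (ZB 2)) := (fe (x.2, x.1), (x.2, x.1))

theorem W06_ct {r : ℕ} (fe : In r × List (ZB 2) → List (ZB 2))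
    (h : CT fe (fun x => size x.2)) : CT (W06_f fe) (fun x => size x) := by
  have h1 : n03_LT fe := n03_of 1 h (fun x => by rw [size_prod]; omega)
  have h2 : n03_LT (fun x : List (ZB 2) × In r => (x.2, x.1)) := n03_pair n03_snd n03_fst
  exact n03_pair (n03_comp h1 h2) h2

theorem W06_scan {r : ℕ} (M : BM (In r)) (fe : In r × List (ZB 2) → List (ZB 2))
    (hfe : ∀ (i : In r) (p : Fin M.N1 → ℤ), fe (i, zl p) = zl ((M.A i).mulVec p)) (u : List (In r)) :
    ∀ p : Fin M.N1 → ℤ, scan (W06_f fe) (zl p) u = (zl (pnd M p u), eT M (ptr M p u)) := by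
  induction u with
  | nil => intro p; rfl
  | cons a u ih =>
    intro p
    have h1 : W06_f fe (zl p, a) = (zl ((M.A a).mulVec p), (a, zl p)) := by
      unfold W06_f
      rw [hfe]
    have h2 := ih ((M.A a).mulVec p)
    show ((scan (W06_f fe) (W06_f fe (zl p, a)).1 u).1,
      (W06_f fe (zl p, a)).2 :: (scan (W06_f fe) (W06_f fe (zl p, a)).1 u).2) = _
    rw [h1]
    show ((scan (W06_f fe) (zl ((M.A a).mulVec p)) u).1,
      (a, zl p) :: (scan (W06_f fe) (zl ((M.A a).mulVec p)) u).2) = _
    rw [h2]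
    rfl

theorem W06_cost {r : ℕ} (M : BM (In r)) (fe : In r × List (ZB 2) → List (ZB 2))
    (hfe : ∀ (i : In r) (p : Fin M.N1 → ℤ), fe (i, zl p) = zl ((M.A i).mulVec p))
    (κ C1 N : ℕ) (hκ : ∀ i : In r, size i ≤ κ)
    (hC1 : ∀ u : List (In r), u.length ≤ N → size (zl (M.run u).1) ≤ C1 * lg N) (u' : List (In r)) :
    ∀ u : List (In r), u.length + u'.length ≤ N →
      scanCost (fun x : List (ZB 2) × In r => size x) (W06_f fe) (zl (M.run u).1) u' ≤
        (4 * C1 + 3 * κ + 2) * (u'.length + 1) * lg N := by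
  have hlg := one_le_lg N
  induction u' with
  | nil =>
    intro u hu
    show size (zl (M.run u).1) ≤ _
    refine (hC1 u (by simpa using hu)).trans ?_
    simp only [List.length_nil, Nat.zero_add, Nat.mul_one]
    exact Nat.mul_le_mul_right _ (by omega)
  | cons a l ih =>
    intro u hu
    rw [List.length_cons] at hu
    have hrun : (M.A a).mulVec (M.run u).1 = (M.run (u ++ [a])).1 := run_go M u [a]
    have h1 : W06_f fe (zl (M.run u).1, a) = (zl (M.run (u ++ [a])).1, (a, zl (M.run u).1)) := by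
      unfold W06_f
      rw [hfe, hrun]
    have h2 := ih (u ++ [a]) (by rw [List.length_append, List.length_singleton]; omega)
    have s1 := hC1 u (by omega)
    have s2 := hC1 (u ++ [a]) (by rw [List.length_append, List.length_singleton]; omega)
    have s3 := hκ a
    show size (zl (M.run u).1) + size a + size (zl (M.run u).1, a) +
      size (W06_f fe (zl (M.run u).1, a)).1 + size (W06_f fe (zl (M.run u).1, a)).2 +
      scanCost (fun x : List (ZB 2) × In r => size x) (W06_f fe) (W06_f fe (zl (M.run u).1, a)).1 l ≤ _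
    have q1 : size ((zl (M.run u).1, a) : List (ZB 2) × In r) = size (zl (M.run u).1) + size a + 1 :=
      size_prod _
    have q2 : size ((a, zl (M.run u).1) : In r × List (ZB 2)) = size a + size (zl (M.run u).1) + 1 :=
      size_prod _
    rw [h1]
    show size (zl (M.run u).1) + size a + size ((zl (M.run u).1, a) : List (ZB 2) × In r) +
      size (zl (M.run (u ++ [a])).1) + size ((a, zl (M.run u).1) : In r × List (ZB 2)) +
      scanCost (fun x : List (ZB 2) × In r => size x) (W06_f fe) (zl (M.run (u ++ [a])).1) l ≤ _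
    rw [q1, q2]
    rw [List.length_cons]
    have e1 : (4 * C1 + 3 * κ + 2) * (l.length + 1 + 1) * lg N =
        (4 * C1 + 3 * κ + 2) * (l.length + 1) * lg N + (4 * (C1 * lg N) + (3 * κ + 2) * lg N) := by ring
    have e2 : 3 * κ + 2 ≤ (3 * κ + 2) * lg N := Nat.le_mul_of_pos_right _ hlg
    rw [e1]
    omega

theorem ct_trc {r : ℕ} (M : BM (In r)) (hM : M.Tame) :
    ∃ (f : List (ZB 2) × List (In r) → List (ZB 2) × ETr r) (T : List (ZB 2) × List (In r) → ℕ)
      (C : ℕ), CT f T ∧ (∀ p u, f (zl p, u) = (zl (pnd M p u), eT M (ptr M p u))) ∧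
      ∀ (N : ℕ) (u u' : List (In r)), u.length + u'.length ≤ N →
        T (zl (M.run u).1, u') ≤ C * (u'.length + 1) * lg N := by
  obtain ⟨fe, hct, hfe⟩ := ct_epar M
  obtain ⟨C1, hC1⟩ := size_par M hM
  obtain ⟨κ, hκ⟩ := size_fin (In r)
  refine ⟨fun x => scan (W06_f fe) x.1 x.2, _, C1 + (κ + 1) + (4 * C1 + 3 * κ + 2),
    ct_scan (W06_ct fe hct), fun p u => W06_scan M fe hfe u p, fun N u u' h => ?_⟩
  have hlg := one_le_lg N
  have h1 := W06_cost M fe hfe κ C1 N hκ (fun v hv => (hC1 N v hv).1) u' u h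
  have h2 := (hC1 N u (by omega)).1
  have h3 := size_list_le_of κ u' (fun a _ => hκ a)
  show size (zl (M.run u).1) + size u' +
    scanCost (fun x : List (ZB 2) × In r => size x) (W06_f fe) (zl (M.run u).1) u' ≤ _
  have e1 : (C1 + (κ + 1) + (4 * C1 + 3 * κ + 2)) * (u'.length + 1) * lg N =
      (C1 * lg N) * (u'.length + 1) + ((κ + 1) * (u'.length + 1)) * lg N +
      (4 * C1 + 3 * κ + 2) * (u'.length + 1) * lg N := by ring
  have e2 : C1 * lg N ≤ (C1 * lg N) * (u'.length + 1) := Nat.le_mul_of_pos_right _ (by omega)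
  have e3 : (κ + 1) * (u'.length + 1) ≤ ((κ + 1) * (u'.length + 1)) * lg N :=
    Nat.le_mul_of_pos_right _ hlg
  rw [e1]
  omega

end Pool.Agent.WPQ
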