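import Pool.Agent.Lib.MP_2da099_lc.QT.Defs
import Pool.Agent.Lib.MP_2da099_lc.QT.W04a
import Pool.Agent.Lib.MP_2da099_lc.QT.W06
import Pool.Agent.Lib.MP_2da099_lc.QT.W08a
import Pool.Agent.Lib.MP_2da099_lc.R2.N03
import Pool.Agent.Lib.MP_2da099_lc.R2.P05
import Pool.Agent.Lib.MP_2da099_lc.R2.P07

/-!
# W08b: splitting a job

HINTS.  The input is `((p, (U, V)), h)`, `h` a natural number in unary.  For each of the four `(b, b')` (`CT.mapConst` or `CT.pair` and
cons): `ct_take`, `ct_drop`, `ct_replicate`, `CT.zip` give the path, `ct_trc` of `(p, path)` gives `(p', trace)`; the output item is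
`(trace, (p', (hf b h U, hf b' h V)))`.  Everything except `ct_trc` costs `O(h + size U + size V + size p + 1)`
(`(h + 1) * size none` for `ct_replicate`).  For a valid job of the scale `s + 1` and `h = 2 ^ s`: `size U, size V ≤ C 2 ^ s`,
`size p ≤ C lg N`, and `ct_trc` costs `C (2 ^ s + 1) lg N` (`run_go`, `length_pth`).  The time function: a sum of the time functions; prove
`CT f T` with `T` built from the time function of `ct_trc`.
-/

set_option autoImplicit false

namespace Pool.Agent.WPQ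

open Pool.Agent.Lib.PolyTime Pool.Agent.WPM Pool.Agent.WPR Pool.Agent.WPU

section
variable {α β γ : Type} [Enc α] [Enc β] [Enc γ]

/-- a linear time function after an arbitrary one -/
theorem w08b_comp {g : β → γ} {f : α → β} {T : α → ℕ} (hg : n03_LT g) (hf : CT f T) :
    CT (fun a => g (f a)) (fun a => size a + T a) := by
  obtain ⟨C, hC⟩ := hf.size_le
  have h : CT g (fun b => size b) := hg
  refine (h.comp hf).mono (C + 2) (fun a => ?_)
  have h1 := hC a
  show T a + size (f a) ≤ (C + 2) * (size a + T a + 1)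
  have e : (C + 2) * (size a + T a + 1) = C * (T a + 1) + C * size a + 2 * size a + 2 * T a + 2 := by ring
  omega

theorem w08b_take : n03_LT (fun x : ℕ × List α => x.2.take x.1) :=
  n03_of 1 ct_take (fun x => by
    have h1 : size x = size x.1 + size x.2 + 1 := size_prod x
    have h2 : size x.1 = 2 * x.1 + 1 := size_nat x.1
    omega)

theorem w08b_drop : n03_LT (fun x : ℕ × List α => x.2.drop x.1) :=
  n03_of 1 ct_drop (fun x => by
    have h1 : size x = size x.1 + size x.2 + 1 := size_prod x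
    have h2 : size x.1 = 2 * x.1 + 1 := size_nat x.1
    omega)

theorem w08b_repl (a : α) : n03_LT (fun h : ℕ => List.replicate h a) := by
  have h1 : n03_LT (fun h : ℕ => (h, a)) := n03_pair n03_id (n03_const a)
  have h1' : CT (fun h : ℕ => (h, a)) (fun h => size h) := h1
  have h2 : CT (fun x : ℕ × α => List.replicate x.1 x.2) (fun x => (x.1 + 1) * size x.2) := ct_replicate
  refine (h2.comp h1').mono (size a + 1) (fun h => ?_)
  have h3 : size h = 2 * h + 1 := size_nat h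
  show size h + (h + 1) * size a ≤ (size a + 1) * (size h + 1)
  have e : (size a + 1) * (size h + 1) = size a * (size h + 1) + size h + 1 := by ring
  have e2 : size a * (h + 1) ≤ size a * (size h + 1) := Nat.mul_le_mul_left _ (by omega)
  have e3 : (h + 1) * size a = size a * (h + 1) := mul_comm _ _
  omega

end

section
variable {r : ℕ}

/-- the components of the input -/
theorem w08b_U : n03_LT (fun x : EJ r × ℕ => x.1.2.1) :=
  n03_comp (g := fun x : List (Ol r) × List (Ol r) => x.1) n03_fst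
    (n03_comp (g := fun x : EJ r => x.2) n03_snd n03_fst)

theorem w08b_V : n03_LT (fun x : EJ r × ℕ => x.1.2.2) :=
  n03_comp (g := fun x : List (Ol r) × List (Ol r) => x.2) n03_snd
    (n03_comp (g := fun x : EJ r => x.2) n03_snd n03_fst)

theorem w08b_p : n03_LT (fun x : EJ r × ℕ => x.1.1) :=
  n03_comp (g := fun x : EJ r => x.1) n03_fst n03_fst

theorem w08b_part (b : Bool) {g : EJ r × ℕ → List (Ol r)} (hg : n03_LT g) :
    n03_LT (fun x : EJ r × ℕ => if b then (g x).take x.2 else List.replicate x.2 none) := by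
  cases b with
  | true =>
    have h1 := n03_comp2 (h := fun x : ℕ × List (Ol r) => x.2.take x.1) w08b_take
      (n03_snd (α := EJ r) (β := ℕ)) hg
    exact CT.congr h1 (fun x => rfl)
  | false =>
    have h1 := n03_comp (g := fun h : ℕ => List.replicate h (none : Ol r)) (w08b_repl none)
      (n03_snd (α := EJ r) (β := ℕ))
    exact CT.congr h1 (fun x => rfl)

theorem w08b_half (b : Bool) {g : EJ r × ℕ → List (Ol r)} (hg : n03_LT g) :
    n03_LT (fun x : EJ r × ℕ => hf b x.2 (g x)) := by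
  cases b with
  | true =>
    have h1 := n03_comp2 (h := fun x : ℕ × List (Ol r) => x.2.drop x.1) w08b_drop
      (n03_snd (α := EJ r) (β := ℕ)) hg
    exact CT.congr h1 (fun x => rfl)
  | false =>
    have h1 := n03_comp2 (h := fun x : ℕ × List (Ol r) => x.2.take x.1) w08b_take
      (n03_snd (α := EJ r) (β := ℕ)) hg
    exact CT.congr h1 (fun x => rfl)

theorem w08b_path (b b' : Bool) :
    n03_LT (fun x : EJ r × ℕ => pth b b' x.2 x.1.2.1 x.1.2.2) := by
  have h1 := n03_comp2 (h := fun x : List (Ol r) × List (Ol r) => x.1.zip x.2) n03_zip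
    (w08b_part b (w08b_U (r := r))) (w08b_part b' (w08b_V (r := r)))
  exact CT.congr h1 (fun x => rfl)

theorem w08b_item (b : Bool × Bool) {f : List (ZB 2) × List (In r) → List (ZB 2) × ETr r}
    {T : List (ZB 2) × List (In r) → ℕ} (hf' : CT f T) :
    CT (fun x : EJ r × ℕ => (((f (x.1.1, pth b.1 b.2 x.2 x.1.2.1 x.1.2.2)).2,
        ((f (x.1.1, pth b.1 b.2 x.2 x.1.2.1 x.1.2.2)).1,
          (hf b.1 x.2 x.1.2.1, hf b.2 x.2 x.1.2.2))) : ETr r × EJ r))
      (fun x => size x + T (x.1.1, pth b.1 b.2 x.2 x.1.2.1 x.1.2.2)) := by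
  have h1 : CT (fun x : EJ r × ℕ => (x.1.1, pth b.1 b.2 x.2 x.1.2.1 x.1.2.2)) (fun x => size x) :=
    n03_pair w08b_p (w08b_path b.1 b.2)
  have h2 := hf'.comp h1
  have h3 : CT (fun x : EJ r × ℕ => (hf b.1 x.2 x.1.2.1, hf b.2 x.2 x.1.2.2)) (fun x => size x) :=
    n03_pair (w08b_half b.1 w08b_U) (w08b_half b.2 w08b_V)
  have h4 := CT.pair h2 h3
  have hr : n03_LT (fun y : (List (ZB 2) × ETr r) × (List (Ol r) × List (Ol r)) =>
      ((y.1.2, (y.1.1, y.2)) : ETr r × EJ r)) := by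
    have g1 : n03_LT (fun y : (List (ZB 2) × ETr r) × (List (Ol r) × List (Ol r)) => y.1) := n03_fst
    have g2 : n03_LT (fun y : (List (ZB 2) × ETr r) × (List (Ol r) × List (Ol r)) => y.2) := n03_snd
    exact n03_pair (n03_comp (g := fun y : List (ZB 2) × ETr r => y.2) n03_snd g1)
      (n03_pair (n03_comp (g := fun y : List (ZB 2) × ETr r => y.1) n03_fst g1) g2)
  have h5 := w08b_comp hr h4
  refine (h5.mono 5 (fun x => ?_)).congr (fun x => rfl)
  show size x + (size x + (size x + T (x.1.1, pth b.1 b.2 x.2 x.1.2.1 x.1.2.2)) + size x) ≤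
    5 * (size x + T (x.1.1, pth b.1 b.2 x.2 x.1.2.1 x.1.2.2) + 1)
  omega

end

theorem ct_split {r : ℕ} (M : BM (In r)) (hM : M.Tame) :
    ∃ (f : EJ r × ℕ → List (ETr r × EJ r)) (T : EJ r × ℕ → ℕ) (C : ℕ), CT f T ∧
      (∀ j h, f (eJ M j, h) = (splitJ M h j).map (fun x => (eT M x.1, eJ M x.2))) ∧
      ∀ (N s : ℕ) (j : Jb M), Vj M N (s + 1) j → T (eJ M j, 2 ^ s) ≤ C * 2 ^ s * lg N := by
  obtain ⟨f, T, C, h1, h2, h3⟩ := ct_trc M hM
  obtain ⟨C', hC'⟩ := size_eJ M hM
  have hall : ∀ b ∈ b4, CT (fun x : EJ r × ℕ => (((f (x.1.1, pth b.1 b.2 x.2 x.1.2.1 x.1.2.2)).2,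
        ((f (x.1.1, pth b.1 b.2 x.2 x.1.2.1 x.1.2.2)).1,
          (hf b.1 x.2 x.1.2.1, hf b.2 x.2 x.1.2.2))) : ETr r × EJ r))
      (fun x => size x + (b4.map (fun b => T (x.1.1, pth b.1 b.2 x.2 x.1.2.1 x.1.2.2))).sum) := by
    intro b hb
    refine (w08b_item b h1).mono 1 (fun x => ?_)
    have h4 : T (x.1.1, pth b.1 b.2 x.2 x.1.2.1 x.1.2.2) ≤
        (b4.map (fun b => T (x.1.1, pth b.1 b.2 x.2 x.1.2.1 x.1.2.2))).sum :=
      List.single_le_sum (fun _ _ => Nat.zero_le _) _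
        (List.mem_map_of_mem (f := fun b : Bool × Bool => T (x.1.1, pth b.1 b.2 x.2 x.1.2.1 x.1.2.2)) hb)
    omega
  have hm := CT.mapConst b4 (f := fun (b : Bool × Bool) (x : EJ r × ℕ) =>
    (((f (x.1.1, pth b.1 b.2 x.2 x.1.2.1 x.1.2.2)).2,
        ((f (x.1.1, pth b.1 b.2 x.2 x.1.2.1 x.1.2.2)).1,
          (hf b.1 x.2 x.1.2.1, hf b.2 x.2 x.1.2.2))) : ETr r × EJ r)) hall
  refine ⟨_, _, 4 * C' + 8 + 8 * C, hm, ?_, ?_⟩
  · intro j h
    unfold splitJ
    rw [List.map_map]
    refine List.map_congr_left (fun b _ => ?_)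
    have e := h2 j.1 (pth b.1 b.2 h j.2.1 j.2.2)
    show ((f (zl j.1, pth b.1 b.2 h j.2.1 j.2.2)).2,
        ((f (zl j.1, pth b.1 b.2 h j.2.1 j.2.2)).1, (hf b.1 h j.2.1, hf b.2 h j.2.2))) = _
    rw [e]
    rfl
  · intro N s j hj
    have hsz := hC' N (s + 1) j hj
    obtain ⟨u, hu, hj1, hU, hV⟩ := hj
    have hpow : 2 ^ (s + 1) = 2 * 2 ^ s := by rw [pow_succ, mul_comm]
    have hp1 : 1 ≤ 2 ^ s := Nat.one_le_two_pow
    have hlg := one_le_lg N
    have hT : ∀ b : Bool × Bool, T (zl j.1, pth b.1 b.2 (2 ^ s) j.2.1 j.2.2) ≤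
        2 * C * (2 ^ s * lg N) := by
      intro b
      have hl := length_pth b.1 b.2 (2 ^ s) j.2.1 j.2.2 (by rw [hU, hpow]; omega)
        (by rw [hV, hpow]; omega)
      have := h3 N u (pth b.1 b.2 (2 ^ s) j.2.1 j.2.2) (by rw [hl]; rw [hpow] at hu; omega)
      rw [hl, ← hj1] at this
      refine this.trans ?_
      have e1 : C * (2 ^ s + 1) ≤ C * (2 * 2 ^ s) := Nat.mul_le_mul_left _ (by omega)
      have e2 : C * (2 ^ s + 1) * lg N ≤ C * (2 * 2 ^ s) * lg N := Nat.mul_le_mul_right _ e1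
      refine e2.trans (le_of_eq ?_)
      ring
    show size (eJ M j, 2 ^ s) + (size (eJ M j, 2 ^ s) +
      (b4.map (fun b => T (zl j.1, pth b.1 b.2 (2 ^ s) j.2.1 j.2.2))).sum) ≤
      (4 * C' + 8 + 8 * C) * 2 ^ s * lg N
    have hsum : (b4.map (fun b => T (zl j.1, pth b.1 b.2 (2 ^ s) j.2.1 j.2.2))).sum ≤
        8 * C * (2 ^ s * lg N) := by
      have a1 := hT (false, false)
      have a2 := hT (false, true)
      have a3 := hT (true, false)
      have a4 := hT (true, true)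
      have e : (b4.map (fun b => T (zl j.1, pth b.1 b.2 (2 ^ s) j.2.1 j.2.2))).sum =
          T (zl j.1, pth false false (2 ^ s) j.2.1 j.2.2) + (T (zl j.1, pth false true (2 ^ s) j.2.1 j.2.2) +
          (T (zl j.1, pth true false (2 ^ s) j.2.1 j.2.2) + T (zl j.1, pth true true (2 ^ s) j.2.1 j.2.2))) := by
        simp [b4]
      rw [e]
      simp only at a1 a2 a3 a4
      have e2 : 8 * C * (2 ^ s * lg N) = 4 * (2 * C * (2 ^ s * lg N)) := by ring
      omega
    have hsz1 : size (eJ M j, 2 ^ s) = size (eJ M j) + size (2 ^ s : ℕ) + 1 := size_prod _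
    have hsz2 : size (2 ^ s : ℕ) = 2 * 2 ^ s + 1 := size_nat _
    rw [hpow] at hsz
    have hq : 2 ^ s ≤ 2 ^ s * lg N := Nat.le_mul_of_pos_right _ (by omega)
    have e1 : C' * (2 * 2 ^ s) * lg N = 2 * (C' * (2 ^ s * lg N)) := by ring
    have e2 : (4 * C' + 8 + 8 * C) * 2 ^ s * lg N =
        4 * (C' * (2 ^ s * lg N)) + 8 * (2 ^ s * lg N) + 8 * C * (2 ^ s * lg N) := by ring
    rw [e1] at hsz
    rw [e2, hsz1, hsz2]
    omega

end Pool.Agent.WPQ
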