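import Pool.Agent.Lib.MP_2da099_lc.QT.Defs
import Pool.Agent.Lib.MP_2da099_lc.QT.W04a
import Pool.Agent.Lib.MP_2da099_lc.QT.W08a
import Pool.Agent.Lib.MP_2da099_lc.QT.W08b
import Pool.Agent.Lib.MP_2da099_lc.QT.W09a
import Pool.Agent.Lib.MP_2da099_lc.C06
import Pool.Agent.Lib.MP_2da099_lc.R2.P05

/-!
# W09b: the time of going down

HINTS.  `CT.foldl` over the list of the half lengths, start state `(J, [])`.  One step `(h, (J, st)) ↦ (J', t :: st)`: `ct_mapEnv` of
`ct_split` over `J` with the environment `h`, `ct_flatten`, `ct_map` of `fst` and of `snd`, cons; the stack `st` may be copied (its size is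
bounded below).  Time along the real run from `[j]`, `Vj M N s j`, `2 ^ s ≤ N`: at the step from the scale `i + 1` to `i` the list `J`
has `4 ^ (s - i - 1)` members, all valid of the scale `i + 1`; each costs at most `C 2 ^ i lg N` and has the size at most `C 2 ^ i lg N`
(`size_eJ`, `size_eT`), so all the lists of this step have the size and the time at most `C 4 ^ (s - i) 2 ^ i lg N ≤ C N ^ 2 lg N`; the
stack has at most `s ≤ lg N` such lists: at most `C N ^ 2 lg N ^ 2`; there are `s ≤ lg N` steps, together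
`C N ^ 2 lg N ^ 3`.  The list of the half lengths has the size at most `C 2 ^ s`.  To organize the induction bound `foldCost` for
all lists `J` of jobs that are valid of the scale `i`, with `J.length * 4 ^ i ≤ 4 ^ s`, and all stacks of size at most `B`, by induction
on `i` (`hs (i + 1) = 2 ^ i :: hs i`).
-/

set_option autoImplicit false

namespace Pool.Agent.WPQ

open Pool.Agent.Lib.PolyTime Pool.Agent.WPM Pool.Agent.WPR Pool.Agent.WPU

section gen

variable {α β : Type} [Enc α] [Enc β]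

private theorem w09b_sum_le {γ : Type} (f g : γ → ℕ) (L : List γ) (h : ∀ x ∈ L, f x ≤ g x) :
    (L.map f).sum ≤ (L.map g).sum := by
  induction L with
  | nil => simp
  | cons a L ih =>
    simp only [List.map_cons, List.sum_cons]
    exact Nat.add_le_add (h a (by simp)) (ih fun x hx => h x (by simp [hx]))

private theorem w09b_sum_const {γ : Type} (f : γ → ℕ) (c : ℕ) (L : List γ) (h : ∀ x ∈ L, f x ≤ c) :
    (L.map f).sum ≤ L.length * c := by
  induction L with
  | nil => simp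
  | cons a L ih =>
    simp only [List.map_cons, List.sum_cons, List.length_cons]
    have h1 := h a (by simp)
    have h2 := ih fun x hx => h x (by simp [hx])
    have e : (L.length + 1) * c = L.length * c + c := by ring
    omega

private theorem w09b_pair :
    CT (fun L : List (α × β) => (L.map Prod.snd, L.map Prod.fst)) (fun L => size L) := by
  have h1 : CT (fun L : List (α × β) => L.map (fun x => x.2)) _ := ct_map (CT.snd (α := α) (β := β))
  have h2 : CT (fun L : List (α × β) => L.map (fun x => x.1)) _ := ct_map (CT.fst (α := α) (β := β))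
  refine ((h1.pair h2).mono 5 (fun L => ?_)).congr (fun L => rfl)
  have h3 := p05_sum_size_le L
  have h4 : (L.map (fun x : α × β => size x.1)).sum ≤ (L.map (fun x => size x)).sum :=
    w09b_sum_le _ _ L (fun x _ => by rw [size_prod]; omega)
  have h5 : (L.map (fun x : α × β => size x.1 + size x.2)).sum ≤ (L.map (fun x => size x)).sum :=
    w09b_sum_le _ _ L (fun x _ => by rw [size_prod]; omega)
  show size L + (size L + (L.map (fun x : α × β => size x.1)).sum) +
    (size L + (L.map (fun x : α × β => size x.1 + size x.2)).sum) ≤ 5 * (size L + 1)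
  omega

/-- one level down, without the stack -/
private def w09b_f1 (f0 : β × ℕ → List (α × β)) (x : List β × ℕ) : List β × List α :=
  ((x.1.map (fun a => f0 (a, x.2))).flatten.map Prod.snd, (x.1.map (fun a => f0 (a, x.2))).flatten.map Prod.fst)

private def w09b_T1 (f0 : β × ℕ → List (α × β)) (T0 : β × ℕ → ℕ) (x : List β × ℕ) : ℕ :=
  size x.1 + (x.1.length + 1) * size x.2 + (x.1.map (fun a => T0 (a, x.2))).sum +
    size (x.1.map (fun a => f0 (a, x.2)))

private theorem w09b_ct1 {f0 : β × ℕ → List (α × β)} {T0 : β × ℕ → ℕ} (h : CT f0 T0) :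
    CT (w09b_f1 f0) (w09b_T1 f0 T0) := by
  obtain ⟨C, hC⟩ := (ct_flatten (α := α × β)).size_le
  have h1 := ct_mapEnv h
  have h2 := (w09b_pair (α := α) (β := β)).comp ((ct_flatten (α := α × β)).comp h1)
  refine (h2.mono (C + 2) (fun x => ?_)).congr (fun x => rfl)
  have h3 := hC (x.1.map (fun a => f0 (a, x.2)))
  obtain ⟨S, hS⟩ : ∃ S, S = size (x.1.map (fun a => f0 (a, x.2))) := ⟨_, rfl⟩
  obtain ⟨F, hF⟩ : ∃ F, F = size (x.1.map (fun a => f0 (a, x.2))).flatten := ⟨_, rfl⟩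
  obtain ⟨A, hA⟩ : ∃ A, A = size x.1 + (x.1.length + 1) * size x.2 + (x.1.map (fun a => T0 (a, x.2))).sum := ⟨_, rfl⟩
  show size x.1 + (x.1.length + 1) * size x.2 + (x.1.map (fun a => T0 (a, x.2))).sum +
    size (x.1.map (fun a => f0 (a, x.2))) + size (x.1.map (fun a => f0 (a, x.2))).flatten ≤
    (C + 2) * (size x.1 + (x.1.length + 1) * size x.2 + (x.1.map (fun a => T0 (a, x.2))).sum +
    size (x.1.map (fun a => f0 (a, x.2))) + 1)
  rw [← hA, ← hS, ← hF]
  rw [← hS, ← hF] at h3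
  have e : (C + 2) * (A + S + 1) = C * (S + 1) + C * A + 2 * (A + S + 1) := by ring
  omega

private def w09b_step (f0 : β × ℕ → List (α × β)) (x : ℕ × (List β × List (List α))) :
    List β × List (List α) :=
  ((w09b_f1 f0 (x.2.1, x.1)).1, (w09b_f1 f0 (x.2.1, x.1)).2 :: x.2.2)

private def w09b_Ts (f0 : β × ℕ → List (α × β)) (T0 : β × ℕ → ℕ) (x : ℕ × (List β × List (List α))) : ℕ :=
  size x.1 + size x.2.1 + w09b_T1 f0 T0 (x.2.1, x.1)

private theorem w09b_ct2 {f0 : β × ℕ → List (α × β)} {T0 : β × ℕ → ℕ} (h : CT f0 T0) :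
    CT (w09b_step f0) (w09b_Ts f0 T0) := by
  have hf1 := w09b_ct1 h
  obtain ⟨C, hC⟩ := hf1.size_le
  have s1 : CT (fun x : ℕ × (List β × List (List α)) => ((x.1, x.2.1), x.2.2)) (fun x => size x.1) := CT.assocL
  have s2 : CT (fun x : (ℕ × List β) × List (List α) => ((x.1.2, x.1.1), x.2))
      (fun x => size x.1.1 + size x.1.2) := CT.first CT.swap
  have s3 : CT (fun x : (List β × ℕ) × List (List α) => (w09b_f1 f0 x.1, x.2)) (fun x => w09b_T1 f0 T0 x.1) :=
    CT.first hf1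
  have s4 : CT (fun x : (List β × List α) × List (List α) => (x.1.1, (x.1.2, x.2))) (fun x => size x.1.1) :=
    CT.assocR
  have a5 : CT (fun x : List α × List (List α) => x.1 :: x.2) (fun _ => 0) := CT.of_enc_eq (fun _ => rfl)
  have s5 : CT (fun x : List β × (List α × List (List α)) => (x.1, x.2.1 :: x.2.2)) (fun x => size x.1 + 0) :=
    CT.second a5
  refine ((s5.comp (s4.comp (s3.comp (s2.comp s1)))).mono (2 * C + 5) (fun x => ?_)).congr (fun x => rfl)
  have h1 := hC (x.2.1, x.1)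
  have h2 : size (w09b_f1 f0 (x.2.1, x.1)).1 ≤ size (w09b_f1 f0 (x.2.1, x.1)) := by
    rw [size_prod]
    omega
  have h3 : size (x.2.1, x.1) = size x.2.1 + size x.1 + 1 := size_prod _
  rw [h3] at h1
  obtain ⟨F, hF⟩ : ∃ F, F = size (w09b_f1 f0 (x.2.1, x.1)).1 := ⟨_, rfl⟩
  obtain ⟨G, hG⟩ : ∃ G, G = size (w09b_f1 f0 (x.2.1, x.1)) := ⟨_, rfl⟩
  obtain ⟨t, ht⟩ : ∃ t, t = w09b_T1 f0 T0 (x.2.1, x.1) := ⟨_, rfl⟩
  show size x.1 + (size x.1 + size x.2.1) + w09b_T1 f0 T0 (x.2.1, x.1) + size (w09b_f1 f0 (x.2.1, x.1)).1 +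
    (size (w09b_f1 f0 (x.2.1, x.1)).1 + 0) ≤
    (2 * C + 5) * (size x.1 + size x.2.1 + w09b_T1 f0 T0 (x.2.1, x.1) + 1)
  rw [← hF, ← ht]
  rw [← hF, ← hG] at h2
  rw [← hG, ← ht] at h1
  have e : (2 * C + 5) * (size x.1 + size x.2.1 + t + 1) = 2 * (C * (t + 1)) + 2 * (C * (size x.1 + size x.2.1)) +
    5 * (size x.1 + size x.2.1 + t + 1) := by ring
  omega

private def w09b_f (f0 : β × ℕ → List (α × β)) (x : List ℕ × List β) : List β × List (List α) :=
  x.1.foldl (fun s a => w09b_step f0 (a, s)) (x.2, [])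

private def w09b_T (f0 : β × ℕ → List (α × β)) (T0 : β × ℕ → ℕ) (x : List ℕ × List β) : ℕ :=
  size x.1 + size x.2 + foldCost (w09b_Ts f0 T0) (w09b_step f0) x.1 (x.2, [])

private theorem w09b_ct3 {f0 : β × ℕ → List (α × β)} {T0 : β × ℕ → ℕ} (h : CT f0 T0) :
    CT (w09b_f f0) (w09b_T f0 T0) := by
  have h1 := CT.foldl (w09b_ct2 h)
  have h2 : CT (fun x : List ℕ × List β => (x.1, (x.2, ([] : List (List α))))) (fun x => size x.1 + size x.2) :=
    CT.second (p05_input ([] : List (List α)))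
  refine ((h1.comp h2).mono 2 (fun x => ?_)).congr (fun x => rfl)
  show size x.1 + size x.2 + (size x.1 + foldCost (w09b_Ts f0 T0) (w09b_step f0) x.1 (x.2, [])) ≤
    2 * (size x.1 + size x.2 + foldCost (w09b_Ts f0 T0) (w09b_step f0) x.1 (x.2, []) + 1)
  omega

end gen

private theorem w09b_size_hs (s : ℕ) : size (hs s) ≤ 4 * 2 ^ s := by
  induction s with
  | zero =>
    show size ([] : List ℕ) ≤ 4 * 2 ^ 0
    simp
  | succ s ih =>
    show size (2 ^ s :: hs s) ≤ 4 * 2 ^ (s + 1)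
    rw [size_cons, size_nat, pow_succ]
    have : 1 ≤ 2 ^ s := Nat.one_le_two_pow
    omega

private theorem w09b_flat {r : ℕ} (M : BM (In r)) {f0 : EJ r × ℕ → List (ETr r × EJ r)}
    (hf0 : ∀ j h, f0 (eJ M j, h) = (splitJ M h j).map (fun x => (eT M x.1, eJ M x.2))) (h : ℕ) (J : List (Jb M)) :
    ((J.map (eJ M)).map (fun a => f0 (a, h))).flatten =
      (J.flatMap (splitJ M h)).map (fun x => (eT M x.1, eJ M x.2)) := by
  induction J with
  | nil => rfl
  | cons j J ih =>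
    rw [List.map_cons, List.map_cons, List.flatten_cons, ih, List.flatMap_cons, List.map_append, hf0]

private theorem w09b_sem1 {r : ℕ} (M : BM (In r)) {f0 : EJ r × ℕ → List (ETr r × EJ r)}
    (hf0 : ∀ j h, f0 (eJ M j, h) = (splitJ M h j).map (fun x => (eT M x.1, eJ M x.2))) (h : ℕ) (J : List (Jb M))
    (st : List (List (Tr M))) :
    w09b_step f0 (h, (J.map (eJ M), st.map (fun t => t.map (eT M)))) =
      ((dstep M (J, st) h).1.map (eJ M), (dstep M (J, st) h).2.map (fun t => t.map (eT M))) := by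
  unfold w09b_step w09b_f1 dstep
  simp only
  rw [w09b_flat M hf0]
  simp only [List.map_map, List.map_cons]
  rfl

private theorem w09b_sem {r : ℕ} (M : BM (In r)) {f0 : EJ r × ℕ → List (ETr r × EJ r)}
    (hf0 : ∀ j h, f0 (eJ M j, h) = (splitJ M h j).map (fun x => (eT M x.1, eJ M x.2))) (l : List ℕ) :
    ∀ (J : List (Jb M)) (st : List (List (Tr M))),
    l.foldl (fun s a => w09b_step f0 (a, s)) (J.map (eJ M), st.map (fun t => t.map (eT M))) =
      ((l.foldl (dstep M) (J, st)).1.map (eJ M), (l.foldl (dstep M) (J, st)).2.map (fun t => t.map (eT M))) := by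
  induction l with
  | nil => intro J st; rfl
  | cons h l ih =>
    intro J st
    rw [List.foldl_cons, List.foldl_cons, w09b_sem1 M hf0]
    exact ih (dstep M (J, st) h).1 (dstep M (J, st) h).2

/-- the cost of one level -/
private theorem w09b_one {r : ℕ} (M : BM (In r)) (hM : M.Tame) {f0 : EJ r × ℕ → List (ETr r × EJ r)}
    {T0 : EJ r × ℕ → ℕ} {C0 : ℕ}
    (hf0 : ∀ j h, f0 (eJ M j, h) = (splitJ M h j).map (fun x => (eT M x.1, eJ M x.2)))
    (hT0 : ∀ (N s : ℕ) (j : Jb M), Vj M N (s + 1) j → T0 (eJ M j, 2 ^ s) ≤ C0 * 2 ^ s * lg N) :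
    ∃ C : ℕ, ∀ (N i : ℕ) (J : List (Jb M)) (st : List (List (ETr r))), (∀ j ∈ J, Vj M N (i + 1) j) →
      w09b_Ts f0 T0 (2 ^ i, (J.map (eJ M), st)) ≤ C * ((J.length + 1) * 2 ^ i * lg N) := by
  obtain ⟨Ct, hCt⟩ := size_eT M hM
  obtain ⟨Cj, hCj⟩ := size_eJ M hM
  refine ⟨3 + (2 * Cj + 1) + ((2 * Cj + 1) + 3 + C0 + (5 * (Ct + Cj) + 11)), fun N i J st hJ => ?_⟩
  obtain ⟨X, hX⟩ : ∃ X, X = 2 ^ i * lg N := ⟨_, rfl⟩
  have hlg := one_le_lg N
  have h2i : 1 ≤ 2 ^ i := Nat.one_le_two_pow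
  have hX1 : 2 ^ i ≤ X := by
    rw [hX]
    exact Nat.le_mul_of_pos_right _ hlg
  have hX2 : 1 ≤ X := h2i.trans hX1
  obtain ⟨k, hk⟩ : ∃ k, k = J.length := ⟨_, rfl⟩
  have hkX : X ≤ X * (k + 1) := Nat.le_mul_of_pos_right _ (Nat.succ_pos k)
  -- size of the list
  have a1 : size (J.map (eJ M)) ≤ (2 * Cj + 1) * (X * (k + 1)) := by
    have h1 := size_list_le_of (2 * Cj * X) (J.map (eJ M)) (fun a ha => by
      obtain ⟨j, hj, rfl⟩ := List.mem_map.1 ha
      refine (hCj N (i + 1) j (hJ j hj)).trans (le_of_eq ?_)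
      rw [hX, pow_succ]
      ring)
    rw [List.length_map, ← hk] at h1
    refine h1.trans ?_
    calc (2 * Cj * X + 1) * (k + 1) ≤ (2 * Cj * X + X) * (k + 1) := Nat.mul_le_mul_right _ (by omega)
      _ = (2 * Cj + 1) * (X * (k + 1)) := by ring
  have a2 : size (2 ^ i : ℕ) ≤ 3 * (X * (k + 1)) := by
    rw [size_nat]
    omega
  have a3 : (k + 1) * size (2 ^ i : ℕ) ≤ 3 * (X * (k + 1)) := by
    rw [size_nat]
    calc (k + 1) * (2 * 2 ^ i + 1) ≤ (k + 1) * (3 * X) := Nat.mul_le_mul_left _ (by omega)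
      _ = 3 * (X * (k + 1)) := by ring
  have a4 : ((J.map (eJ M)).map (fun a => T0 (a, 2 ^ i))).sum ≤ C0 * (X * (k + 1)) := by
    rw [List.map_map]
    have h1 := w09b_sum_const ((fun a => T0 (a, 2 ^ i)) ∘ eJ M) (C0 * X) J (fun j hj => by
      refine (hT0 N i j (hJ j hj)).trans (le_of_eq ?_)
      rw [hX]
      ring)
    rw [← hk] at h1
    refine h1.trans ?_
    calc k * (C0 * X) ≤ (k + 1) * (C0 * X) := Nat.mul_le_mul_right _ (by omega)
      _ = C0 * (X * (k + 1)) := by ring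
  have a5 : size ((J.map (eJ M)).map (fun a => f0 (a, 2 ^ i))) ≤ (5 * (Ct + Cj) + 11) * (X * (k + 1)) := by
    have h1 := size_list_le_of ((Ct * X + Cj * X + 1 + 1) * 5) ((J.map (eJ M)).map (fun a => f0 (a, 2 ^ i)))
      (fun a ha => by
        obtain ⟨b, hb, rfl⟩ := List.mem_map.1 ha
        obtain ⟨j, hj, rfl⟩ := List.mem_map.1 hb
        rw [hf0]
        have h2 := size_list_le_of (Ct * X + Cj * X + 1) ((splitJ M (2 ^ i) j).map (fun x => (eT M x.1, eJ M x.2)))
          (fun c hc => by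
            obtain ⟨x, hx, rfl⟩ := List.mem_map.1 hc
            obtain ⟨v1, v2⟩ := split_valid M N i j (hJ j hj) x hx
            rw [size_prod]
            have e1 := hCt N i x.1 v1
            have e2 := hCj N i x.2 v2
            rw [mul_assoc, ← hX] at e1 e2
            simp only
            omega)
        rw [List.length_map, split_length] at h2
        exact h2)
    rw [List.length_map, List.length_map, ← hk] at h1
    refine h1.trans ?_
    calc ((Ct * X + Cj * X + 1 + 1) * 5 + 1) * (k + 1) ≤ ((5 * (Ct + Cj) + 11) * X) * (k + 1) := by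
          refine Nat.mul_le_mul_right _ ?_
          have e : (5 * (Ct + Cj) + 11) * X = 5 * (Ct * X) + 5 * (Cj * X) + 11 * X := by ring
          rw [e]
          omega
      _ = (5 * (Ct + Cj) + 11) * (X * (k + 1)) := by ring
  have e : (J.length + 1) * 2 ^ i * lg N = X * (k + 1) := by
    rw [hX, hk]
    ring
  rw [e]
  obtain ⟨Y, hY⟩ : ∃ Y, Y = X * (k + 1) := ⟨_, rfl⟩
  rw [← hY] at a1 a2 a3 a4 a5 ⊢
  show size (2 ^ i : ℕ) + size (J.map (eJ M)) + (size (J.map (eJ M)) + ((J.map (eJ M)).length + 1) * size (2 ^ i : ℕ) +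
    ((J.map (eJ M)).map (fun a => T0 (a, 2 ^ i))).sum + size ((J.map (eJ M)).map (fun a => f0 (a, 2 ^ i)))) ≤ _
  rw [List.length_map, ← hk]
  have e2 : (3 + (2 * Cj + 1) + ((2 * Cj + 1) + 3 + C0 + (5 * (Ct + Cj) + 11))) * Y =
      3 * Y + (2 * Cj + 1) * Y + ((2 * Cj + 1) * Y + 3 * Y + C0 * Y + (5 * (Ct + Cj) + 11) * Y) := by ring
  rw [e2]
  exact Nat.add_le_add (Nat.add_le_add a2 a1) (Nat.add_le_add (Nat.add_le_add (Nat.add_le_add a1 a3) a4) a5)

/-- the cost of all levels -/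
private theorem w09b_all {r : ℕ} (M : BM (In r)) {f0 : EJ r × ℕ → List (ETr r × EJ r)}
    {T0 : EJ r × ℕ → ℕ} {C : ℕ}
    (hf0 : ∀ j h, f0 (eJ M j, h) = (splitJ M h j).map (fun x => (eT M x.1, eJ M x.2)))
    (hC : ∀ (N i : ℕ) (J : List (Jb M)) (st : List (List (ETr r))), (∀ j ∈ J, Vj M N (i + 1) j) →
      w09b_Ts f0 T0 (2 ^ i, (J.map (eJ M), st)) ≤ C * ((J.length + 1) * 2 ^ i * lg N)) (N D : ℕ) (s : ℕ) :
    ∀ (J : List (Jb M)) (st : List (List (Tr M))), (∀ j ∈ J, Vj M N s j) → (J.length + 1) * 4 ^ s ≤ D →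
      foldCost (w09b_Ts f0 T0) (w09b_step f0) (hs s) (J.map (eJ M), st.map (fun t => t.map (eT M))) ≤
        s * (C * (D * lg N)) := by
  induction s with
  | zero =>
    intro J st _ _
    show 0 ≤ _
    exact Nat.zero_le _
  | succ s ih =>
    intro J st hJ hD
    show w09b_Ts f0 T0 (2 ^ s, (J.map (eJ M), st.map (fun t => t.map (eT M)))) +
      foldCost (w09b_Ts f0 T0) (w09b_step f0) (hs s)
        (w09b_step f0 (2 ^ s, (J.map (eJ M), st.map (fun t => t.map (eT M))))) ≤ (s + 1) * (C * (D * lg N))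
    rw [w09b_sem1 M hf0]
    have h1 := hC N s J (st.map (fun t => t.map (eT M))) hJ
    have hlen : (dstep M (J, st) (2 ^ s)).1.length = J.length * 4 := by
      unfold dstep
      simp only [List.length_map]
      clear hJ hD h1
      induction J with
      | nil => rfl
      | cons j J ihJ =>
        rw [List.flatMap_cons, List.length_append, ihJ, split_length, List.length_cons]
        ring
    have h2 := ih (dstep M (J, st) (2 ^ s)).1 (dstep M (J, st) (2 ^ s)).2 (fun x hx => by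
      unfold dstep at hx
      obtain ⟨y, hy, rfl⟩ := List.mem_map.1 hx
      obtain ⟨j, hj, hyj⟩ := List.mem_flatMap.1 hy
      exact (split_valid M N s j (hJ j hj) y hyj).2) (by
      rw [hlen]
      refine le_trans ?_ hD
      calc (J.length * 4 + 1) * 4 ^ s ≤ ((J.length + 1) * 4) * 4 ^ s := Nat.mul_le_mul_right _ (by omega)
        _ = (J.length + 1) * 4 ^ (s + 1) := by ring)
    have h3 : (J.length + 1) * 2 ^ s * lg N ≤ D * lg N := by
      refine Nat.mul_le_mul_right _ (le_trans ?_ hD)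
      refine Nat.mul_le_mul_left _ ?_
      calc 2 ^ s ≤ 4 ^ s := Nat.pow_le_pow_left (by norm_num) s
        _ ≤ 4 ^ (s + 1) := Nat.pow_le_pow_right (by norm_num) (by omega)
    have h4 := Nat.mul_le_mul_left C h3
    have e : (s + 1) * (C * (D * lg N)) = C * (D * lg N) + s * (C * (D * lg N)) := by ring
    rw [e]
    exact Nat.add_le_add (h1.trans h4) h2

theorem ct_dn {r : ℕ} (M : BM (In r)) (hM : M.Tame) :
    ∃ (f : List ℕ × List (EJ r) → List (EJ r) × List (List (ETr r)))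
      (T : List ℕ × List (EJ r) → ℕ) (C : ℕ), CT f T ∧
      (∀ s J, f (hs s, J.map (eJ M)) =
        ((dn M s J).1.map (eJ M), (dn M s J).2.map (fun t => t.map (eT M)))) ∧
      ∀ (N s : ℕ) (j : Jb M), 2 ^ s ≤ N → Vj M N s j →
        T (hs s, [eJ M j]) ≤ C * N ^ 2 * lg N ^ 3 := by
  obtain ⟨f0, T0, C0, hct, hf0, hT0⟩ := ct_split M hM
  obtain ⟨C1, hC1⟩ := w09b_one M hM hf0 hT0
  obtain ⟨Cj, hCj⟩ := size_eJ M hM
  refine ⟨w09b_f f0, w09b_T f0 T0, 4 + (2 * Cj + 2) + 2 * C1, w09b_ct3 hct, fun s J => ?_, fun N s j hs2 hj => ?_⟩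
  · exact w09b_sem M hf0 (hs s) J []
  · have h1 := w09b_all M hf0 hC1 N (2 * N ^ 2) s [j] [] (fun x hx => by
      rw [List.mem_singleton] at hx
      rw [hx]
      exact hj) (by
      show (1 + 1) * 4 ^ s ≤ 2 * N ^ 2
      have e : (4 : ℕ) ^ s = (2 ^ s) ^ 2 := by
        rw [← pow_mul, mul_comm s 2, pow_mul]
        norm_num
      rw [e]
      exact Nat.mul_le_mul_left _ (Nat.pow_le_pow_left hs2 2))
    have hN1 : 1 ≤ N := le_trans Nat.one_le_two_pow hs2
    have hlg := one_le_lg N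
    have hsl : s ≤ lg N := by
      unfold lg
      have h5 : s ≤ Nat.log 2 (N + 1) := Nat.le_log_of_pow_le (by norm_num) (hs2.trans (by omega))
      omega
    obtain ⟨g, hg⟩ : ∃ g, g = lg N := ⟨_, rfl⟩
    have hj2 := hCj N s j hj
    rw [← hg] at hlg hsl h1 hj2 ⊢
    have hNN : N ≤ N ^ 2 := Nat.le_self_pow (by norm_num) N
    have hg3 : g ≤ g ^ 3 := Nat.le_self_pow (by norm_num) g
    have hg31 : 1 ≤ g ^ 3 := hlg.trans hg3
    have p1 : 2 ^ s ≤ N ^ 2 * g ^ 3 := by
      calc 2 ^ s ≤ N ^ 2 * 1 := by rw [mul_one]; exact hs2.trans hNN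
        _ ≤ N ^ 2 * g ^ 3 := Nat.mul_le_mul_left _ hg31
    have p2 : 2 ^ s * g ≤ N ^ 2 * g ^ 3 := Nat.mul_le_mul (hs2.trans hNN) hg3
    have p3 : s * (N ^ 2 * g) ≤ N ^ 2 * g ^ 3 := by
      calc s * (N ^ 2 * g) ≤ g * (N ^ 2 * g) := Nat.mul_le_mul_right _ hsl
        _ = N ^ 2 * g ^ 2 := by ring
        _ ≤ N ^ 2 * g ^ 3 := Nat.mul_le_mul_left _ (Nat.pow_le_pow_right hlg (by norm_num))
    have p4 : 1 ≤ N ^ 2 * g ^ 3 := le_trans Nat.one_le_two_pow p1
    have q1 := w09b_size_hs s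
    have q2 : size [eJ M j] ≤ (2 * Cj + 2) * (N ^ 2 * g ^ 3) := by
      have h2 := size_list_le_of (Cj * (2 ^ s * g)) [eJ M j] (fun a ha => by
        rw [List.mem_singleton] at ha
        rw [ha]
        refine hj2.trans (le_of_eq ?_)
        ring)
      refine h2.trans ?_
      have h3 := Nat.mul_le_mul_left Cj p2
      have e : (2 * Cj + 2) * (N ^ 2 * g ^ 3) = 2 * (Cj * (N ^ 2 * g ^ 3)) + 2 * (N ^ 2 * g ^ 3) := by ring
      rw [e, List.length_singleton]
      omega
    have q3 : foldCost (w09b_Ts f0 T0) (w09b_step f0) (hs s) ([eJ M j], []) ≤ 2 * C1 * (N ^ 2 * g ^ 3) := by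
      refine le_trans h1 ?_
      have h4 := Nat.mul_le_mul_left (2 * C1) p3
      calc s * (C1 * (2 * N ^ 2 * g)) = 2 * C1 * (s * (N ^ 2 * g)) := by ring
        _ ≤ _ := h4
    have e : (4 + (2 * Cj + 2) + 2 * C1) * N ^ 2 * g ^ 3 =
        4 * (N ^ 2 * g ^ 3) + (2 * Cj + 2) * (N ^ 2 * g ^ 3) + 2 * C1 * (N ^ 2 * g ^ 3) := by ring
    rw [e]
    exact Nat.add_le_add (Nat.add_le_add (q1.trans (Nat.mul_le_mul_left _ p1)) q2) q3

end Pool.Agent.WPQ
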