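import Pool.Agent.Lib.MP_2da099_lc.QT.Defs
import Pool.Agent.Lib.MP_2da099_lc.QT.W04a
import Pool.Agent.Lib.MP_2da099_lc.QT.W08a

/-!
# W04b: bounds of the rows
-/

set_option autoImplicit false

namespace Pool.Agent.WPQ

open Pool.Agent.Lib.PolyTime Pool.Agent.WPM Pool.Agent.WPR Pool.Agent.WPU

private theorem w04b_sum {n : ℕ} (f : Fin n → ℤ) (b : ℕ) (h : ∀ j, (f j).natAbs ≤ b) :
    (∑ j, f j).natAbs ≤ n * b := by
  refine (Int.natAbs_sum_le _ _).trans ?_
  refine (Finset.sum_le_sum (fun j _ => h j)).trans ?_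
  simp

private theorem w04b_fin {α : Type} [Fintype α] (f : α → ℕ) : ∃ b : ℕ, ∀ a, f a ≤ b :=
  ⟨Finset.univ.sup f, fun a => Finset.le_sup (f := f) (Finset.mem_univ a)⟩

private theorem w04b_pow (c C0 k L : ℕ) (hL : 1 ≤ L) :
    c * (2 ^ (C0 * L) * 2 ^ k) ≤ 2 ^ (k + (C0 + c) * L) := by
  have h1 : c ≤ 2 ^ (c * L) :=
    (Nat.lt_two_pow_self).le.trans (Nat.pow_le_pow_right Nat.two_pos
      (Nat.le_mul_of_pos_right _ hL))
  calc c * (2 ^ (C0 * L) * 2 ^ k) ≤ 2 ^ (c * L) * (2 ^ (C0 * L) * 2 ^ k) :=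
        Nat.mul_le_mul_right _ h1
    _ = 2 ^ (k + (C0 + c) * L) := by
        rw [← pow_add, ← pow_add]
        congr 1
        ring

private theorem w04b_step {r : ℕ} (M : BM (In r)) (C0 : ℕ) : ∃ C : ℕ, ∀ (N : ℕ) (i : In r)
    (p : Fin M.N1 → ℤ) (R : Fin M.N2 → ℤ) (k : ℕ), (∀ a, (p a).natAbs ≤ 2 ^ (C0 * lg N)) →
    (∀ j, (R j).natAbs ≤ 2 ^ k) → ∀ j, (rst M i p R j).natAbs ≤ 2 ^ (k + C * lg N) := by
  obtain ⟨b, hb⟩ := w04b_fin (fun x : In r × (Fin M.N1 × (Fin M.N2 × Fin M.N2)) =>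
    (M.B x.1 x.2.1 x.2.2.1 x.2.2.2).natAbs)
  refine ⟨C0 + M.N1 * (M.N2 * b), fun N i p R k hp hR j => ?_⟩
  have h1 : rst M i p R j = ∑ a, p a * ∑ l, M.B i a l j * R l := by
    unfold rst
    rw [Finset.sum_apply]
    refine Finset.sum_congr rfl fun a _ => ?_
    rw [Pi.smul_apply, smul_eq_mul]
    rfl
  rw [h1]
  have h2 : ∀ a, (∑ l, M.B i a l j * R l).natAbs ≤ M.N2 * (b * 2 ^ k) := by
    intro a
    refine w04b_sum _ _ (fun l => ?_)
    rw [Int.natAbs_mul]
    exact Nat.mul_le_mul (hb (i, (a, (l, j)))) (hR l)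
  have h3 : (∑ a, p a * ∑ l, M.B i a l j * R l).natAbs ≤
      M.N1 * (2 ^ (C0 * lg N) * (M.N2 * (b * 2 ^ k))) := by
    refine w04b_sum _ _ (fun a => ?_)
    rw [Int.natAbs_mul]
    exact Nat.mul_le_mul (hp a) (h2 a)
  refine h3.trans ?_
  have e : M.N1 * (2 ^ (C0 * lg N) * (M.N2 * (b * 2 ^ k))) =
      M.N1 * (M.N2 * b) * (2 ^ (C0 * lg N) * 2 ^ k) := by ring
  rw [e]
  exact w04b_pow _ _ _ _ (one_le_lg N)

private theorem w04b_len {ι : Type} (M : BM ι) (u : List ι) :
    ∀ p, (ptr M p u).length = u.length := by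
  induction u with
  | nil => intro p; rfl
  | cons i u ih => intro p; rw [ptr, List.length_cons, List.length_cons, ih]

theorem rbk_bound {r : ℕ} (M : BM (In r)) (hM : M.Tame) : ∃ C : ℕ, ∀ (N : ℕ) (u u' : List (In r))
    (k : ℕ) (R : Fin M.N2 → ℤ), u.length + u'.length ≤ N → (∀ j, (R j).natAbs ≤ 2 ^ k) →
    ∀ t, t <:+ ptr M (M.run u).1 u' →
      ∀ j, (rbk M t R j).natAbs ≤ 2 ^ (k + C * u'.length * lg N) := by
  obtain ⟨C0, hC0⟩ := size_par M hM
  obtain ⟨C, hC⟩ := w04b_step M C0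
  refine ⟨C, fun N u u' k R hN hR t ht => ?_⟩
  have hmem : ∀ x ∈ t, ∀ a, (x.2 a).natAbs ≤ 2 ^ (C0 * lg N) := by
    intro x hx a
    obtain ⟨v, hv, hxv⟩ := mem_ptr M N u u' hN x (ht.subset hx)
    rw [hxv]
    exact (hC0 N v hv).2 a
  have hlen : t.length ≤ u'.length := by
    have h := ht.length_le
    rwa [w04b_len] at h
  have key : ∀ t : List (In r × (Fin M.N1 → ℤ)),
      (∀ x ∈ t, ∀ a, (x.2 a).natAbs ≤ 2 ^ (C0 * lg N)) →
      ∀ j, (rbk M t R j).natAbs ≤ 2 ^ (k + C * t.length * lg N) := by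
    intro t
    induction t with
    | nil =>
      intro _ j
      show (R j).natAbs ≤ _
      simpa using hR j
    | cons x t ih =>
      intro hx j
      have h1 := ih (fun y hy => hx y (List.mem_cons_of_mem _ hy))
      have h2 := hC N x.1 x.2 (rbk M t R) (k + C * t.length * lg N)
        (hx x List.mem_cons_self) h1 j
      have e : k + C * t.length * lg N + C * lg N = k + C * (x :: t).length * lg N := by
        rw [List.length_cons]
        ring
      rw [← e]
      exact h2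
  intro j
  refine (key t hmem j).trans (Nat.pow_le_pow_right Nat.two_pos ?_)
  exact Nat.add_le_add_left (Nat.mul_le_mul_right _ (Nat.mul_le_mul_left _ hlen)) _

private theorem w04b_arith (C D X : ℕ) (h : D + 2 ≤ C) (hX : 1 ≤ X) :
    4 * 2 ^ (C * X + D * X) ≤ 2 ^ (C * (2 * X)) := by
  have h1 : 4 * 2 ^ (C * X + D * X) = 2 ^ (2 + (C * X + D * X)) := by
    rw [pow_add 2 2]
    norm_num
  rw [h1]
  refine Nat.pow_le_pow_right Nat.two_pos ?_
  have h2 : (D + 2) * X ≤ C * X := Nat.mul_le_mul_right _ h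
  have h3 : C * (2 * X) = C * X + C * X := by ring
  have h4 : (D + 2) * X = D * X + 2 * X := by ring
  omega

theorem rval_bound {r : ℕ} (M : BM (In r)) (hM : M.Tame)
    (c : Ol r → Ol r → Fin M.N1 → Fin M.N2 → ℤ) : ∃ C : ℕ, ∀ (N s : ℕ) (j : Jb M),
    Vj M N s j → ∀ i, (rj M c s j i).natAbs ≤ 2 ^ (C * 2 ^ s * lg N) := by
  obtain ⟨C0, hC0⟩ := size_par M hM
  obtain ⟨D, hD⟩ := rbk_bound M hM
  obtain ⟨b, hb⟩ := w04b_fin (fun x : (Ol r × Ol r) × (Fin M.N1 × Fin M.N2) =>
    (c x.1.1 x.1.2 x.2.1 x.2.2).natAbs)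
  have key : ∀ C, D + 2 + (C0 + M.N1 * b) ≤ C → ∀ (N s : ℕ) (j : Jb M),
      Vj M N s j → ∀ i, (rj M c s j i).natAbs ≤ 2 ^ (C * (2 ^ s * lg N)) := by
    intro C hC N s
    induction s with
    | zero =>
      intro j hj i
      obtain ⟨u, hu, hj1, hU, hV⟩ := hj
      have h0 : rj M c 0 j i = ∑ a, c (j.2.1.headD none) (j.2.2.headD none) a i * j.1 a := rfl
      rw [h0]
      have h1 : (∑ a, c (j.2.1.headD none) (j.2.2.headD none) a i * j.1 a).natAbs ≤
          M.N1 * (b * 2 ^ (C0 * lg N)) := by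
        refine w04b_sum _ _ (fun a => ?_)
        rw [Int.natAbs_mul]
        refine Nat.mul_le_mul (hb ((_, _), (a, i))) ?_
        rw [hj1]
        exact (hC0 N u (by omega)).2 a
      refine h1.trans ?_
      have h2 := w04b_pow (M.N1 * b) C0 0 (lg N) (one_le_lg N)
      rw [pow_zero, mul_one, zero_add] at h2
      have e : M.N1 * (b * 2 ^ (C0 * lg N)) = M.N1 * b * 2 ^ (C0 * lg N) := by ring
      rw [e]
      refine h2.trans (Nat.pow_le_pow_right Nat.two_pos ?_)
      rw [pow_zero, one_mul]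
      exact Nat.mul_le_mul_right _ (by omega)
    | succ s ih =>
      intro j hj i
      have hv := split_valid M N s j hj
      have hX : 1 ≤ 2 ^ s * lg N := Nat.mul_pos (pow_pos Nat.two_pos s) (one_le_lg N)
      have hone : ∀ x ∈ splitJ M (2 ^ s) j,
          (rbk M x.1 (rj M c s x.2) i).natAbs ≤
            2 ^ (C * (2 ^ s * lg N) + D * (2 ^ s * lg N)) := by
        intro x hx
        obtain ⟨⟨u, u', hu, hu', ht⟩, hvj⟩ := hv x hx
        have h1 := hD N u u' (C * (2 ^ s * lg N)) (rj M c s x.2) hu (ih x.2 hvj) x.1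
          (by rw [ht]) i
        rw [hu', mul_assoc D] at h1
        exact h1
      have e : rj M c (s + 1) j = ((splitJ M (2 ^ s) j).map
          (fun x => rbk M x.1 (rj M c s x.2))).sum := by
        unfold rj splitJ
        rw [rval, List.map_map]
        rfl
      have e2 : rj M c (s + 1) j i = ((splitJ M (2 ^ s) j).map
          (fun x => rbk M x.1 (rj M c s x.2) i)).sum := by
        rw [e]
        have h : ∀ l : List (Tr M × Jb M), ((l.map (fun x => rbk M x.1 (rj M c s x.2))).sum) i =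
            (l.map (fun x => rbk M x.1 (rj M c s x.2) i)).sum := by
          intro l
          induction l with
          | nil => rfl
          | cons y l ihl =>
            rw [List.map_cons, List.sum_cons, List.map_cons, List.sum_cons, Pi.add_apply, ihl]
        exact h _
      rw [e2]
      have h4 : ∀ l : List (Tr M × Jb M), (∀ x ∈ l, (rbk M x.1 (rj M c s x.2) i).natAbs ≤
            2 ^ (C * (2 ^ s * lg N) + D * (2 ^ s * lg N))) →
          ((l.map (fun x => rbk M x.1 (rj M c s x.2) i)).sum).natAbs ≤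
            l.length * 2 ^ (C * (2 ^ s * lg N) + D * (2 ^ s * lg N)) := by
        intro l
        induction l with
        | nil => intro _; simp
        | cons y l ihl =>
          intro hy
          rw [List.map_cons, List.sum_cons, List.length_cons]
          refine (Int.natAbs_add_le _ _).trans ?_
          have h5 := hy y List.mem_cons_self
          have h6 := ihl (fun x hx => hy x (List.mem_cons_of_mem _ hx))
          rw [add_mul, one_mul]
          omega
      refine (h4 _ hone).trans ?_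
      rw [split_length]
      have h7 := w04b_arith C D (2 ^ s * lg N) (by omega) hX
      have e3 : 2 ^ (s + 1) * lg N = 2 * (2 ^ s * lg N) := by ring
      rw [e3]
      exact h7
  refine ⟨D + 2 + (C0 + M.N1 * b), fun N s j hj i => ?_⟩
  have h := key _ le_rfl N s j hj i
  rw [mul_assoc]
  exact h

end Pool.Agent.WPQ
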