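import Pool.Agent.Lib.MP_2da099_lc.QT.Defs
import Pool.Agent.Lib.MP_2da099_lc.QT.W04a
import Pool.Agent.Lib.MP_2da099_lc.QT.W04b
import Pool.Agent.Lib.MP_2da099_lc.QT.W05
import Pool.Agent.Lib.MP_2da099_lc.C08
import Pool.Agent.Lib.MP_2da099_lc.C10

/-!
# W07: backwards along a trace

HINTS.  `CT.foldr` (`C08`) with the step of `ct_erst`.  Time: along the real run the state after the suffix `t'` of `t` is
`zl (rbk M t' R)`, its entries are at most `2 ^ (k + C 2 ^ s lg N)` (`rbk_bound`), its size at most `C' (k + 2 ^ s lg N)` (`size_zl`, `lg N ≥ 1`);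
the parameters have the size at most `C lg N`; so a step costs at most `C (lg N) (lg N + k + 2 ^ s lg N)`, there are `2 ^ s` steps.
`CT.foldr` has its cost as `foldCost` over the reversed list: bound it by induction over the suffixes.  The size of the
trace: `size_eT`.
-/

set_option autoImplicit false

namespace Pool.Agent.WPQ

open Pool.Agent.Lib.PolyTime Pool.Agent.WPM Pool.Agent.WPR Pool.Agent.WPU

private theorem w07_fc_append {τ ρ : Type} (T : τ × ρ → ℕ) (step : τ × ρ → ρ) (l l' : List τ)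
    (s : ρ) : foldCost T step (l ++ l') s =
      foldCost T step l s + foldCost T step l' (l.foldl (fun s a => step (a, s)) s) := by
  induction l generalizing s with
  | nil => simp [foldCost]
  | cons a l ih =>
    simp only [List.cons_append, foldCost, List.foldl_cons]
    rw [ih (step (a, s))]
    omega

private theorem w07_len {ι : Type} (M : BM ι) (p : Fin M.N1 → ℤ) (u : List ι) :
    (ptr M p u).length = u.length := by
  induction u generalizing p with
  | nil => rfl
  | cons i u ih => simp only [ptr, List.length_cons, ih]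

theorem ct_bck {r : ℕ} (M : BM (In r)) (hM : M.Tame) :
    ∃ (f : ETr r × List (ZB 2) → List (ZB 2)) (T : ETr r × List (ZB 2) → ℕ) (C : ℕ), CT f T ∧
      (∀ t R, f (eT M t, zl R) = zl (rbk M t R)) ∧
      ∀ (N s : ℕ) (t : Tr M) (k : ℕ) (R : Fin M.N2 → ℤ), Vt M N s t →
        (∀ j, (R j).natAbs ≤ 2 ^ k) →
        T (eT M t, zl R) ≤ C * 2 ^ s * lg N * (k + 2 ^ s * lg N) := by
  obtain ⟨g, hg, hgs⟩ := ct_erst M
  obtain ⟨C0, hC0⟩ := size_par M hM
  obtain ⟨C1, hC1⟩ := size_eT M hM
  obtain ⟨C2, hC2⟩ := rbk_bound M hM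
  obtain ⟨C3, hC3⟩ := size_zl M.N2
  have hfold : ∀ (t : Tr M) (R : Fin M.N2 → ℤ),
      (eT M t).foldr (fun a s => g (a, s)) (zl R) = zl (rbk M t R) := by
    intro t R
    induction t with
    | nil => rfl
    | cons x t ih =>
      have h1 : (eT M (x :: t)).foldr (fun a s => g (a, s)) (zl R) =
          g ((x.1, zl x.2), (eT M t).foldr (fun a s => g (a, s)) (zl R)) := rfl
      rw [h1, ih, hgs]
      rfl
  refine ⟨_, _, C1 + (C0 + 1) * (C0 + C3 * (C2 + 1) + 1), CT.foldr hg, hfold, ?_⟩
  intro N s t k R hV hR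
  have hT1 := hC1 N s t hV
  obtain ⟨u, u', hlen, hs, rfl⟩ := hV
  have hL := one_le_lg N
  have hS : 1 ≤ 2 ^ s := Nat.one_le_two_pow
  obtain ⟨L, hLe⟩ : ∃ L, L = lg N := ⟨_, rfl⟩
  obtain ⟨S, hSe⟩ : ∃ S, S = 2 ^ s := ⟨_, rfl⟩
  rw [← hLe] at hL hT1
  rw [← hSe] at hS hT1 hs
  obtain ⟨K, hK⟩ : ∃ K, K = (C0 + 1) * L * ((C0 + C3 * (C2 + 1) + 1) * (k + S * L)) := ⟨_, rfl⟩
  -- the cost of a step
  have hstep : ∀ (x : In r × (Fin M.N1 → ℤ)) (t' : Tr M),
      (x :: t') <:+ ptr M (M.run u).1 u' →
      (size (zl x.2) + 1) * (size (zl x.2) + size (zl (rbk M t' R)) + 1) ≤ K := by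
    intro x t' hx
    have hmem : x ∈ ptr M (M.run u).1 u' := hx.subset (by simp)
    obtain ⟨v, hv, hxv⟩ := mem_ptr M N u u' hlen x hmem
    have h1 : size (zl x.2) ≤ C0 * L := by
      rw [hxv, hLe]
      exact (hC0 N v hv).1
    have h2 := hC2 N u u' k R hlen hR t' ((List.suffix_cons x t').trans hx)
    rw [hs, ← hLe] at h2
    have h3 := hC3 (rbk M t' R) _ h2
    have hSL : 1 ≤ S * L := Nat.one_le_iff_ne_zero.mpr (Nat.mul_ne_zero (by omega) (by omega))
    have h4 : size (zl (rbk M t' R)) ≤ C3 * (C2 + 1) * (k + S * L) := by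
      refine h3.trans ?_
      rw [Nat.mul_assoc C3]
      refine Nat.mul_le_mul_left _ ?_
      have e : (C2 + 1) * (k + S * L) = C2 * S * L + k + S * L + C2 * k := by ring
      have : 0 ≤ C2 * k := Nat.zero_le _
      omega
    have h5 : C0 * L ≤ C0 * (k + S * L) := by
      refine Nat.mul_le_mul_left _ ?_
      have : 1 * L ≤ S * L := Nat.mul_le_mul_right _ hS
      omega
    rw [hK]
    refine Nat.mul_le_mul ?_ ?_
    · have e : (C0 + 1) * L = C0 * L + L := by ring
      omega
    · have e : (C0 + C3 * (C2 + 1) + 1) * (k + S * L) =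
        C0 * (k + S * L) + C3 * (C2 + 1) * (k + S * L) + (k + S * L) := by ring
      omega
  have hcost : ∀ t' : Tr M, t' <:+ ptr M (M.run u).1 u' →
      foldCost (fun x : (In r × List (ZB 2)) × List (ZB 2) =>
        (size x.1.2 + 1) * (size x.1.2 + size x.2 + 1)) g (eT M t').reverse (zl R) ≤
        t'.length * K := by
    intro t'
    induction t' with
    | nil => intro _; simp [eT, foldCost]
    | cons x t' ih =>
      intro hx
      have h1 := ih ((List.suffix_cons x t').trans hx)
      have h2 := hstep x t' hx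
      have h3 : (eT M (x :: t')).reverse = (eT M t').reverse ++ [(x.1, zl x.2)] := by
        simp [eT]
      rw [h3, w07_fc_append]
      have h4 : (eT M t').reverse.foldl (fun s a => g (a, s)) (zl R) = zl (rbk M t' R) := by
        rw [List.foldl_reverse]
        exact hfold t' R
      rw [h4]
      simp only [foldCost, List.length_cons]
      have e : (t'.length + 1) * K = t'.length * K + K := by ring
      omega
  have h6 := hcost _ (List.suffix_refl _)
  rw [w07_len, hs] at h6
  show size (eT M (ptr M (M.run u).1 u')) + foldCost _ g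
    (eT M (ptr M (M.run u).1 u')).reverse (zl R) ≤ _
  rw [← hLe, ← hSe]
  have h7 : C1 * S * L ≤ C1 * S * L * (k + S * L) := by
    refine Nat.le_mul_of_pos_right _ ?_
    have : 0 < S * L := Nat.mul_pos (by omega) (by omega)
    omega
  have e : (C1 + (C0 + 1) * (C0 + C3 * (C2 + 1) + 1)) * S * L * (k + S * L) =
      C1 * S * L * (k + S * L) + S * K := by
    rw [hK]; ring
  rw [e]
  exact Nat.add_le_add (hT1.trans h7) h6

end Pool.Agent.WPQ
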