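import Pool.Agent.Lib.MP_2da099_lc.QT.Defs
import Pool.Agent.Lib.MP_2da099_lc.R2.N05
import Pool.Agent.Lib.MP_2da099_lc.C08
import Pool.Agent.Lib.MP_2da099_lc.R2.P05

/-!
# W10a: sums of groups of four rows

HINTS.  `CT.foldl` over the list with the state `((k, a), out)`, `k : Fin 4` the number of rows already added to `a`, `a` the partial
sum (a list); for `k < 3` add (`ct_map_zblin 2 1` is `zipWith (a + 1 • b)`), for `k = 3` output; `CT.bcase` or `ct_fincase` for the cases,
`out` lies below and is not copied; reverse at the end.  The order of the additions does not matter (the integers are added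
exactly; `a + (b + (c + d)) = ((a + b) + c) + d`).  Time: linear in the size of the state item and of the new row; the partial sum
of at most four rows has the size at most `C (1 + the sum of the sizes of the rows)` (`CT.size_le`), so the total is at most
`C (size X + 1)`.  Rows are lists `zl R` of the fixed length `n`, but `f` must be a total function: `zipWith` is fine.
-/

set_option autoImplicit false

namespace Pool.Agent.WPQ

open Pool.Agent.Lib.PolyTime Pool.Agent.WPM Pool.Agent.WPR Pool.Agent.WPU

private theorem w10a_sp {α β : Type} [Enc α] [Enc β] (a : α) (b : β) :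
    size (a, b) = size a + size b + 1 := by
  rw [size_prod]

private abbrev w10a_St : Type := (Fin 4 × List (ZB 2)) × List (List (ZB 2))

private def w10a_add (x : List (ZB 2) × (Fin 4 × List (ZB 2))) : List (ZB 2) :=
  List.zipWith (fun a b => a + (1 : ℤ) • b) x.2.2 x.1

private def w10a_g (x : List (ZB 2) × (Fin 4 × List (ZB 2))) : Bool × (Fin 4 × List (ZB 2)) :=
  (decide (x.2.1 = 3), (x.2.1 + 1, w10a_add x))

private def w10a_step (a0 : List (ZB 2)) (x : List (ZB 2) × w10a_St) : w10a_St :=
  if decide (x.2.1.1 = 3) then ((0, a0), w10a_add (x.1, x.2.1) :: x.2.2)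
  else ((x.2.1.1 + 1, w10a_add (x.1, x.2.1)), x.2.2)

private theorem w10a_lt_add : n03_LT w10a_add := by
  have h0 : n03_LT (fun x : List (ZB 2) × List (ZB 2) =>
      List.zipWith (fun a b => a + (1 : ℤ) • b) x.1 x.2) :=
    n03_of 1 (ct_map_zblin 2 1) (fun x => by rw [size_prod]; omega)
  have h1 : n03_LT (fun x : List (ZB 2) × (Fin 4 × List (ZB 2)) => x.2.2) :=
    n03_comp (g := fun x : Fin 4 × List (ZB 2) => x.2) n03_snd n03_snd
  exact n03_comp2 (h := fun x : List (ZB 2) × List (ZB 2) =>
    List.zipWith (fun a b => a + (1 : ℤ) • b) x.1 x.2) h0 h1 n03_fst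

private theorem w10a_lt_g : n03_LT w10a_g := by
  have h1 : n03_LT (fun x : List (ZB 2) × (Fin 4 × List (ZB 2)) => x.2.1) :=
    n03_comp (g := fun x : Fin 4 × List (ZB 2) => x.1) n03_fst n03_snd
  have h2 : n03_LT (fun x : List (ZB 2) × (Fin 4 × List (ZB 2)) => decide (x.2.1 = 3)) :=
    n03_comp (g := fun k : Fin 4 => decide (k = 3)) (n03_fin _) h1
  have h3 : n03_LT (fun x : List (ZB 2) × (Fin 4 × List (ZB 2)) => x.2.1 + 1) :=
    n03_comp (g := fun k : Fin 4 => k + 1) (n03_fin _) h1
  exact n03_pair h2 (n03_pair h3 w10a_lt_add)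

private theorem w10a_ct_step (a0 : List (ZB 2)) :
    CT (w10a_step a0) (fun x => size x.1 + size x.2.1) := by
  obtain ⟨κ, hκ⟩ := size_fin (Fin 4)
  obtain ⟨κ', hκ'⟩ := size_fin Bool
  have f1 : CT (fun y : w10a_St => (((0 : Fin 4), a0), y.1.2 :: y.2)) (fun _ => 0) := by
    have s1 : CT (fun y : w10a_St => (y.1.1, (y.1.2, y.2))) (fun y => size y.1.1) := CT.assocR
    have s2 : CT (fun y : Fin 4 × (List (ZB 2) × List (List (ZB 2))) => y.2) (fun y => size y.1) :=
      CT.snd
    have s3 : CT (fun y : List (ZB 2) × List (List (ZB 2)) => y.1 :: y.2) (fun _ => 0) :=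
      CT.of_enc_eq (fun _ => rfl)
    have s4 : CT (fun y : List (List (ZB 2)) => (((0 : Fin 4), a0), y)) (fun _ => 0) :=
      CT.pushConst _
    refine ((s4.comp (s3.comp (s2.comp s1))).mono (2 * κ) (fun y => ?_)).congr (fun _ => rfl)
    show size y.1.1 + size y.1.1 + 0 + 0 ≤ 2 * κ * (0 + 1)
    have := hκ y.1.1
    omega
  have f2 : CT (fun y : w10a_St => y) (fun _ => 0) := CT.of_enc_eq (fun _ => rfl)
  have s1 : CT (fun x : List (ZB 2) × w10a_St => ((x.1, x.2.1), x.2.2)) (fun x => size x.1) :=
    CT.assocL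
  have s2 : CT (fun x : (List (ZB 2) × (Fin 4 × List (ZB 2))) × List (List (ZB 2)) =>
      (w10a_g x.1, x.2)) (fun x => size x.1) := CT.first w10a_lt_g
  have s3 : CT (fun x : (Bool × (Fin 4 × List (ZB 2))) × List (List (ZB 2)) =>
      (x.1.1, (x.1.2, x.2))) (fun x => size x.1.1) := CT.assocR
  have s4 := CT.bcase f1 f2
  refine ((s4.comp (s3.comp (s2.comp s1))).mono (κ' + 3) (fun x => ?_)).congr (fun x => ?_)
  · show size x.1 + size (x.1, x.2.1) + size (decide (x.2.1.1 = 3)) +
      (if decide (x.2.1.1 = 3) then 0 else 0) ≤ (κ' + 3) * (size x.1 + size x.2.1 + 1)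
    have h1 := hκ' (decide (x.2.1.1 = 3))
    have h2 : (if decide (x.2.1.1 = 3) then 0 else 0) = 0 := by split <;> rfl
    rw [h2, w10a_sp]
    have e : (κ' + 3) * (size x.1 + size x.2.1 + 1) = κ' * (size x.1 + size x.2.1) + κ' +
      3 * (size x.1 + size x.2.1 + 1) := by ring
    omega
  · rfl

private theorem w10a_cost (a0 : List (ZB 2)) : ∃ A B : ℕ, ∀ (l : List (List (ZB 2))) (k : Fin 4)
    (a : List (ZB 2)) (out : List (List (ZB 2))),
    foldCost (fun x : List (ZB 2) × w10a_St => size x.1 + size x.2.1) (w10a_step a0) l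
      ((k, a), out) ≤ A * size l + B ^ (4 - k.val) * (size a + 1) := by
  obtain ⟨κ, hκ⟩ := size_fin (Fin 4)
  obtain ⟨D, hD⟩ := w10a_lt_add.size_le
  have hadd : ∀ (R : List (ZB 2)) (k : Fin 4) (a : List (ZB 2)),
      size (w10a_add (R, (k, a))) ≤ (D + 1) * (κ + 3) * (size R + size a + 1) := by
    intro R k a
    have h1 := hD (R, (k, a))
    have h2 : size (R, (k, a)) ≤ size R + size a + κ + 2 := by
      rw [w10a_sp, w10a_sp]
      have := hκ k
      omega
    have h3 : size (R, (k, a)) + D * (size (R, (k, a)) + 1) ≤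
        (D + 1) * (size R + size a + κ + 3) := by
      have e : (D + 1) * (size R + size a + κ + 3) =
        (size R + size a + κ + 3) + D * ((size R + size a + κ + 2) + 1) := by ring
      have h4 : D * (size (R, (k, a)) + 1) ≤ D * ((size R + size a + κ + 2) + 1) :=
        Nat.mul_le_mul_left _ (Nat.succ_le_succ h2)
      omega
    have h5 : (D + 1) * (size R + size a + κ + 3) ≤
        (D + 1) * ((κ + 3) * (size R + size a + 1)) := by
      refine Nat.mul_le_mul_left _ ?_
      have e : (κ + 3) * (size R + size a + 1) = κ * (size R + size a) + κ +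
        3 * (size R + size a + 1) := by ring
      omega
    calc size (w10a_add (R, (k, a))) ≤ _ := h1
      _ ≤ _ := h3
      _ ≤ _ := h5
      _ = _ := by ring
  set M : ℕ := (D + 1) * (κ + 3) with hM
  set E : ℕ := κ + 2 + M + 1 with hE
  refine ⟨1 + E ^ 4 * (size a0 + 1 + M), E, fun l => ?_⟩
  set A : ℕ := 1 + E ^ 4 * (size a0 + 1 + M) with hA
  have hE1 : 1 ≤ E := by omega
  induction l with
  | nil => intro k a out; exact Nat.zero_le _
  | cons R l ih =>
    intro k a out
    have hT : size R + size (k, a) ≤ size R + size a + κ + 1 := by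
      rw [w10a_sp]
      have := hκ k
      omega
    show (size R + size (k, a)) + foldCost _ (w10a_step a0) l (w10a_step a0 (R, ((k, a), out))) ≤ _
    rw [size_cons]
    by_cases hk : k = 3
    · have hst : w10a_step a0 (R, ((k, a), out)) = ((0, a0), w10a_add (R, (k, a)) :: out) := by
        unfold w10a_step
        simp [hk]
      rw [hst]
      have h1 := ih 0 a0 (w10a_add (R, (k, a)) :: out)
      have h2 : E ^ (4 - (0 : Fin 4).val) = E ^ 4 := rfl
      have h3 : E ^ (4 - k.val) = E := by
        rw [hk]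
        show E ^ 1 = E
        exact pow_one E
      rw [h2] at h1
      rw [h3]
      have e1 : A * (size R + size l + 1) = A * size l + A * size R + A := by ring
      have e2 : E * (size a + 1) = E * size a + E := by ring
      have h4 : size a ≤ E * size a := Nat.le_mul_of_pos_left _ hE1
      have h5 : size R ≤ A * size R := Nat.le_mul_of_pos_left _ (by omega)
      have h6 : E ^ 4 * (size a0 + 1) ≤ E ^ 4 * (size a0 + 1 + M) :=
        Nat.mul_le_mul_left _ (by omega)
      omega
    · have hst : w10a_step a0 (R, ((k, a), out)) = ((k + 1, w10a_add (R, (k, a))), out) := by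
        unfold w10a_step
        simp [hk]
      rw [hst]
      have h1 := ih (k + 1) (w10a_add (R, (k, a))) out
      have hk3 : k.val < 3 := by
        have h : k.val ≠ 3 := fun h => hk (Fin.ext h)
        have := k.isLt
        omega
      have hk1 : (k + 1).val = k.val + 1 := by
        rw [Fin.val_add]
        show (k.val + 1) % 4 = k.val + 1
        exact Nat.mod_eq_of_lt (by omega)
      rw [hk1] at h1
      have h2 : E ^ (4 - k.val) = E ^ (4 - (k.val + 1)) * E := by
        rw [← pow_succ]
        congr 1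
        omega
      rw [h2]
      set P : ℕ := E ^ (4 - (k.val + 1)) with hP
      have hP1 : 1 ≤ P := Nat.one_le_pow _ _ hE1
      have hP4 : P ≤ E ^ 4 := Nat.pow_le_pow_right hE1 (by omega)
      have h3 := hadd R k a
      have h4 : P * (size (w10a_add (R, (k, a))) + 1) ≤ P * (M * (size R + size a + 1) + 1) :=
        Nat.mul_le_mul_left _ (by omega)
      have e1 : P * (M * (size R + size a + 1) + 1) = P * M * size R + P * M * (size a + 1) + P := by
        ring
      have h5 : P * M * size R ≤ E ^ 4 * (size a0 + 1 + M) * size R := by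
        refine Nat.mul_le_mul_right _ (Nat.mul_le_mul hP4 (by omega))
      have e2 : A * (size R + size l + 1) = A * size l + A * size R + A := by ring
      have e3 : A * size R = size R + E ^ 4 * (size a0 + 1 + M) * size R := by
        rw [hA]
        ring
      have e4 : P * E * (size a + 1) = P * M * (size a + 1) + P * (κ + 3) * (size a + 1) := by
        rw [hE]
        ring
      have h6 : (size a + κ + 1) + P ≤ P * (κ + 3) * (size a + 1) := by
        have h7 : P * (κ + 3) * (size a + 1) = P * ((κ + 2) * (size a + 1)) + P * (size a + 1) := by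
          ring
        have h8 : (κ + 2) * (size a + 1) ≤ P * ((κ + 2) * (size a + 1)) :=
          Nat.le_mul_of_pos_left _ hP1
        have h9 : (κ + 2) * (size a + 1) = κ * size a + κ + 2 * size a + 2 := by ring
        have h10 : P ≤ P * (size a + 1) := Nat.le_mul_of_pos_right _ (Nat.succ_pos _)
        omega
      omega

private theorem w10a_zl {n : ℕ} (x y : Fin n → ℤ) (k : Fin 4) :
    w10a_add (zl y, (k, zl x)) = zl (x + y) := by
  unfold w10a_add zl
  refine List.ext_getElem (by simp) (fun i h1 h2 => ?_)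
  rw [List.getElem_zipWith, List.getElem_ofFn, List.getElem_ofFn, List.getElem_ofFn]
  show (x _ : ℤ) + (1 : ℤ) • (y _ : ℤ) = x _ + y _
  rw [one_smul]

private theorem w10a_s {n : ℕ} (k : Fin 4) (x y : Fin n → ℤ) (out : List (List (ZB 2)))
    (hk : k ≠ 3) : w10a_step (zl (0 : Fin n → ℤ)) (zl y, ((k, zl x), out)) =
      ((k + 1, zl (x + y)), out) := by
  unfold w10a_step
  rw [if_neg (by simpa using hk)]
  show ((k + 1, w10a_add (zl y, (k, zl x))), out) = _
  rw [w10a_zl]

private theorem w10a_s3 {n : ℕ} (x y : Fin n → ℤ) (out : List (List (ZB 2))) :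
    w10a_step (zl (0 : Fin n → ℤ)) (zl y, (((3 : Fin 4), zl x), out)) =
      ((0, zl (0 : Fin n → ℤ)), zl (x + y) :: out) := by
  unfold w10a_step
  rw [if_pos (by simp)]
  show ((0, zl (0 : Fin n → ℤ)), w10a_add (zl y, ((3 : Fin 4), zl x)) :: out) = _
  rw [w10a_zl]

private theorem w10a_sem {n : ℕ} : ∀ (X : List (Fin n → ℤ)) (out : List (List (ZB 2))),
    ((X.map zl).foldl (fun s a => w10a_step (zl (0 : Fin n → ℤ)) (a, s))
      (((0 : Fin 4), zl (0 : Fin n → ℤ)), out)).2 = ((sum4 X).map zl).reverse ++ out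
  | [], out => rfl
  | [a], out => by
    simp only [List.map_cons, List.map_nil, List.foldl_cons, List.foldl_nil]
    rw [w10a_s _ _ _ _ (by decide)]
    rfl
  | [a, b], out => by
    simp only [List.map_cons, List.map_nil, List.foldl_cons, List.foldl_nil]
    rw [w10a_s _ _ _ _ (by decide), w10a_s _ _ _ _ (by decide)]
    rfl
  | [a, b, c], out => by
    simp only [List.map_cons, List.map_nil, List.foldl_cons, List.foldl_nil]
    rw [w10a_s _ _ _ _ (by decide), w10a_s _ _ _ _ (by decide), w10a_s _ _ _ _ (by decide)]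
    rfl
  | a :: b :: c :: d :: l, out => by
    have ih := w10a_sem l (zl (a + (b + (c + d))) :: out)
    simp only [List.map_cons, List.foldl_cons]
    have e : (0 : Fin 4) + 1 + 1 + 1 = 3 := rfl
    rw [w10a_s _ _ _ _ (by decide), w10a_s _ _ _ _ (by decide), w10a_s _ _ _ _ (by decide), e,
      w10a_s3]
    have e2 : 0 + a + b + c + d = a + (b + (c + d)) := by
      rw [zero_add, add_assoc, add_assoc]
    rw [e2, ih]
    show _ = ((zl (a + (b + (c + d))) :: (sum4 l).map zl)).reverse ++ out
    rw [List.reverse_cons, List.append_assoc]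
    rfl

theorem ct_sum4 (n : ℕ) : ∃ f : List (List (ZB 2)) → List (List (ZB 2)),
    CT f (fun X => size X) ∧ ∀ X : List (Fin n → ℤ), f (X.map zl) = (sum4 X).map zl := by
  set a0 : List (ZB 2) := zl (0 : Fin n → ℤ) with ha0
  obtain ⟨A, B, hAB⟩ := w10a_cost a0
  have h1 : CT (fun X : List (List (ZB 2)) => (X, (((0 : Fin 4), a0), ([] : List (List (ZB 2))))))
      (fun X => size X) := p05_input _
  have h2 := CT.foldl (w10a_ct_step a0)
  have h3 : n03_LT (fun X : List (List (ZB 2)) =>
      X.foldl (fun s a => w10a_step a0 (a, s)) (((0 : Fin 4), a0), ([] : List (List (ZB 2))))) := by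
    refine (h2.comp h1).mono (2 + A + B ^ 4 * (size a0 + 1)) (fun X => ?_)
    have h := hAB X 0 a0 []
    have e0 : B ^ (4 - (0 : Fin 4).val) = B ^ 4 := rfl
    rw [e0] at h
    show size X + (size X + foldCost _ (w10a_step a0) X (((0 : Fin 4), a0), [])) ≤ _
    have e : (2 + A + B ^ 4 * (size a0 + 1)) * (size X + 1) = 2 * size X + A * size X +
      B ^ 4 * (size a0 + 1) + (B ^ 4 * (size a0 + 1) * size X + 2 + A) := by ring
    omega
  have h4 : n03_LT (fun X : List (List (ZB 2)) =>
      (X.foldl (fun s a => w10a_step a0 (a, s))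
        (((0 : Fin 4), a0), ([] : List (List (ZB 2))))).2) :=
    n03_comp (g := fun x : w10a_St => x.2) n03_snd h3
  refine ⟨_, n03_comp (g := fun x : List (List (ZB 2)) => x.reverse) n03_reverse h4, fun X => ?_⟩
  show ((X.map zl).foldl (fun s a => w10a_step (zl (0 : Fin n → ℤ)) (a, s))
      (((0 : Fin 4), zl (0 : Fin n → ℤ)), [])).2.reverse = _
  rw [w10a_sem, List.append_nil, List.reverse_reverse]

end Pool.Agent.WPQ
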