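import Pool.Agent.Lib.MP_2da099_lc.QT.Defs
import Pool.Agent.Lib.MP_2da099_lc.QT.W04a
import Pool.Agent.Lib.MP_2da099_lc.QT.W04b
import Pool.Agent.Lib.MP_2da099_lc.QT.W07
import Pool.Agent.Lib.MP_2da099_lc.QT.W10a
import Pool.Agent.Lib.MP_2da099_lc.R2.P05
import Pool.Agent.Lib.MP_2da099_lc.C09

/-!
# W10b: one level up

HINTS.  `ct_zipWith` of `ct_bck` and `ct_sum4`.  All traces have the size at most `C 2 ^ i lg N` (`size_eT`), all rows of `X` at most
`C (C0 2 ^ i lg N + 1)` (`size_zl`), the results `rbk M t R` are bounded by `2 ^ (C' 2 ^ i lg N)` (`rbk_bound`), so their sizes are at most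
`C 2 ^ i lg N`; each `ct_bck` costs at most `C 2 ^ i lg N (C0 2 ^ i lg N + 2 ^ i lg N) ≤ C 4 ^ i lg N ^ 2`.  Sums over the zipped list: at most
(number of members) times the maximum.
-/

set_option autoImplicit false

namespace Pool.Agent.WPQ

open Pool.Agent.Lib.PolyTime Pool.Agent.WPM Pool.Agent.WPR Pool.Agent.WPU

private theorem w10b_sum {α : Type} (T : α → ℕ) (K : ℕ) (l : List α) (h : ∀ a ∈ l, T a ≤ K) :
    (l.map T).sum ≤ l.length * K := by
  induction l with
  | nil => simp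
  | cons a l ih =>
    rw [List.map_cons, List.sum_cons, List.length_cons]
    have h1 := h a (by simp)
    have h2 := ih (fun b hb => h b (by simp [hb]))
    have e : (l.length + 1) * K = l.length * K + K := by ring
    omega

private theorem w10b_arith (n P C0 C1 C2 C3 C4 : ℕ) (hP : 1 ≤ P) :
    (n + 1) * (C1 * P + 1) + (n + 1) * (C2 * (C0 * P + 1) + 1) + n * (C3 * P * (C0 * P + P)) +
      (n + 1) * (C2 * ((C0 * P + C4 * P) + 1) + 1) ≤
    (C1 + 1 + (C2 * (C0 + 1) + 1) + C3 * (C0 + 1) + (C2 * (C0 + C4 + 1) + 1)) * (n + 1) * P ^ 2 := by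
  have h1 : P ≤ P ^ 2 := by nlinarith
  have h0 : 1 ≤ P ^ 2 := le_trans hP h1
  have a1 : (n + 1) * (C1 * P + 1) ≤ (n + 1) * ((C1 + 1) * P ^ 2) := by
    apply Nat.mul_le_mul_left
    have := Nat.mul_le_mul_left C1 h1
    have e : (C1 + 1) * P ^ 2 = C1 * P ^ 2 + P ^ 2 := by ring
    omega
  have a2 : (n + 1) * (C2 * (C0 * P + 1) + 1) ≤ (n + 1) * ((C2 * (C0 + 1) + 1) * P ^ 2) := by
    apply Nat.mul_le_mul_left
    have b1 : C0 * P + 1 ≤ (C0 + 1) * P ^ 2 := by
      have := Nat.mul_le_mul_left C0 h1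
      have e : (C0 + 1) * P ^ 2 = C0 * P ^ 2 + P ^ 2 := by ring
      omega
    have b2 := Nat.mul_le_mul_left C2 b1
    have e : (C2 * (C0 + 1) + 1) * P ^ 2 = C2 * ((C0 + 1) * P ^ 2) + P ^ 2 := by ring
    omega
  have a3 : n * (C3 * P * (C0 * P + P)) ≤ (n + 1) * (C3 * (C0 + 1) * P ^ 2) := by
    have e : C3 * P * (C0 * P + P) = C3 * (C0 + 1) * P ^ 2 := by ring
    rw [e]
    exact Nat.mul_le_mul_right _ (Nat.le_succ n)
  have a4 : (n + 1) * (C2 * ((C0 * P + C4 * P) + 1) + 1) ≤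
      (n + 1) * ((C2 * (C0 + C4 + 1) + 1) * P ^ 2) := by
    apply Nat.mul_le_mul_left
    have b1 : (C0 * P + C4 * P) + 1 ≤ (C0 + C4 + 1) * P ^ 2 := by
      have := Nat.mul_le_mul_left (C0 + C4) h1
      have e : (C0 + C4 + 1) * P ^ 2 = (C0 + C4) * P ^ 2 + P ^ 2 := by ring
      have e' : (C0 + C4) * P = C0 * P + C4 * P := by ring
      omega
    have b2 := Nat.mul_le_mul_left C2 b1
    have e : (C2 * (C0 + C4 + 1) + 1) * P ^ 2 = C2 * ((C0 + C4 + 1) * P ^ 2) + P ^ 2 := by ring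
    omega
  have e : (C1 + 1 + (C2 * (C0 + 1) + 1) + C3 * (C0 + 1) + (C2 * (C0 + C4 + 1) + 1)) * (n + 1) *
      P ^ 2 = (n + 1) * ((C1 + 1) * P ^ 2) + (n + 1) * ((C2 * (C0 + 1) + 1) * P ^ 2) +
      (n + 1) * (C3 * (C0 + 1) * P ^ 2) + (n + 1) * ((C2 * (C0 + C4 + 1) + 1) * P ^ 2) := by ring
  rw [e]
  omega

theorem ct_ustep {r : ℕ} (M : BM (In r)) (hM : M.Tame) (C0 : ℕ) :
    ∃ (f : List (ETr r) × List (List (ZB 2)) → List (List (ZB 2)))
      (T : List (ETr r) × List (List (ZB 2)) → ℕ) (C : ℕ), CT f T ∧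
      (∀ (t : List (Tr M)) (X : List (Fin M.N2 → ℤ)),
        f (t.map (eT M), X.map zl) = (ustep M X t).map zl) ∧
      ∀ (N i : ℕ) (t : List (Tr M)) (X : List (Fin M.N2 → ℤ)), (∀ x ∈ t, Vt M N i x) →
        (∀ R ∈ X, ∀ j, (R j).natAbs ≤ 2 ^ (C0 * 2 ^ i * lg N)) → X.length = t.length →
        T (t.map (eT M), X.map zl) ≤ C * (t.length + 1) * 4 ^ i * lg N ^ 2 := by
  obtain ⟨f0, T0, C3, hf0, hf1, hf2⟩ := ct_bck M hM
  obtain ⟨g4, hg, hg1⟩ := ct_sum4 M.N2
  obtain ⟨C1, hC1⟩ := size_eT M hM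
  obtain ⟨C2, hC2⟩ := size_zl M.N2
  obtain ⟨C4, hC4⟩ := rbk_bound M hM
  have hz := ct_zipWith hf0
  have hval : ∀ (t : List (Tr M)) (X : List (Fin M.N2 → ℤ)),
      List.zipWith (fun a b => f0 (a, b)) (t.map (eT M)) (X.map zl) =
        (List.zipWith (fun t R => rbk M t R) t X).map zl := by
    intro t X
    rw [List.zipWith_map, List.map_zipWith]
    congr 1
    funext a b
    exact hf1 a b
  refine ⟨_, _, (C1 + 1 + (C2 * (C0 + 1) + 1) + C3 * (C0 + 1) + (C2 * (C0 + C4 + 1) + 1)),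
    hg.comp hz, ?_, ?_⟩
  · intro t X
    show g4 (List.zipWith (fun a b => f0 (a, b)) (t.map (eT M)) (X.map zl)) = _
    rw [hval, hg1]
    rfl
  · intro N i t X ht hX hlen
    show size (t.map (eT M)) + size (X.map zl) +
        (((t.map (eT M)).zip (X.map zl)).map T0).sum +
        size (List.zipWith (fun a b => f0 (a, b)) (t.map (eT M)) (X.map zl)) ≤ _
    rw [hval]
    have hL : 1 ≤ lg N := one_le_lg N
    set P : ℕ := 2 ^ i * lg N with hPdef
    have hP : 1 ≤ P := Nat.one_le_iff_ne_zero.mpr (by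
      have : 0 < 2 ^ i := by positivity
      have : 0 < 2 ^ i * lg N := Nat.mul_pos this (by omega)
      omega)
    have hC0P : C0 * 2 ^ i * lg N = C0 * P := by rw [hPdef]; ring
    have s1 : size (t.map (eT M)) ≤ (C1 * P + 1) * ((t.map (eT M)).length + 1) := by
      refine (size_list_le_of (C1 * P) _ ?_).trans ?_
      · intro a ha
        obtain ⟨x, hx, rfl⟩ := List.mem_map.mp ha
        refine (hC1 N i x (ht x hx)).trans (le_of_eq ?_)
        rw [hPdef]; ring
      · exact le_refl _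
    have s2 : size (X.map zl) ≤ (C2 * (C0 * P + 1) + 1) * ((X.map zl).length + 1) := by
      refine (size_list_le_of (C2 * (C0 * P + 1)) _ ?_).trans ?_
      · intro a ha
        obtain ⟨x, hx, rfl⟩ := List.mem_map.mp ha
        exact hC2 x (C0 * P) (fun j => by rw [← hC0P]; exact hX x hx j)
      · exact le_refl _
    have s3 : (((t.map (eT M)).zip (X.map zl)).map T0).sum ≤
        ((t.map (eT M)).zip (X.map zl)).length * (C3 * P * (C0 * P + P)) := by
      apply w10b_sum
      intro a ha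
      rw [List.zip_map] at ha
      obtain ⟨x, hx, rfl⟩ := List.mem_map.mp ha
      have hx1 := (List.of_mem_zip hx).1
      have hx2 := (List.of_mem_zip hx).2
      refine (hf2 N i x.1 (C0 * P) x.2 (ht _ hx1)
        (fun j => by rw [← hC0P]; exact hX _ hx2 j)).trans (le_of_eq ?_)
      rw [hPdef]; ring
    have s4 : size ((List.zipWith (fun t R => rbk M t R) t X).map zl) ≤
        (C2 * ((C0 * P + C4 * P) + 1) + 1) *
          (((List.zipWith (fun t R => rbk M t R) t X).map zl).length + 1) := by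
      refine (size_list_le_of (C2 * ((C0 * P + C4 * P) + 1)) _ ?_).trans ?_
      · intro a ha
        obtain ⟨x, hx, rfl⟩ := List.mem_map.mp ha
        rw [← List.map_uncurry_zip_eq_zipWith] at hx
        obtain ⟨y, hy, rfl⟩ := List.mem_map.mp hx
        have hy1 := (List.of_mem_zip hy).1
        have hy2 := (List.of_mem_zip hy).2
        obtain ⟨u, u', hu, hu', htr⟩ := ht _ hy1
        refine hC2 _ (C0 * P + C4 * P) (fun j => ?_)
        have hb := hC4 N u u' (C0 * P) y.2 hu (fun j => by rw [← hC0P]; exact hX _ hy2 j)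
          y.1 (by rw [htr]) j
        show (rbk M y.1 y.2 j).natAbs ≤ _
        refine hb.trans (le_of_eq ?_)
        rw [hu', hPdef]
        ring_nf
      · exact le_refl _
    have l1 : (t.map (eT M)).length = t.length := List.length_map ..
    have l2 : (X.map zl).length = t.length := by rw [List.length_map, hlen]
    have l3 : ((t.map (eT M)).zip (X.map zl)).length = t.length := by
      rw [List.length_zip, l1, l2, min_self]
    have l4 : ((List.zipWith (fun t R => rbk M t R) t X).map zl).length = t.length := by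
      rw [List.length_map, List.length_zipWith, hlen, min_self]
    rw [l1] at s1
    rw [l2] at s2
    rw [l3] at s3
    rw [l4] at s4
    have key := w10b_arith t.length P C0 C1 C2 C3 C4 hP
    have e4 : (4 : ℕ) ^ i = 2 ^ i * 2 ^ i := by
      rw [← mul_pow]
      norm_num
    have eP : ∀ K : ℕ, K * (t.length + 1) * 4 ^ i * lg N ^ 2 = K * (t.length + 1) * P ^ 2 := by
      intro K
      rw [hPdef, e4]; ring
    rw [eP]
    refine le_trans ?_ key
    rw [Nat.mul_comm (t.length + 1) (C1 * P + 1),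
      Nat.mul_comm (t.length + 1) (C2 * (C0 * P + 1) + 1),
      Nat.mul_comm (t.length + 1) (C2 * ((C0 * P + C4 * P) + 1) + 1)]
    omega

end Pool.Agent.WPQ
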