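import Pool.Agent.Lib.MP_2da099_lc.QT.Defs
import Pool.Agent.Lib.MP_2da099_lc.QT.W04a
import Pool.Agent.Lib.MP_2da099_lc.QT.W04b
import Pool.Agent.Lib.MP_2da099_lc.QT.W05
import Pool.Agent.Lib.MP_2da099_lc.QT.W08a
import Pool.Agent.Lib.MP_2da099_lc.QT.W09a
import Pool.Agent.Lib.MP_2da099_lc.QT.W10b
import Pool.Agent.Lib.MP_2da099_lc.C05
import Pool.Agent.Lib.MP_2da099_lc.C06
import Pool.Agent.Lib.MP_2da099_lc.R2.P05

/-!
# W10c: the time of going up

HINTS.  Base: `ct_map` of `(p, (U, V)) ↦ ebas ((headD U, headD V), p)` (`ct_ebas`; `headD none` by `CT.lcase`, for a list of `Option`s it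
copies only the head; dropping the tails costs their sizes).  Then `CT.foldl` over the list `ts` with the step `(t, X) ↦ ustep`
(`ct_ustep` with `C0` = the constant of `rval_bound`, swap the arguments if necessary).  Time: `dn_valid` for `[j]`: the `i`-th list of
the stack has `4 ^ (s - i)` traces, all `Vt M N i`; before its step the rows are the rows `rj M c i` of the jobs of the scale `i`, all
valid, so bounded by `2 ^ (C0 2 ^ i lg N)`.  Every level costs at most `C 4 ^ s lg N ^ 2 ≤ C N ^ 2 lg N ^ 2`, there are `s ≤ lg N` levels.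
Organize as an induction on `s` over lists `J` of valid jobs with `dn_succ` and `up_dn`: the cost for `dn M (s + 1) J` is the cost for
`dn M s J'` (`J'` = the children, `4 J.length` of them) plus one step with the traces of the scale `s`, where the rows are
`J'.map (rj M c s)` (`up_dn`).  The size of the stack is at most `C N ^ 2 lg N ^ 2` (`size_eT`).
-/

set_option autoImplicit false

namespace Pool.Agent.WPQ

open Pool.Agent.Lib.PolyTime Pool.Agent.WPM Pool.Agent.WPR Pool.Agent.WPU

/-- the head of a list of options -/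
private theorem w10c_head {ι β : Type} [Enc ι] [Enc β] :
    CT (fun x : List (Option ι) × β => (x.1.headD none, x.2)) (fun x => size x.1) := by
  have hf : CT (fun b : β => ((none : Option ι), b)) (fun _ => 0) := CT.pushConst none
  have h1 : CT (fun x : (Option ι × List (Option ι)) × β => (x.1.1, (x.1.2, x.2))) _ := CT.assocR
  have h2 : CT (fun x : Option ι × (List (Option ι) × β) => (x.1, x.2.2)) _ :=
    CT.second (γ := Option ι) (CT.snd (α := List (Option ι)) (β := β))
  have hg := h2.comp h1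
  refine ((CT.lcase hf hg).mono 2 (fun x => ?_)).congr (fun x => ?_)
  · obtain ⟨l, b⟩ := x
    cases l with
    | nil =>
      show 0 ≤ _
      exact Nat.zero_le _
    | cons a l =>
      show size a + (size a + size l) ≤ 2 * (size (a :: l) + 1)
      rw [size_cons]
      omega
  · obtain ⟨l, b⟩ := x
    cases l <;> rfl

/-- the rows of the jobs of the scale `0` -/
private def w10c_fb {r : ℕ} (fe : In r × List (ZB 2) → List (ZB 2)) (x : EJ r) : List (ZB 2) :=
  fe ((x.2.1.headD none, x.2.2.headD none), x.1)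

private theorem w10c_base {r : ℕ} {fe : In r × List (ZB 2) → List (ZB 2)}
    (h : CT fe (fun x => size x.2)) : CT (w10c_fb (r := r) fe) (fun x => size x) := by
  have s1 : CT (fun x : EJ r => (x.2, x.1)) (fun x => size x.1 + size x.2) := CT.swap
  have s2 : CT (fun x : (List (Ol r) × List (Ol r)) × List (ZB 2) => (x.1.1, (x.1.2, x.2)))
      (fun x => size x.1.1) := CT.assocR
  have s3 : CT (fun x : List (Ol r) × (List (Ol r) × List (ZB 2)) => (x.1.headD none, x.2))
      (fun x => size x.1) := w10c_head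
  have s4 : CT (fun x : Ol r × (List (Ol r) × List (ZB 2)) => (x.1, (x.2.1.headD none, x.2.2)))
      (fun x => size x.1 + size x.2.1) := CT.second w10c_head
  have s5 : CT (fun x : Ol r × (Ol r × List (ZB 2)) => ((x.1, x.2.1), x.2.2))
      (fun x => size x.1) := CT.assocL
  obtain ⟨κ, hκ⟩ := size_fin (Ol r)
  refine ((h.comp (s5.comp (s4.comp (s3.comp (s2.comp s1))))).mono (2 * κ + 6) (fun x => ?_)).congr
    (fun x => rfl)
  have k1 := hκ (x.2.1.headD none)
  have e1 : size x = size x.1 + size x.2 + 1 := size_prod _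
  have e2 : size x.2 = size x.2.1 + size x.2.2 + 1 := size_prod _
  obtain ⟨u, hu⟩ : ∃ u, u = size (x.2.1.headD none) := ⟨_, rfl⟩
  rw [← hu] at k1
  obtain ⟨a, ha⟩ : ∃ a, a = size x.1 := ⟨_, rfl⟩
  obtain ⟨b, hb⟩ : ∃ b, b = size x.2.1 := ⟨_, rfl⟩
  obtain ⟨c, hc⟩ : ∃ c, c = size x.2.2 := ⟨_, rfl⟩
  show size x.1 + size x.2 + size x.2.1 + size x.2.1 + (size (x.2.1.headD none) + size x.2.2) +
    size (x.2.1.headD none) + size x.1 ≤ (2 * κ + 6) * (size x + 1)
  rw [e1, e2, ← hu, ← ha, ← hb, ← hc]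
  have e3 : (2 * κ + 6) * (a + (b + c + 1) + 1 + 1) =
      2 * κ * (a + (b + c + 1) + 1) + 2 * κ + 6 * (a + (b + c + 1) + 1 + 1) := by ring
  rw [e3]
  have e4 := Nat.zero_le (2 * κ * (a + (b + c + 1) + 1))
  omega

section gen

variable {α β σ : Type} [Enc α] [Enc β] [Enc σ]

private theorem w10c_map {f : β → σ} (h : CT f (fun x => size x)) :
    CT (fun L : List β => L.map f) (fun L => size L) := by
  refine ((ct_map h).mono 2 (fun L => ?_)).congr (fun L => rfl)
  have h3 := p05_sum_size_le L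
  show size L + (L.map (fun x => size x)).sum ≤ 2 * (size L + 1)
  omega

private def w10c_f (fu : α × List σ → List σ) (fb : β → σ) (x : List α × List β) : List σ :=
  x.1.foldl (fun s a => fu (a, s)) (x.2.map fb)

private def w10c_T (Tu : α × List σ → ℕ) (fu : α × List σ → List σ) (fb : β → σ)
    (x : List α × List β) : ℕ :=
  size x.1 + size x.2 + foldCost Tu fu x.1 (x.2.map fb)

private theorem w10c_ct {fu : α × List σ → List σ} {Tu : α × List σ → ℕ} {fb : β → σ}
    (hu : CT fu Tu) (hb : CT fb (fun x => size x)) :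
    CT (w10c_f fu fb) (w10c_T Tu fu fb) := by
  have h1 := CT.foldl hu
  have h2 : CT (fun x : List α × List β => (x.1, x.2.map fb)) (fun x => size x.1 + size x.2) :=
    CT.second (w10c_map hb)
  refine ((h1.comp h2).mono 2 (fun x => ?_)).congr (fun x => rfl)
  show size x.1 + size x.2 + (size x.1 + foldCost Tu fu x.1 (x.2.map fb)) ≤
    2 * (size x.1 + size x.2 + foldCost Tu fu x.1 (x.2.map fb) + 1)
  omega

private theorem w10c_fc {τ ρ : Type} (T : τ × ρ → ℕ) (step : τ × ρ → ρ) (l l' : List τ) :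
    ∀ s : ρ, foldCost T step (l ++ l') s =
      foldCost T step l s + foldCost T step l' (l.foldl (fun s a => step (a, s)) s) := by
  induction l with
  | nil =>
    intro s
    show foldCost T step l' s = 0 + foldCost T step l' s
    rw [zero_add]
  | cons a l ih =>
    intro s
    show T (a, s) + foldCost T step (l ++ l') (step (a, s)) =
      T (a, s) + foldCost T step l (step (a, s)) +
        foldCost T step l' (l.foldl (fun s a => step (a, s)) (step (a, s)))
    rw [ih, add_assoc]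

end gen

private theorem w10c_sem {r : ℕ} (M : BM (In r))
    {fu : List (ETr r) × List (List (ZB 2)) → List (List (ZB 2))}
    (hfu : ∀ (t : List (Tr M)) (X : List (Fin M.N2 → ℤ)),
      fu (t.map (eT M), X.map zl) = (ustep M X t).map zl) (ts : List (List (Tr M))) :
    ∀ X : List (Fin M.N2 → ℤ),
      (ts.map (fun t => t.map (eT M))).foldl (fun s a => fu (a, s)) (X.map zl) =
        (up M ts X).map zl := by
  induction ts with
  | nil => intro X; rfl
  | cons t ts ih =>
    intro X
    rw [List.map_cons, List.foldl_cons, hfu]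
    exact ih (ustep M X t)

private theorem w10c_len {r : ℕ} (M : BM (In r)) (h : ℕ) (J : List (Jb M)) :
    (J.flatMap (splitJ M h)).length = J.length * 4 := by
  induction J with
  | nil => rfl
  | cons j J ih =>
    rw [List.flatMap_cons, List.length_append, ih, split_length, List.length_cons]
    omega

/-- the cost of all levels and the size of the stack -/
private theorem w10c_all {r : ℕ} (M : BM (In r))
    (c : Ol r → Ol r → Fin M.N1 → Fin M.N2 → ℤ)
    {fu : List (ETr r) × List (List (ZB 2)) → List (List (ZB 2))}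
    {Tu : List (ETr r) × List (List (ZB 2)) → ℕ} {C0 Cu Ct : ℕ}
    (hfu : ∀ (t : List (Tr M)) (X : List (Fin M.N2 → ℤ)),
      fu (t.map (eT M), X.map zl) = (ustep M X t).map zl)
    (hTu : ∀ (N i : ℕ) (t : List (Tr M)) (X : List (Fin M.N2 → ℤ)), (∀ x ∈ t, Vt M N i x) →
      (∀ R ∈ X, ∀ j, (R j).natAbs ≤ 2 ^ (C0 * 2 ^ i * lg N)) → X.length = t.length →
      Tu (t.map (eT M), X.map zl) ≤ Cu * (t.length + 1) * 4 ^ i * lg N ^ 2)
    (hC0 : ∀ (N s : ℕ) (j : Jb M), Vj M N s j → ∀ i,
      (rj M c s j i).natAbs ≤ 2 ^ (C0 * 2 ^ s * lg N))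
    (hCt : ∀ (N s : ℕ) (t : Tr M), Vt M N s t → size (eT M t) ≤ Ct * 2 ^ s * lg N)
    (N D : ℕ) (s : ℕ) : ∀ (J : List (Jb M)), (∀ j ∈ J, Vj M N s j) → (J.length + 1) * 4 ^ s ≤ D →
      foldCost Tu fu ((dn M s J).2.map (fun t => t.map (eT M)))
        (((dn M s J).1.map (bas M c)).map zl) ≤ s * (Cu * (D * lg N ^ 2)) ∧
      size ((dn M s J).2.map (fun t => t.map (eT M))) ≤ 1 + s * ((Ct + 2) * (D * lg N ^ 2)) := by
  induction s with
  | zero =>
    intro J _ _
    refine ⟨?_, ?_⟩
    · show 0 ≤ _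
      exact Nat.zero_le _
    · show size ([] : List (List (ETr r))) ≤ _
      rw [size_nil]
      omega
  | succ s ih =>
    intro J hJ hD
    have hv : ∀ x ∈ J.flatMap (splitJ M (2 ^ s)), Vt M N s x.1 ∧ Vj M N s x.2 := by
      intro x hx
      obtain ⟨j, hj, hxj⟩ := List.mem_flatMap.1 hx
      exact split_valid M N s j (hJ j hj) x hxj
    have hlen := w10c_len M (2 ^ s) J
    obtain ⟨L, hL⟩ : ∃ L, L = J.flatMap (splitJ M (2 ^ s)) := ⟨_, rfl⟩
    have hdn := dn_succ M s J
    rw [← hL] at hv hlen hdn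
    have hD2 : (J.length * 4 + 1) * 4 ^ s ≤ D := by
      refine le_trans ?_ hD
      calc (J.length * 4 + 1) * 4 ^ s ≤ ((J.length + 1) * 4) * 4 ^ s :=
            Nat.mul_le_mul_right _ (by omega)
        _ = (J.length + 1) * 4 ^ (s + 1) := by ring
    obtain ⟨ih1, ih2⟩ := ih (L.map Prod.snd) (fun j hj => by
      obtain ⟨x, hx, rfl⟩ := List.mem_map.1 hj
      exact (hv x hx).2) (by
      rw [List.length_map, hlen]
      exact hD2)
    have hup := up_dn M c s (L.map Prod.snd)
    have hlg := one_le_lg N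
    rw [hdn]
    simp only
    rw [List.map_append, List.map_singleton]
    refine ⟨?_, ?_⟩
    · rw [w10c_fc, w10c_sem M hfu, hup]
      show _ + (Tu ((L.map Prod.fst).map (eT M), ((L.map Prod.snd).map (rj M c s)).map zl) + 0) ≤ _
      have h1 := hTu N s (L.map Prod.fst) ((L.map Prod.snd).map (rj M c s)) (fun x hx => by
        obtain ⟨y, hy, rfl⟩ := List.mem_map.1 hx
        exact (hv y hy).1) (fun R hR i => by
        obtain ⟨j, hj, rfl⟩ := List.mem_map.1 hR
        obtain ⟨y, hy, rfl⟩ := List.mem_map.1 hj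
        exact hC0 N s y.2 (hv y hy).2 i) (by
        rw [List.length_map, List.length_map, List.length_map])
      rw [List.length_map, hlen] at h1
      have h2 : Cu * (J.length * 4 + 1) * 4 ^ s * lg N ^ 2 ≤ Cu * (D * lg N ^ 2) := by
        have h3 := Nat.mul_le_mul_left Cu (Nat.mul_le_mul_right (lg N ^ 2) hD2)
        refine le_trans (le_of_eq ?_) h3
        ring
      have e : (s + 1) * (Cu * (D * lg N ^ 2)) =
          s * (Cu * (D * lg N ^ 2)) + Cu * (D * lg N ^ 2) := by ring
      rw [e, add_zero]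
      exact Nat.add_le_add ih1 (h1.trans h2)
    · have h1 := size_append ((dn M s (L.map Prod.snd)).2.map (fun t => t.map (eT M)))
        [(L.map Prod.fst).map (eT M)]
      rw [size_cons, size_nil] at h1
      have h2 := size_list_le_of (Ct * 2 ^ s * lg N) ((L.map Prod.fst).map (eT M))
        (fun a ha => by
          obtain ⟨t, ht, rfl⟩ := List.mem_map.1 ha
          obtain ⟨y, hy, rfl⟩ := List.mem_map.1 ht
          exact hCt N s y.1 (hv y hy).1)
      rw [List.length_map, List.length_map, hlen] at h2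
      have h3 : (Ct * 2 ^ s * lg N + 1) * (J.length * 4 + 1) ≤ (Ct + 1) * (D * lg N ^ 2) := by
        have a1 : 2 ^ s ≤ 4 ^ s := Nat.pow_le_pow_left (by norm_num) s
        have a2 : 1 ≤ 2 ^ s := Nat.one_le_two_pow
        have a3 : 1 ≤ 2 ^ s * lg N := Nat.mul_pos a2 hlg
        calc (Ct * 2 ^ s * lg N + 1) * (J.length * 4 + 1)
            ≤ ((Ct + 1) * (2 ^ s * lg N)) * (J.length * 4 + 1) := by
              refine Nat.mul_le_mul_right _ ?_
              have e : (Ct + 1) * (2 ^ s * lg N) = Ct * 2 ^ s * lg N + 2 ^ s * lg N := by ring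
              rw [e]
              exact Nat.add_le_add_left a3 _
          _ = (Ct + 1) * (((J.length * 4 + 1) * 2 ^ s) * lg N) := by ring
          _ ≤ (Ct + 1) * (((J.length * 4 + 1) * 4 ^ s) * lg N) := by
              exact Nat.mul_le_mul_left _ (Nat.mul_le_mul_right _ (Nat.mul_le_mul_left _ a1))
          _ ≤ (Ct + 1) * (D * lg N ^ 2) := by
              exact Nat.mul_le_mul_left _ (Nat.mul_le_mul hD2 (Nat.le_self_pow (by norm_num) _))
      have h4 : 1 ≤ D * lg N ^ 2 := by
        have a1 : 1 ≤ 4 ^ s := Nat.one_le_pow _ _ (by norm_num)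
        have a2 : 1 ≤ (J.length * 4 + 1) * 4 ^ s := Nat.mul_pos (Nat.succ_pos _) a1
        exact Nat.mul_pos (a2.trans hD2) (Nat.one_le_pow _ _ hlg)
      obtain ⟨Z, hZ⟩ : ∃ Z, Z = D * lg N ^ 2 := ⟨_, rfl⟩
      rw [← hZ] at h3 h4 ih2 ⊢
      have e : 1 + (s + 1) * ((Ct + 2) * Z) = 1 + s * ((Ct + 2) * Z) + (Ct + 1) * Z + Z := by ring
      rw [e]
      omega

theorem ct_up {r : ℕ} (M : BM (In r)) (hM : M.Tame)
    (c : Ol r → Ol r → Fin M.N1 → Fin M.N2 → ℤ) :
    ∃ (f : List (List (ETr r)) × List (EJ r) → List (List (ZB 2)))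
      (T : List (List (ETr r)) × List (EJ r) → ℕ) (C : ℕ), CT f T ∧
      (∀ (ts : List (List (Tr M))) (J : List (Jb M)),
        f (ts.map (fun t => t.map (eT M)), J.map (eJ M)) = (up M ts (J.map (bas M c))).map zl) ∧
      ∀ (N s : ℕ) (j : Jb M), 2 ^ s ≤ N → Vj M N s j →
        T ((dn M s [j]).2.map (fun t => t.map (eT M)), (dn M s [j]).1.map (eJ M)) ≤
          C * N ^ 2 * lg N ^ 3 := by
  obtain ⟨C0, hC0⟩ := rval_bound M hM c
  obtain ⟨fu, Tu, Cu, hu, hfu, hTu⟩ := ct_ustep M hM C0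
  obtain ⟨fe, he, hfe⟩ := ct_ebas (r := r) c
  obtain ⟨Ct, hCt⟩ := size_eT M hM
  obtain ⟨Cj, hCj⟩ := size_eJ M hM
  have hbas : ∀ J : List (Jb M), (J.map (eJ M)).map (w10c_fb fe) = (J.map (bas M c)).map zl := by
    intro J
    rw [List.map_map, List.map_map]
    refine List.map_congr_left (fun j _ => ?_)
    exact hfe _ _ _
  refine ⟨w10c_f fu (w10c_fb fe), w10c_T Tu fu (w10c_fb fe),
    (1 + 2 * (Ct + 2)) + 2 * (Cj + 1) + 2 * Cu, w10c_ct hu (w10c_base he), fun ts J => ?_,
    fun N s j hs2 hj => ?_⟩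
  · unfold w10c_f
    simp only
    rw [hbas]
    exact w10c_sem M hfu ts _
  · obtain ⟨h1, h2⟩ := w10c_all M c hfu hTu hC0 hCt N (2 * N ^ 2) s [j] (fun x hx => by
      rw [List.mem_singleton] at hx
      rw [hx]
      exact hj) (by
      show (1 + 1) * 4 ^ s ≤ 2 * N ^ 2
      have e : (4 : ℕ) ^ s = (2 ^ s) ^ 2 := by
        rw [← pow_mul, mul_comm s 2, pow_mul]
        norm_num
      rw [e]
      exact Nat.mul_le_mul_left _ (Nat.pow_le_pow_left hs2 2))
    obtain ⟨v1, v2, -, -⟩ := dn_valid M N s [j] (fun x hx => by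
      rw [List.mem_singleton] at hx
      rw [hx]
      exact hj)
    have hN1 : 1 ≤ N := le_trans Nat.one_le_two_pow hs2
    have hlg := one_le_lg N
    have hsl : s ≤ lg N := by
      unfold lg
      have h5 : s ≤ Nat.log 2 (N + 1) := Nat.le_log_of_pow_le (by norm_num) (hs2.trans (by omega))
      omega
    have q2 := size_list_le_of (Cj * lg N) ((dn M s [j]).1.map (eJ M)) (fun a ha => by
      obtain ⟨x, hx, rfl⟩ := List.mem_map.1 ha
      refine (hCj N 0 x (v1 x hx)).trans (le_of_eq ?_)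
      ring)
    rw [List.length_map, v2, List.length_singleton, one_mul] at q2
    have e4 : (4 : ℕ) ^ s ≤ N ^ 2 := by
      have e : (4 : ℕ) ^ s = (2 ^ s) ^ 2 := by
        rw [← pow_mul, mul_comm s 2, pow_mul]
        norm_num
      rw [e]
      exact Nat.pow_le_pow_left hs2 2
    show size ((dn M s [j]).2.map (fun t => t.map (eT M))) + size ((dn M s [j]).1.map (eJ M)) +
      foldCost Tu fu ((dn M s [j]).2.map (fun t => t.map (eT M)))
        (((dn M s [j]).1.map (eJ M)).map (w10c_fb fe)) ≤ _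
    rw [hbas]
    obtain ⟨g, hg⟩ : ∃ g, g = lg N := ⟨_, rfl⟩
    rw [← hg] at hlg hsl h1 h2 q2 ⊢
    have hg3 : g ≤ g ^ 3 := Nat.le_self_pow (by norm_num) g
    have hg31 : 1 ≤ g ^ 3 := hlg.trans hg3
    have hN2 : 1 ≤ N ^ 2 := Nat.one_le_pow _ _ hN1
    have p1 : 1 ≤ N ^ 2 * g ^ 3 := Nat.mul_pos hN2 hg31
    have p3 : s * (N ^ 2 * g ^ 2) ≤ N ^ 2 * g ^ 3 := by
      calc s * (N ^ 2 * g ^ 2) ≤ g * (N ^ 2 * g ^ 2) := Nat.mul_le_mul_right _ hsl
        _ = N ^ 2 * g ^ 3 := by ring
    have r1 : size ((dn M s [j]).2.map (fun t => t.map (eT M))) ≤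
        (1 + 2 * (Ct + 2)) * (N ^ 2 * g ^ 3) := by
      refine h2.trans ?_
      have h4 := Nat.mul_le_mul_left (2 * (Ct + 2)) p3
      have e : (1 + 2 * (Ct + 2)) * (N ^ 2 * g ^ 3) =
          N ^ 2 * g ^ 3 + 2 * (Ct + 2) * (N ^ 2 * g ^ 3) := by ring
      rw [e]
      refine Nat.add_le_add p1 (le_trans (le_of_eq ?_) h4)
      ring
    have r2 : size ((dn M s [j]).1.map (eJ M)) ≤ 2 * (Cj + 1) * (N ^ 2 * g ^ 3) := by
      refine q2.trans ?_
      calc (Cj * g + 1) * (4 ^ s + 1) ≤ ((Cj + 1) * g) * (2 * N ^ 2) := by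
            refine Nat.mul_le_mul ?_ (by omega)
            have e : (Cj + 1) * g = Cj * g + g := by ring
            rw [e]
            exact Nat.add_le_add_left hlg _
        _ = 2 * (Cj + 1) * (N ^ 2 * g) := by ring
        _ ≤ 2 * (Cj + 1) * (N ^ 2 * g ^ 3) :=
            Nat.mul_le_mul_left _ (Nat.mul_le_mul_left _ hg3)
    have r3 : foldCost Tu fu ((dn M s [j]).2.map (fun t => t.map (eT M)))
        (((dn M s [j]).1.map (bas M c)).map zl) ≤ 2 * Cu * (N ^ 2 * g ^ 3) := by
      refine h1.trans ?_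
      have h4 := Nat.mul_le_mul_left (2 * Cu) p3
      refine le_trans (le_of_eq ?_) h4
      ring
    have e : ((1 + 2 * (Ct + 2)) + 2 * (Cj + 1) + 2 * Cu) * N ^ 2 * g ^ 3 =
        (1 + 2 * (Ct + 2)) * (N ^ 2 * g ^ 3) + 2 * (Cj + 1) * (N ^ 2 * g ^ 3) +
          2 * Cu * (N ^ 2 * g ^ 3) := by ring
    rw [e]
    exact Nat.add_le_add (Nat.add_le_add r1 r2) r3

end Pool.Agent.WPQ
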