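import Pool.Agent.Lib.MP_2da099_lc.QT.Defs
import Pool.Agent.Lib.MP_2da099_lc.R2.P05
import Pool.Agent.Lib.MP_2da099_lc.R2.P07
import Pool.Agent.Lib.MP_2da099_lc.C06
import Pool.Agent.Lib.MP_2da099_lc.C10

/-!
# W11a: the start

HINTS.  Doubling: fold over a list of `n + 1` units (`n = w.length`, `ct_length`, `ct_units`) with the state
`(h, (out, m))`, `m = n + 1` as environment: if `h ≤ n + 1` (`ct_le`) then `(2 h, h :: out)` else unchanged.  Start `(1, [])`.  After `k` steps
with `2 ^ (k - 1) ≤ n + 1`: `(2 ^ k, hs k)`; it becomes constant at `k = lg n = Nat.log 2 (n + 1) + 1 ≤ n + 1`.  Every step costs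
`O(n + 1)` (all unary numbers are at most `2 n + 2`; the list `out` has the size `O(n + 1)`, it may be copied), in all `O((n + 1) ^ 2)`.
This gives `2 ^ lg n` and `hs (lg n)`.  Then `pad w`: `ct_map` of `some`, `ct_sub`, `ct_replicate`, `CT.append`.
-/

set_option autoImplicit false

namespace Pool.Agent.WPQ

open Pool.Agent.Lib.PolyTime Pool.Agent.WPM Pool.Agent.WPR Pool.Agent.WPU

private theorem w11a_id {α : Type} [Enc α] : CT (fun x : α => x) (fun _ => 0) :=
  CT.of_enc_eq (fun _ => rfl)

/-- linear cost: pairs -/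
private theorem w11a_lpair {α β γ : Type} [Enc α] [Enc β] [Enc γ] {f : α → β} {g : α → γ}
    (hf : CT f (fun x => size x)) (hg : CT g (fun x => size x)) :
    CT (fun a => (f a, g a)) (fun a => size a) :=
  (CT.pair hf hg).mono 3 (fun a => by
    show size a + size a + size a ≤ 3 * (size a + 1)
    omega)

/-- linear cost: compositions -/
private theorem w11a_lcomp {α β γ : Type} [Enc α] [Enc β] [Enc γ] {f : α → β} {g : β → γ}
    (hg : CT g (fun x => size x)) (hf : CT f (fun x => size x)) :
    CT (fun a => g (f a)) (fun a => size a) := by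
  obtain ⟨C, hC⟩ := hf.size_le
  refine (hg.comp hf).mono (C + 2) (fun a => ?_)
  have := hC a
  show size a + size (f a) ≤ (C + 2) * (size a + 1)
  have e : (C + 2) * (size a + 1) = C * (size a + 1) + 2 * (size a + 1) := by ring
  rw [e]
  omega

private theorem w11a_lin {α β : Type} [Enc α] [Enc β] {f : α → β} {T : α → ℕ}
    (hf : CT f T) (h : ∀ a, T a ≤ size a) : CT f (fun a => size a) :=
  hf.mono 1 (fun a => by
    have := h a
    show T a ≤ 1 * (size a + 1)
    omega)

private theorem w11a_fst {α β : Type} [Enc α] [Enc β] :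
    CT (fun x : α × β => x.1) (fun x => size x) :=
  w11a_lin CT.fst (fun x => by rw [size_prod x]; omega)

private theorem w11a_snd {α β : Type} [Enc α] [Enc β] :
    CT (fun x : α × β => x.2) (fun x => size x) :=
  w11a_lin CT.snd (fun x => by rw [size_prod x]; omega)

private theorem w11a_cons {α : Type} [Enc α] :
    CT (fun x : α × List α => x.1 :: x.2) (fun x => size x) :=
  w11a_lin (CT.of_enc_eq (fun _ => rfl) : CT (fun x : α × List α => x.1 :: x.2) (fun _ => 0))
    (fun _ => Nat.zero_le _)

private theorem w11a_lid {α : Type} [Enc α] : CT (fun x : α => x) (fun x => size x) :=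
  w11a_lin w11a_id (fun _ => Nat.zero_le _)

private theorem w11a_add : CT (fun x : ℕ × ℕ => x.1 + x.2) (fun x => size x) :=
  w11a_lin ct_add (fun x => by rw [size_prod x, size_nat]; omega)

private theorem w11a_sub : CT (fun x : ℕ × ℕ => x.1 - x.2) (fun x => size x) :=
  w11a_lin ct_sub (fun x => by rw [size_prod x, size_nat, size_nat]; omega)

private theorem w11a_le : CT (fun x : ℕ × ℕ => decide (x.1 ≤ x.2)) (fun x => size x) :=
  w11a_lin ct_le (fun x => by rw [size_prod x, size_nat, size_nat]; omega)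

/-- one step -/
private def w11a_st (x : Unit × (ℕ × (List ℕ × ℕ))) : ℕ × (List ℕ × ℕ) :=
  if x.2.1 ≤ x.2.2.2 then (x.2.1 + x.2.1, (x.2.1 :: x.2.2.1, x.2.2.2)) else x.2

private theorem w11a_st_ct : CT w11a_st (fun x => size x) := by
  have hb : CT (fun x : ℕ × (List ℕ × ℕ) => decide (x.1 ≤ x.2.2)) (fun x => size x) :=
    w11a_lcomp w11a_le (w11a_lpair w11a_fst (w11a_lcomp w11a_snd w11a_snd))
  have h1 : CT (fun x : ℕ × (List ℕ × ℕ) => (decide (x.1 ≤ x.2.2), x)) (fun x => size x) :=
    w11a_lpair hb w11a_lid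
  have hd : CT (fun x : ℕ × (List ℕ × ℕ) => x.1 + x.1) (fun x => size x) :=
    w11a_lcomp w11a_add (w11a_lpair w11a_fst w11a_fst)
  have hc : CT (fun x : ℕ × (List ℕ × ℕ) => x.1 :: x.2.1) (fun x => size x) :=
    w11a_lcomp w11a_cons (w11a_lpair w11a_fst (w11a_lcomp w11a_fst w11a_snd))
  have hm : CT (fun x : ℕ × (List ℕ × ℕ) => x.2.2) (fun x => size x) :=
    w11a_lcomp w11a_snd w11a_snd
  have hf : CT (fun x : ℕ × (List ℕ × ℕ) => (x.1 + x.1, (x.1 :: x.2.1, x.2.2)))
      (fun x => size x) := w11a_lpair hd (w11a_lpair hc hm)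
  have hbc : CT (fun x : Bool × (ℕ × (List ℕ × ℕ)) =>
      if x.1 then (x.2.1 + x.2.1, (x.2.1 :: x.2.2.1, x.2.2.2)) else x.2) (fun x => size x) :=
    w11a_lin (CT.bcase hf w11a_lid) (fun x => by
      rw [size_prod x]
      rcases x with ⟨b, y⟩
      cases b
      · show size y ≤ _
        simp only
        omega
      · show size y ≤ _
        simp only
        omega)
  have hall := w11a_lcomp hbc (w11a_lcomp h1 (w11a_snd (α := Unit) (β := ℕ × (List ℕ × ℕ))))
  refine hall.congr (fun x => ?_)
  unfold w11a_st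
  by_cases h : x.2.1 ≤ x.2.2.2
  · simp only [h, decide_true, if_true]
  · simp only [h, decide_false, if_false, Bool.false_eq_true]

private def w11a_s (m j : ℕ) : ℕ × (List ℕ × ℕ) := (2 ^ j, (hs j, m))

private theorem w11a_lt (n j : ℕ) : 2 ^ j ≤ n + 1 ↔ j < lg n := by
  unfold lg
  rw [Nat.lt_add_one_iff]
  exact (Nat.le_log_iff_pow_le (by norm_num) (Nat.succ_ne_zero n)).symm

private theorem w11a_step (n j : ℕ) (u : Unit) :
    w11a_st (u, w11a_s (n + 1) (min j (lg n))) = w11a_s (n + 1) (min (j + 1) (lg n)) := by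
  unfold w11a_st w11a_s
  simp only
  by_cases h : j < lg n
  · have h1 : 2 ^ j ≤ n + 1 := (w11a_lt n j).2 h
    have e1 : min j (lg n) = j := min_eq_left h.le
    have e2 : min (j + 1) (lg n) = j + 1 := min_eq_left h
    rw [e1, e2, if_pos h1, pow_succ, mul_two]
    rfl
  · have h1 : lg n ≤ j := not_lt.1 h
    have e1 : min j (lg n) = lg n := min_eq_right h1
    have e2 : min (j + 1) (lg n) = lg n := min_eq_right (h1.trans (Nat.le_succ _))
    have h2 : ¬ 2 ^ lg n ≤ n + 1 := fun h3 => lt_irrefl _ ((w11a_lt n (lg n)).1 h3)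
    rw [e1, e2, if_neg h2]

private theorem w11a_fold (n k : ℕ) : ∀ j : ℕ,
    (List.replicate k ()).foldl (fun s a => w11a_st (a, s)) (w11a_s (n + 1) (min j (lg n))) =
      w11a_s (n + 1) (min (j + k) (lg n)) := by
  induction k with
  | zero => intro j; rfl
  | succ k ih =>
    intro j
    rw [List.replicate_succ, List.foldl_cons, w11a_step, ih]
    have e : j + 1 + k = j + (k + 1) := by omega
    rw [e]

private theorem w11a_lgle (n : ℕ) : lg n ≤ n + 1 := by
  unfold lg
  exact Nat.log_lt_self 2 (Nat.succ_ne_zero n)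

private theorem w11a_pow (n : ℕ) : 2 ^ lg n ≤ 2 * (n + 1) := by
  unfold lg
  rw [pow_succ, mul_comm]
  exact Nat.mul_le_mul_left _ (Nat.pow_log_le_self 2 (Nat.succ_ne_zero n))

private theorem w11a_hs (j : ℕ) : size (hs j) + 1 = 2 * 2 ^ j + 2 * j := by
  induction j with
  | zero => rfl
  | succ j ih =>
    show size (2 ^ j :: hs j) + 1 = _
    rw [size_cons, size_nat]
    have e : 2 ^ (j + 1) = 2 * 2 ^ j := by rw [pow_succ, mul_comm]
    rw [e]
    omega

private theorem w11a_size (n j : ℕ) : size (w11a_s (n + 1) (min j (lg n))) ≤ 15 * (n + 1) := by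
  have hj : min j (lg n) ≤ lg n := min_le_right _ _
  set i := min j (lg n)
  have h1 : 2 ^ i ≤ 2 * (n + 1) := (Nat.pow_le_pow_right (by norm_num) hj).trans (w11a_pow n)
  have h2 : i ≤ n + 1 := hj.trans (w11a_lgle n)
  have h3 := w11a_hs i
  show size ((2 ^ i, (hs i, n + 1)) : ℕ × (List ℕ × ℕ)) ≤ _
  rw [size_prod, size_prod]
  simp only
  rw [size_nat, size_nat]
  omega

private theorem w11a_cost (n k : ℕ) : ∀ j : ℕ,
    foldCost (fun x => size x) w11a_st (List.replicate k ()) (w11a_s (n + 1) (min j (lg n))) ≤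
      k * (15 * (n + 1) + 2) := by
  induction k with
  | zero => intro j; exact Nat.zero_le _
  | succ k ih =>
    intro j
    rw [List.replicate_succ]
    show size (((), w11a_s (n + 1) (min j (lg n)))) +
      foldCost _ _ _ (w11a_st ((), w11a_s (n + 1) (min j (lg n)))) ≤ _
    rw [w11a_step, size_prod]
    have h1 := ih (j + 1)
    have h2 := w11a_size n j
    have h3 : size () = 1 := rfl
    have e : (k + 1) * (15 * (n + 1) + 2) = k * (15 * (n + 1) + 2) + (15 * (n + 1) + 2) := by ring
    simp only at *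
    omega

/-- quadratic cost in the length -/
private def Q2 {r : ℕ} {β : Type} [Enc β] (f : List (Letter r) → β) : Prop :=
  CT f (fun w => (w.length + 1) ^ 2)

private theorem w11a_sz (r : ℕ) : ∃ κ : ℕ, ∀ w : List (Letter r), size w ≤ κ * (w.length + 1) ^ 2 := by
  obtain ⟨κ, hκ⟩ := size_list_fin (Letter r)
  refine ⟨κ, fun w => (hκ w).trans (Nat.mul_le_mul_left _ ?_)⟩
  rw [sq]
  exact Nat.le_mul_of_pos_left _ (Nat.succ_pos _)

private theorem Q2.pair {r : ℕ} {β γ : Type} [Enc β] [Enc γ] {f : List (Letter r) → β}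
    {g : List (Letter r) → γ} (hf : Q2 f) (hg : Q2 g) : Q2 (fun w => (f w, g w)) := by
  obtain ⟨κ, hκ⟩ := w11a_sz r
  refine (CT.pair hf hg).mono (κ + 2) (fun w => ?_)
  have := hκ w
  show size w + (w.length + 1) ^ 2 + (w.length + 1) ^ 2 ≤ (κ + 2) * ((w.length + 1) ^ 2 + 1)
  have e : (κ + 2) * ((w.length + 1) ^ 2 + 1) = κ * (w.length + 1) ^ 2 + 2 * (w.length + 1) ^ 2 +
    κ + 2 := by ring
  omega

private theorem Q2.comp {r : ℕ} {β γ : Type} [Enc β] [Enc γ] {f : List (Letter r) → β}
    {g : β → γ} (hg : CT g (fun x => size x)) (hf : Q2 f) : Q2 (fun w => g (f w)) := by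
  obtain ⟨κ, hκ⟩ := w11a_sz r
  obtain ⟨C, hC⟩ := CT.size_le hf
  refine (hg.comp hf).mono (κ + C + 1) (fun w => ?_)
  have h1 := hκ w
  have h2 := hC w
  show (w.length + 1) ^ 2 + size (f w) ≤ (κ + C + 1) * ((w.length + 1) ^ 2 + 1)
  have e : (κ + C + 1) * ((w.length + 1) ^ 2 + 1) = κ * (w.length + 1) ^ 2 +
    C * ((w.length + 1) ^ 2 + 1) + (w.length + 1) ^ 2 + κ + 1 := by ring
  omega

private theorem Q2.lin {r : ℕ} {β : Type} [Enc β] {f : List (Letter r) → β}
    (hf : CT f (fun w => size w)) : Q2 f := by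
  obtain ⟨κ, hκ⟩ := w11a_sz r
  refine hf.mono (κ + 1) (fun w => ?_)
  have h1 := hκ w
  have e : (κ + 1) * ((w.length + 1) ^ 2 + 1) = κ * (w.length + 1) ^ 2 + (w.length + 1) ^ 2 +
    κ + 1 := by ring
  show size w ≤ _
  omega

private theorem w11a_loop (r : ℕ) :
    Q2 (fun w : List (Letter r) => ((2 ^ lg w.length, (hs (lg w.length), w.length + 1)) :
      ℕ × (List ℕ × ℕ))) := by
  have hfold := CT.foldl w11a_st_ct
  have hlen : CT (fun w : List (Letter r) => w.length + 1) (fun w => size w) :=
    w11a_lcomp (w11a_lin ct_succ (fun _ => Nat.zero_le _)) ct_length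
  have hun : CT (fun w : List (Letter r) => List.replicate (w.length + 1) ())
      (fun w => size w) := by
    have a1 := w11a_lcomp (w11a_lin ct_units (fun _ => Nat.zero_le _)) hlen
    exact a1
  have hs0 : CT (fun w : List (Letter r) => ((1, ([], w.length + 1)) : ℕ × (List ℕ × ℕ)))
      (fun w => size w) := by
    have a0 : CT (fun m : ℕ => (([], m) : List ℕ × ℕ)) (fun m => size m) :=
      w11a_lin (CT.pushConst ([] : List ℕ)) (fun _ => Nat.zero_le _)
    have a1 : CT (fun m : List ℕ × ℕ => ((1, m) : ℕ × (List ℕ × ℕ))) (fun m => size m) :=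
      w11a_lin (CT.pushConst (1 : ℕ)) (fun _ => Nat.zero_le _)
    have a2 := w11a_lcomp a1 (w11a_lcomp a0 hlen)
    exact a2
  have hin : CT (fun w : List (Letter r) => (List.replicate (w.length + 1) (),
      ((1, ([], w.length + 1)) : ℕ × (List ℕ × ℕ)))) (fun w => size w) := w11a_lpair hun hs0
  obtain ⟨κ, hκ⟩ := w11a_sz r
  obtain ⟨C, hC⟩ := hin.size_le
  have key : ∀ w : List (Letter r), ((1, ([], w.length + 1)) : ℕ × (List ℕ × ℕ)) =
      w11a_s (w.length + 1) (min 0 (lg w.length)) := by
    intro w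
    rw [Nat.zero_min]
    rfl
  refine ((hfold.comp hin).mono (κ + 40) (fun w => ?_)).congr (fun w => ?_)
  · have h1 := hκ w
    have h2 := w11a_cost w.length (w.length + 1) 0
    show size w + (size (List.replicate (w.length + 1) ()) +
      foldCost (fun x => size x) w11a_st (List.replicate (w.length + 1) ())
        ((1, ([], w.length + 1)) : ℕ × (List ℕ × ℕ))) ≤ _
    rw [key w, p07_size_units]
    have e1 : (w.length + 1) * (15 * (w.length + 1) + 2) =
      15 * (w.length + 1) ^ 2 + 2 * (w.length + 1) := by ring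
    have e2 : (κ + 40) * ((w.length + 1) ^ 2 + 1) = κ * (w.length + 1) ^ 2 +
      40 * (w.length + 1) ^ 2 + κ + 40 := by ring
    have e3 : w.length + 1 ≤ (w.length + 1) ^ 2 := by
      rw [sq]
      exact Nat.le_mul_of_pos_left _ (Nat.succ_pos _)
    omega
  · show (List.replicate (w.length + 1) ()).foldl (fun s a => w11a_st (a, s))
      ((1, ([], w.length + 1)) : ℕ × (List ℕ × ℕ)) = _
    rw [key w, w11a_fold, Nat.zero_add, min_eq_right (w11a_lgle w.length)]
    rfl

private theorem w11a_pad (r : ℕ) : Q2 (fun w : List (Letter r) => pad w) := by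
  have hl := w11a_loop r
  have hp : Q2 (fun w : List (Letter r) => 2 ^ lg w.length) := by
    have a1 := Q2.comp (w11a_fst (α := ℕ) (β := List ℕ × ℕ)) hl
    exact a1
  have hn : Q2 (fun w : List (Letter r) => w.length) := Q2.lin ct_length
  have hd : Q2 (fun w : List (Letter r) => 2 ^ lg w.length - w.length) := by
    have a1 := Q2.comp w11a_sub (hp.pair hn)
    exact a1
  have hrep : CT (fun n : ℕ => List.replicate n (none : Option (Letter r))) (fun n => size n) := by
    have a1 : CT (fun n : ℕ => (n, (none : Option (Letter r)))) (fun n => size n) :=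
      w11a_lpair w11a_lid (CT.const none)
    refine (ct_replicate.comp a1).mono (size (none : Option (Letter r)) + 2) (fun n => ?_)
    show size n + (n + 1) * size (none : Option (Letter r)) ≤ _
    rw [size_nat]
    have h1 : (n + 1) * size (none : Option (Letter r)) ≤
        (2 * n + 2) * size (none : Option (Letter r)) := Nat.mul_le_mul_right _ (by omega)
    have e : (size (none : Option (Letter r)) + 2) * (2 * n + 1 + 1) =
      (2 * n + 2) * size (none : Option (Letter r)) + 2 * (2 * n + 2) := by ring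
    omega
  have hr : Q2 (fun w : List (Letter r) =>
      List.replicate (2 ^ lg w.length - w.length) (none : Option (Letter r))) := by
    have a1 := Q2.comp hrep hd
    exact a1
  have hm : Q2 (fun w : List (Letter r) => w.map some) := by
    refine Q2.lin ((ct_map (CT.fin (fun a : Letter r => some a))).mono 1 (fun w => ?_))
    have e : (w.map (fun _ : Letter r => 0)).sum = 0 := by simp
    show size w + (w.map (fun _ : Letter r => 0)).sum ≤ 1 * (size w + 1)
    omega
  have happ : CT (fun x : List (Option (Letter r)) × List (Option (Letter r)) => x.1 ++ x.2)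
      (fun x => size x) := w11a_lin CT.append (fun x => by rw [size_prod x]; omega)
  have h := Q2.comp happ (hm.pair hr)
  exact h

theorem ct_start {r : ℕ} (p0 : List (ZB 2)) :
    CT (fun w : List (Letter r) => (hs (lg w.length), [((p0, (pad w, pad w)) : EJ r)]))
      (fun w => (w.length + 1) ^ 2) := by
  have h1 : Q2 (fun w : List (Letter r) => hs (lg w.length)) := by
    have a1 := Q2.comp (w11a_lcomp (w11a_fst (α := List ℕ) (β := ℕ))
      (w11a_snd (α := ℕ) (β := List ℕ × ℕ))) (w11a_loop r)
    exact a1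
  have h2 : CT (fun u : List (Ol r) => ((p0, (u, u)) : EJ r)) (fun u => size u) := by
    have a1 : CT (fun x : List (Ol r) × List (Ol r) => (p0, x)) (fun x => size x) :=
      w11a_lin (CT.pushConst p0) (fun _ => Nat.zero_le _)
    have a2 : CT (fun u : List (Ol r) => (u, u)) (fun u => size u) :=
      w11a_lpair w11a_lid w11a_lid
    have a3 := w11a_lcomp a1 a2
    exact a3
  have h3 : CT (fun x : EJ r => [x]) (fun x => size x) := by
    have a1 : CT (fun x : EJ r => (x, ([] : List (EJ r)))) (fun x => size x) := p07_input []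
    have a2 := w11a_lcomp w11a_cons a1
    exact a2
  have h4 := Q2.pair h1 (Q2.comp (w11a_lcomp h3 h2) (w11a_pad r))
  exact h4

end Pool.Agent.WPQ
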