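import Pool.Agent.Lib.MP_2da099_lc.QT.Defs
import Pool.Agent.Lib.MP_2da099_lc.QT.W01
import Pool.Agent.Lib.MP_2da099_lc.QT.W03a
import Pool.Agent.Lib.MP_2da099_lc.QT.W09a
import Pool.Agent.Lib.MP_2da099_lc.QT.W09b
import Pool.Agent.Lib.MP_2da099_lc.QT.W10c
import Pool.Agent.Lib.MP_2da099_lc.QT.W11a
import Pool.Agent.Lib.MP_2da099_lc.R2.N04
import Pool.Agent.Lib.MP_2da099_lc.R2.N05

/-!
# W11: values of quadtrees in time n^2 (log n)^C
-/

set_option autoImplicit false

namespace Pool.Agent.WPQ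

open Pool.Agent.Lib.PolyTime Pool.Agent.WPM Pool.Agent.WPR Pool.Agent.WPU

/-- the time bound -/
private def w11B (n : ℕ) : ℕ := (n + 1) ^ 2 * lg n ^ 3

private theorem w11_lg_pos (n : ℕ) : 1 ≤ lg n := by
  unfold lg
  omega

private theorem w11B_ge (n : ℕ) : (n + 1) ^ 2 ≤ w11B n := by
  unfold w11B
  exact Nat.le_mul_of_pos_right _ (pow_pos (w11_lg_pos n) 3)

private theorem w11B_pos (n : ℕ) : 1 ≤ w11B n :=
  le_trans (Nat.one_le_pow _ _ (Nat.succ_pos n)) (w11B_ge n)

/-- functions of words with time and size of the values bounded by `w11B` -/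
private def w11S {r : ℕ} {β : Type} [Enc β] (f : List (Letter r) → β) : Prop :=
  ∃ (T : List (Letter r) → ℕ) (C : ℕ), CT f T ∧
    ∀ w, T w ≤ C * w11B w.length ∧ size (f w) ≤ C * w11B w.length

private theorem w11S_comp {r : ℕ} {β γ : Type} [Enc β] [Enc γ] {f : List (Letter r) → β}
    {g : β → γ} {T' : β → ℕ} (C' : ℕ) (hf : w11S f) (hg : CT g T')
    (hT : ∀ w, T' (f w) ≤ C' * w11B w.length) : w11S (fun w => g (f w)) := by
  obtain ⟨T, C, h1, h2⟩ := hf
  obtain ⟨D, hD⟩ := hg.size_le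
  refine ⟨_, C + C' + D * (C' + 1), CT.comp hg h1, fun w => ?_⟩
  obtain ⟨h3, h4⟩ := h2 w
  have h5 := hT w
  have h6 := hD (f w)
  have h7 := w11B_pos w.length
  have h8 : D * (T' (f w) + 1) ≤ D * ((C' + 1) * w11B w.length) := by
    refine Nat.mul_le_mul_left _ ?_
    rw [Nat.add_mul, Nat.one_mul]
    omega
  have h9 : (C + C' + D * (C' + 1)) * w11B w.length =
      C * w11B w.length + C' * w11B w.length + D * ((C' + 1) * w11B w.length) := by ring
  refine ⟨?_, ?_⟩
  · show T w + T' (f w) ≤ _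
    omega
  · show size (g (f w)) ≤ _
    omega

private theorem w11S_lin {r : ℕ} {β γ : Type} [Enc β] [Enc γ] {f : List (Letter r) → β}
    {g : β → γ} (hf : w11S f) (hg : CT g (fun x => size x)) : w11S (fun w => g (f w)) := by
  obtain ⟨T, C, h1, h2⟩ := hf
  exact w11S_comp C ⟨T, C, h1, h2⟩ hg (fun w => (h2 w).2)

private theorem w11_start {r : ℕ} (p0 : List (ZB 2)) :
    w11S (fun w : List (Letter r) => (hs (lg w.length), [((p0, (pad w, pad w)) : EJ r)])) := by
  obtain ⟨D, hD⟩ := (ct_start (r := r) p0).size_le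
  obtain ⟨κ, hκ⟩ := size_list_fin (Letter r)
  refine ⟨_, κ + 1 + 2 * D, ct_start p0, fun w => ?_⟩
  have h1 := hD w
  have h2 := hκ w
  have h3 := w11B_ge w.length
  have h4 := w11B_pos w.length
  have h5 : w.length + 1 ≤ (w.length + 1) ^ 2 := by nlinarith
  have h6 : κ * (w.length + 1) ≤ κ * w11B w.length := Nat.mul_le_mul_left _ (h5.trans h3)
  have h7 : D * ((w.length + 1) ^ 2 + 1) ≤ D * (2 * w11B w.length) :=
    Nat.mul_le_mul_left _ (by omega)
  have h8 : (κ + 1 + 2 * D) * w11B w.length =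
      κ * w11B w.length + w11B w.length + D * (2 * w11B w.length) := by ring
  refine ⟨?_, ?_⟩
  · show (w.length + 1) ^ 2 ≤ _
    omega
  · show size (hs (lg w.length), [((p0, (pad w, pad w)) : EJ r)]) ≤ _
    omega

private theorem w11_head {α : Type} [Enc α] (d : α) :
    CT (fun l : List α => l.headD d) (fun l => size l) := by
  have h1 : CT (fun x : (α × List α) × Unit => x.1.1) (fun x => size x) :=
    n03_comp (g := fun x : α × List α => x.1) n03_fst n03_fst
  have h2 : CT (fun x : List α × Unit => match x.1 with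
      | [] => d
      | a :: l => (fun x : (α × List α) × Unit => x.1.1) ((a, l), x.2)) (fun x => match x.1 with
      | [] => size x.2
      | a :: l => size ((a, l), x.2)) :=
    CT.lcase (f := fun _ : Unit => d) (g := fun x : (α × List α) × Unit => x.1.1)
      (n03_const _) h1
  have h3 : n03_LT (fun x : List α × Unit => match x.1 with
      | [] => d
      | a :: l => (fun x : (α × List α) × Unit => x.1.1) ((a, l), x.2)) := by
    refine n03_of 2 h2 (fun x => ?_)
    rcases x with ⟨_ | ⟨a, l⟩, u⟩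
    · simp only [size_prod, size_nil]
      omega
    · simp only [size_prod, size_cons]
      omega
  have h4 : n03_LT (fun l : List α => (l, ())) := n03_pair n03_id (n03_const ())
  refine CT.congr (n03_comp h3 h4) (fun l => ?_)
  cases l <;> rfl

private theorem w11_swap {α β : Type} [Enc α] [Enc β] :
    CT (fun x : α × β => (x.2, x.1)) (fun x => size x) :=
  CT.swap.mono 1 (fun x => by rw [size_prod]; omega)

private theorem w11_dot {N : ℕ} (m R : Fin N → ℤ) :
    (List.zipWith (fun (a : ℤ) (y : ZB 2) => a • y) (List.ofFn m) (zl R)).sum =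
      (ZB.mk (∑ j, R j * m j) : ZB 2) := by
  have h1 : List.zipWith (fun (a : ℤ) (y : ZB 2) => a • y) (List.ofFn m) (zl R) =
      List.ofFn (fun i => (ZB.mk (R i * m i) : ZB 2)) := by
    apply List.ext_getElem
    · simp [zl]
    · intro i h1 h2
      simp only [zl, List.getElem_zipWith, List.getElem_ofFn]
      show m _ * R _ = R _ * m _
      rw [mul_comm]
  rw [h1, List.sum_ofFn]
  rfl

theorem qq_val {r : ℕ} (M : BM (In r)) (hM : M.Tame)
    (c : Ol r → Ol r → Fin M.N1 → Fin M.N2 → ℤ) :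
    QQ (fun w : List (Letter r) =>
      val M c (lg w.length) (pad w) (pad w) (M.p0, M.m0) = 0) := by
  obtain ⟨f1, T1, C1, hf1, hf1e, hT1⟩ := ct_dn M hM
  obtain ⟨f2, T2, C2, hf2, hf2e, hT2⟩ := ct_up M hM c
  -- the job
  let jb : List (Letter r) → Jb M := fun w => (M.p0, (pad w, pad w))
  have hV : ∀ w : List (Letter r), Vj M (2 ^ lg w.length) (lg w.length) (jb w) := fun w =>
    ⟨[], by simp, rfl, pad_length w, pad_length w⟩
  have hN : ∀ n : ℕ, (2 ^ lg n) ^ 2 * lg (2 ^ lg n) ^ 3 ≤ 32 * w11B n := by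
    intro n
    have h1 : 2 ^ lg n ≤ 2 * (n + 1) := by
      unfold lg
      rw [pow_succ, mul_comm]
      exact Nat.mul_le_mul_left _ (Nat.pow_log_le_self 2 (Nat.succ_ne_zero n))
    have h2 : lg (2 ^ lg n) ≤ 2 * lg n := by
      have h3 : lg (2 ^ lg n) = Nat.log 2 (2 ^ lg n + 1) + 1 := rfl
      have h4 : Nat.log 2 (2 ^ lg n + 1) ≤ lg n := by
        have h5 : 2 ^ lg n + 1 < 2 ^ (lg n + 1) := by
          have h6 : 2 ≤ 2 ^ lg n := by
            calc 2 = 2 ^ 1 := rfl
              _ ≤ 2 ^ lg n := Nat.pow_le_pow_right (by norm_num) (w11_lg_pos n)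
          rw [pow_succ]
          omega
        have h6 := Nat.log_lt_of_lt_pow (by omega) h5
        omega
      have h5 := w11_lg_pos n
      omega
    calc (2 ^ lg n) ^ 2 * lg (2 ^ lg n) ^ 3 ≤ (2 * (n + 1)) ^ 2 * (2 * lg n) ^ 3 :=
          Nat.mul_le_mul (Nat.pow_le_pow_left h1 2) (Nat.pow_le_pow_left h2 3)
      _ = 32 * w11B n := by unfold w11B; ring
  have s0 : w11S (fun w : List (Letter r) =>
      (hs (lg w.length), [((zl M.p0, (pad w, pad w)) : EJ r)])) := w11_start (zl M.p0)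
  have s1 : w11S (fun w : List (Letter r) =>
      f1 (hs (lg w.length), [((zl M.p0, (pad w, pad w)) : EJ r)])) := by
    refine w11S_comp (C1 * 32) s0 hf1 (fun w => ?_)
    have h1 : T1 (hs (lg w.length), [eJ M (jb w)]) ≤ C1 * (2 ^ lg w.length) ^ 2 * lg (2 ^ lg w.length) ^ 3 :=
      hT1 (2 ^ lg w.length) (lg w.length) (jb w) le_rfl (hV w)
    refine le_trans h1 ?_
    rw [mul_assoc, mul_assoc]
    exact Nat.mul_le_mul_left _ (hN _)
  have s2 := w11S_lin s1 (w11_swap (α := List (EJ r)) (β := List (List (ETr r))))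
  have e1 : ∀ w : List (Letter r), f1 (hs (lg w.length), [((zl M.p0, (pad w, pad w)) : EJ r)]) =
      ((dn M (lg w.length) [jb w]).1.map (eJ M),
        (dn M (lg w.length) [jb w]).2.map (fun t => t.map (eT M))) := fun w =>
    hf1e (lg w.length) [jb w]
  have s3 : w11S (fun w : List (Letter r) =>
      f2 ((f1 (hs (lg w.length), [((zl M.p0, (pad w, pad w)) : EJ r)])).2,
        (f1 (hs (lg w.length), [((zl M.p0, (pad w, pad w)) : EJ r)])).1)) := by
    refine w11S_comp (C2 * 32) s2 hf2 (fun w => ?_)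
    rw [e1 w]
    refine le_trans (hT2 (2 ^ lg w.length) (lg w.length) (jb w) le_rfl (hV w)) ?_
    rw [mul_assoc, mul_assoc]
    exact Nat.mul_le_mul_left _ (hN _)
  have e2 : ∀ w : List (Letter r),
      f2 ((f1 (hs (lg w.length), [((zl M.p0, (pad w, pad w)) : EJ r)])).2,
        (f1 (hs (lg w.length), [((zl M.p0, (pad w, pad w)) : EJ r)])).1) =
      [zl (rval M c (lg w.length) (pad w) (pad w) M.p0)] := by
    intro w
    rw [e1 w]
    rw [hf2e, up_dn]
    rfl
  have s4 := w11S_lin s3 (w11_head ([] : List (ZB 2)))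
  have s5 := w11S_lin s4 (ct_dot 2 (List.ofFn M.m0))
  have s6 := w11S_lin s5 (ct_zbzero 2)
  obtain ⟨T, C, hT, hb⟩ := s6
  refine ⟨_, T, C + 3, hT, fun w => ?_, fun w => ?_⟩
  · rw [e2 w]
    show decide _ = true ↔ val M c (lg w.length) (pad w) (pad w) (M.p0, M.m0) = 0
    rw [decide_eq_true_iff, List.headD_cons, w11_dot, val_rval]
    rfl
  · refine le_trans (hb w).1 ?_
    unfold w11B
    rw [← mul_assoc]
    refine Nat.mul_le_mul (Nat.mul_le_mul_right _ (by omega)) ?_
    exact Nat.pow_le_pow_right (w11_lg_pos _) (by omega)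

end Pool.Agent.WPQ
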